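import Pool.Agent.Y756.S.Int7C
import Pool.Agent.Y756.T.Num5

set_option autoImplicit false

/-! Numerical evaluation in the case `k = 7`. -/

namespace Pool.Agent.Y756.T

open Finset Filter Topology MeasureTheory

noncomputable section

lemma Gamma_tq_up (N : ℕ) :
    Real.Gamma (N + 1 + 3 / 4) ^ 4 ≤ ((N.factorial : ℝ)) ^ 4 * ((N : ℝ) + 1) ^ 3 := by
  have hN : (0 : ℝ) < (N : ℝ) + 1 := by positivity
  have h := Real.Gamma_mul_add_mul_le_rpow_Gamma_mul_rpow_Gamma (s := (N : ℝ) + 1)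
    (t := (N : ℝ) + 1 + 1) (a := 1 / 4) (b := 3 / 4) hN (by positivity) (by norm_num)
    (by norm_num) (by norm_num)
  rw [Real.Gamma_add_one hN.ne', show 1 / 4 * ((N : ℝ) + 1) + 3 / 4 * ((N : ℝ) + 1 + 1) = N + 1 + 3 / 4 by ring,
    Real.Gamma_nat_eq_factorial] at h
  have hf : (0 : ℝ) < (N.factorial : ℝ) := by exact_mod_cast N.factorial_pos
  have hG := Real.Gamma_pos_of_pos (show (0 : ℝ) < (N : ℝ) + 1 + 3 / 4 by positivity)
  set f := (N.factorial : ℝ) with hfd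
  have h2 := pow_le_pow_left₀ hG.le h 4
  refine h2.trans (le_of_eq ?_)
  rw [mul_pow, ← Real.rpow_natCast, ← Real.rpow_natCast, ← Real.rpow_mul hf.le,
    ← Real.rpow_mul (by positivity)]
  rw [show (1 / 4 : ℝ) * ((4 : ℕ) : ℝ) = 1 by norm_num,
    show (3 / 4 : ℝ) * ((4 : ℕ) : ℝ) = ((3 : ℕ) : ℝ) by norm_num, Real.rpow_one, Real.rpow_natCast]
  ring

lemma fact60 : (((60 : ℕ).factorial : ℕ) : ℝ) =
    8320987112741390144276341183223364380754172606361245952449277696409600000000000000 := by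
  have : (60 : ℕ).factorial =
      8320987112741390144276341183223364380754172606361245952449277696409600000000000000 := by
    decide +kernel
  rw [this]; norm_num

lemma fact59 : (((59 : ℕ).factorial : ℕ) : ℝ) =
    138683118545689835737939019720389406345902876772687432540821294940160000000000000 := by
  have : (59 : ℕ).factorial =
      138683118545689835737939019720389406345902876772687432540821294940160000000000000 := by
    decide +kernel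
  rw [this]; norm_num

lemma Gamma33 : (4892756000000000 : ℝ) ≤ Real.Gamma (33 / 4) ^ 4 := by
  have h1 := Gamma_quarter_low 60
  have h2 := Gamma_shift (33 / 4) (by norm_num) 52
  rw [show (33 / 4 : ℝ) + (52 : ℕ) = ((60 : ℕ) : ℝ) + 1 / 4 by norm_num] at h2
  rw [h2, fact60] at h1
  simp only [prod_range_succ, prod_range_zero] at h1
  have hG := Real.Gamma_pos_of_pos (show (0 : ℝ) < 33 / 4 by norm_num)
  set G := Real.Gamma (33 / 4) with hGd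
  rw [mul_pow] at h1
  norm_num at h1
  by_contra hlt
  push Not at hlt
  have h3 : 0 ≤ G ^ 4 := by positivity
  linarith

lemma Gamma11 : Real.Gamma (11 / 4) ^ 4 ≤ (67336 / 10 ^ 4 : ℝ) := by
  have h1 := Gamma_tq_up 59
  have h2 := Gamma_shift (11 / 4) (by norm_num) 58
  rw [show (11 / 4 : ℝ) + (58 : ℕ) = ((59 : ℕ) : ℝ) + 1 + 3 / 4 by norm_num] at h2
  rw [h2, fact59] at h1
  simp only [prod_range_succ, prod_range_zero] at h1
  have hG := Real.Gamma_pos_of_pos (show (0 : ℝ) < 11 / 4 by norm_num)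
  set G := Real.Gamma (11 / 4) with hGd
  rw [mul_pow] at h1
  norm_num at h1
  by_contra hlt
  push Not at hlt
  have h3 : 0 ≤ G ^ 4 := by positivity
  linarith

lemma N7_up : N7 ≤ (227 / 10 ^ 4 : ℝ) := by
  have key : ∀ x : ℝ, 0 < x → x ^ (29 / 4 : ℝ) = x ^ 7 * x ^ (1 / 4 : ℝ) := by
    intro x hx
    rw [show (29 / 4 : ℝ) = ((7 : ℕ) : ℝ) + 1 / 4 by norm_num, Real.rpow_add hx, Real.rpow_natCast]
  have up : ∀ x r : ℝ, 0 < x → 0 < r → x ≤ r ^ 4 → x ^ (1 / 4 : ℝ) ≤ r := by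
    intro x r hx hr h
    calc x ^ (1 / 4 : ℝ) ≤ (r ^ 4) ^ (1 / 4 : ℝ) := Real.rpow_le_rpow hx.le h (by norm_num)
      _ = r := by
          rw [← Real.rpow_natCast, ← Real.rpow_mul hr.le]; norm_num
  have lo : ∀ x r : ℝ, 0 < x → 0 < r → r ^ 4 ≤ x → r ≤ x ^ (1 / 4 : ℝ) := by
    intro x r hx hr h
    calc r = (r ^ 4) ^ (1 / 4 : ℝ) := by
          rw [← Real.rpow_natCast, ← Real.rpow_mul hr.le]; norm_num
      _ ≤ x ^ (1 / 4 : ℝ) := Real.rpow_le_rpow (by positivity) h (by norm_num)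
  have u1 := up (4 / 7) (86945 / 10 ^ 5) (by norm_num) (by norm_num) (by norm_num)
  have u2 := lo (6999 / 17500) (7952 / 10 ^ 4) (by norm_num) (by norm_num) (by norm_num)
  have u3 := up (999 / 7000) (6147 / 10 ^ 4) (by norm_num) (by norm_num) (by norm_num)
  unfold N7
  rw [key _ (by norm_num), key _ (by norm_num), key _ (by norm_num)]
  have v1 : (4 / 7 : ℝ) ^ 7 * (4 / 7 : ℝ) ^ (1 / 4 : ℝ) ≤ (4 / 7 : ℝ) ^ 7 * (86945 / 10 ^ 5) :=
    mul_le_mul_of_nonneg_left u1 (by positivity)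
  have v2 : (6999 / 17500 : ℝ) ^ 7 * (7952 / 10 ^ 4) ≤
      (6999 / 17500 : ℝ) ^ 7 * (6999 / 17500 : ℝ) ^ (1 / 4 : ℝ) :=
    mul_le_mul_of_nonneg_left u2 (by positivity)
  have v3 : (999 / 7000 : ℝ) ^ 7 * (999 / 7000 : ℝ) ^ (1 / 4 : ℝ) ≤
      (999 / 7000 : ℝ) ^ 7 * (6147 / 10 ^ 4) :=
    mul_le_mul_of_nonneg_left u3 (by positivity)
  have v4 : 3 / 2 * ((4 / 7 : ℝ) ^ 7 * (86945 / 10 ^ 5)) -
      5 / 2 * ((6999 / 17500 : ℝ) ^ 7 * (7952 / 10 ^ 4)) +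
      (999 / 7000 : ℝ) ^ 7 * (6147 / 10 ^ 4) ≤ 227 / 10 ^ 4 := by norm_num
  linarith

lemma N7_pos : 0 < N7 := by
  unfold N7
  have h1 : (6999 / 17500 : ℝ) ^ (29 / 4 : ℝ) ≤ (1 / 2 : ℝ) * (4 / 7 : ℝ) ^ (29 / 4 : ℝ) := by
    have h2 : (6999 / 17500 : ℝ) ^ (29 / 4 : ℝ) =
        (4 / 7 : ℝ) ^ (29 / 4 : ℝ) * (6999 / 10000 : ℝ) ^ (29 / 4 : ℝ) := by
      rw [← Real.mul_rpow (by norm_num) (by norm_num)]; norm_num
    have h3 : (6999 / 10000 : ℝ) ^ (29 / 4 : ℝ) ≤ 1 / 2 := by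
      calc (6999 / 10000 : ℝ) ^ (29 / 4 : ℝ) ≤ (6999 / 10000 : ℝ) ^ (2 : ℝ) :=
            Real.rpow_le_rpow_of_exponent_ge (by norm_num) (by norm_num) (by norm_num)
        _ ≤ 1 / 2 := by
            rw [show (2 : ℝ) = ((2 : ℕ) : ℝ) by norm_num, Real.rpow_natCast]; norm_num
    rw [h2]
    have h4 : (0 : ℝ) ≤ (4 / 7 : ℝ) ^ (29 / 4 : ℝ) := by positivity
    calc _ ≤ (4 / 7 : ℝ) ^ (29 / 4 : ℝ) * (1 / 2) := mul_le_mul_of_nonneg_left h3 h4
      _ = _ := by ring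
  have h5 : (0 : ℝ) < (4 / 7 : ℝ) ^ (29 / 4 : ℝ) := by positivity
  have h6 : (0 : ℝ) < (999 / 7000 : ℝ) ^ (29 / 4 : ℝ) := by positivity
  linarith

/-- lower bound for the cross integral -/
theorem IC7_low : (1425 / 10000 : ℝ) ^ (7 / 4 : ℝ) / Real.Gamma (11 / 4) * (74028 / 10 ^ 10) ≤
    IC7 (1 / 2) F7 (999 / 7000) (1 / 7000) := by
  have h1 := I71_low
  have h2 := I72_up
  have hg := Real.Gamma_pos_of_pos (show (0 : ℝ) < 11 / 4 by norm_num)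
  set g := Real.Gamma (11 / 4) with hgd
  set I1 := ∫ u : Fin 4 → ℝ, Pool.Agent.TH535.GdI (mC (1 / 2)) u * q7 F7 (999 / 7000) (1 / 7000) u
  set I2 := ∫ u : Fin 4 → ℝ, Pool.Agent.TH535.GdI (mQ (mC (1 / 2)) 0) u *
    q2 F7 (999 / 7000) (1 / 7000) u
  have e0 : IC7 (1 / 2) F7 (999 / 7000) (1 / 7000) = 1 / 2 * I1 - 3 / 8 * (mC (1 / 2) 0 * I2) := rfl
  have e1 : mC (1 / 2) 0 = 5 := by
    show (2 * (1 / 2 + 2) : ℝ) = 5
    norm_num
  rw [e0, e1]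
  set x := (1425 / 10000 : ℝ) ^ (7 / 4 : ℝ) with hx
  have hx0 : 0 < x := by positivity
  have h3 : (1429 / 10000 : ℝ) ^ (7 / 4 : ℝ) ≤ x * (1429 / 1425) ^ 2 := by
    have e2 : (1429 / 10000 : ℝ) ^ (7 / 4 : ℝ) = x * (1429 / 1425 : ℝ) ^ (7 / 4 : ℝ) := by
      rw [hx, ← Real.mul_rpow (by norm_num) (by norm_num)]; norm_num
    rw [e2]
    refine mul_le_mul_of_nonneg_left ?_ hx0.le
    calc (1429 / 1425 : ℝ) ^ (7 / 4 : ℝ) ≤ (1429 / 1425 : ℝ) ^ (2 : ℝ) :=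
          Real.rpow_le_rpow_of_exponent_le (by norm_num) (by norm_num)
      _ = _ := by rw [show (2 : ℝ) = ((2 : ℕ) : ℝ) by norm_num, Real.rpow_natCast]
  have hQ2 : 0 < Q72 := by unfold Q72; positivity
  have h4 : (1429 / 10000 : ℝ) ^ (7 / 4 : ℝ) / g * Q72 ≤ x * (1429 / 1425) ^ 2 / g * Q72 := by
    gcongr
  have h5 : x / g * (1 / 2 * Q71 - 15 / 8 * ((1429 / 1425) ^ 2 * Q72)) ≤
      1 / 2 * I1 - 3 / 8 * (5 * I2) := by
    have e3 : x / g * (1 / 2 * Q71 - 15 / 8 * ((1429 / 1425) ^ 2 * Q72)) =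
        1 / 2 * (x / g * Q71) - 15 / 8 * (x * (1429 / 1425) ^ 2 / g * Q72) := by ring
    rw [e3]
    linarith
  refine le_trans ?_ h5
  refine mul_le_mul_of_nonneg_left ?_ (by positivity)
  unfold Q71 Q72
  norm_num

/-- choice of the parameters -/
theorem params7 : ∃ p q w ν : ℝ, 0 < p ∧ 0 < q ∧ 0 < ν ∧
    p < IC7 (1 / 2) F7 (999 / 7000) (1 / 7000) ∧ INf (3 / 2) F7 < q ∧
    ((999 / 7000 : ℝ) ^ (7 / 4 : ℝ) / Real.Gamma (11 / 4)) ^ 7 < w ∧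
    32 / Real.Gamma (53 / 4) < 7 / 6 * ν * (p ^ 2 / q - ν ^ 6 * w / 7) := by
  have hg := Real.Gamma_pos_of_pos (show (0 : ℝ) < 11 / 4 by norm_num)
  have hG := Real.Gamma_pos_of_pos (show (0 : ℝ) < 33 / 4 by norm_num)
  have hG53 : Real.Gamma (53 / 4) =
      33 / 4 * (37 / 4) * (41 / 4) * (45 / 4) * (49 / 4) * Real.Gamma (33 / 4) := by
    have := Gamma_shift (33 / 4) (by norm_num) 5
    rw [show (33 / 4 : ℝ) + (5 : ℕ) = 53 / 4 by norm_num] at this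
    rw [this]
    simp only [prod_range_succ, prod_range_zero]
    norm_num
  set g := Real.Gamma (11 / 4) with hgd
  set G := Real.Gamma (33 / 4) with hGd
  set x := (1425 / 10000 : ℝ) ^ (7 / 4 : ℝ) with hx
  set y := (999 / 7000 : ℝ) ^ (7 / 4 : ℝ) with hy
  have hx0 : 0 < x := by positivity
  have hy0 : 0 < y := by positivity
  have hx4 : x ^ 4 = (1425 / 10000 : ℝ) ^ 7 := by
    rw [hx, ← Real.rpow_natCast, ← Real.rpow_mul (by norm_num), ← Real.rpow_natCast]; norm_num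
  have hy4 : y ^ 4 = (999 / 7000 : ℝ) ^ 7 := by
    rw [hy, ← Real.rpow_natCast, ← Real.rpow_mul (by norm_num), ← Real.rpow_natCast]; norm_num
  set p := x / g * (74028 / 10 ^ 10) * (1 - 1 / 10 ^ 6) with hp
  set q := (227 / 10 ^ 4) / G * (1 + 1 / 10 ^ 6) with hq
  set w := (y / g) ^ 7 * (1 + 1 / 10 ^ 6) with hw
  have hp0 : 0 < p := by
    have : (0 : ℝ) < 1 - 1 / 10 ^ 6 := by norm_num
    positivity
  have hq0 : 0 < q := by positivity
  have hw0 : 0 < w := by positivity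
  set s := p ^ 2 / q with hs
  have hs0 : 0 < s := by positivity
  set ν := (s / w) ^ (1 / 6 : ℝ) with hν
  have hν0 : 0 < ν := by positivity
  have hν6 : ν ^ 6 = s / w := by
    rw [hν, ← Real.rpow_natCast, ← Real.rpow_mul (by positivity)]; norm_num
  refine ⟨p, q, w, ν, hp0, hq0, hν0, ?_, ?_, ?_, ?_⟩
  · refine lt_of_lt_of_le ?_ IC7_low
    have : 0 < x / g * (74028 / 10 ^ 10) := by positivity
    show p < x / g * (74028 / 10 ^ 10)
    rw [hp]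
    linarith
  · refine lt_of_le_of_lt IN7_up ?_
    have h1 : N7 / G ≤ (227 / 10 ^ 4) / G := div_le_div_of_nonneg_right N7_up hG.le
    have : 0 < (227 / 10 ^ 4) / G := by positivity
    show N7 / G < q
    rw [hq]
    linarith
  · have : 0 < (y / g) ^ 7 := by positivity
    show (y / g) ^ 7 < w
    rw [hw]
    linarith
  · have e1 : 7 / 6 * ν * (p ^ 2 / q - ν ^ 6 * w / 7) = ν * s := by
      rw [hν6, ← hs]
      field_simp
      ring
    rw [e1, hG53]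
    refine lt_of_pow_lt_pow_left₀ 24 (by positivity) ?_
    have e2 : (ν * s) ^ 24 = s ^ 28 / w ^ 4 := by
      rw [mul_pow, show ν ^ 24 = (ν ^ 6) ^ 4 by ring, hν6]
      field_simp
    have e3 : s ^ 28 / w ^ 4 = (x ^ 4) ^ 14 * (74028 / 10 ^ 10) ^ 56 * (1 - 1 / 10 ^ 6) ^ 56 *
        (G ^ 4) ^ 7 / ((227 / 10 ^ 4) ^ 28 * (g ^ 4) ^ 7 * (y ^ 4) ^ 7 * (1 + 1 / 10 ^ 6) ^ 32) := by
      rw [hs, hp, hq, hw]
      field_simp
    rw [e2, e3, hx4, hy4]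
    have h33 := Gamma33
    have h11 := Gamma11
    have e4 : (32 / (33 / 4 * (37 / 4) * (41 / 4) * (45 / 4) * (49 / 4) * G)) ^ 24 =
        (32 / (33 / 4 * (37 / 4) * (41 / 4) * (45 / 4) * (49 / 4))) ^ 24 / (G ^ 4) ^ 6 := by
      rw [← div_div, div_pow]; congr 1; ring
    rw [e4]
    set a := G ^ 4 with ha
    set b := g ^ 4 with hb
    have ha0 : 0 < a := by positivity
    have hb0 : 0 < b := by positivity
    have h1 : (32 / (33 / 4 * (37 / 4) * (41 / 4) * (45 / 4) * (49 / 4)) : ℝ) ^ 24 / a ^ 6 ≤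
        (32 / (33 / 4 * (37 / 4) * (41 / 4) * (45 / 4) * (49 / 4))) ^ 24 /
          (4892756000000000 : ℝ) ^ 6 := by
      gcongr
    have h2 : ((1425 / 10000 : ℝ) ^ 7) ^ 14 * (74028 / 10 ^ 10) ^ 56 * (1 - 1 / 10 ^ 6) ^ 56 *
        (4892756000000000 : ℝ) ^ 7 / ((227 / 10 ^ 4) ^ 28 * (67336 / 10 ^ 4) ^ 7 *
          ((999 / 7000) ^ 7) ^ 7 * (1 + 1 / 10 ^ 6) ^ 32) ≤
        ((1425 / 10000 : ℝ) ^ 7) ^ 14 * (74028 / 10 ^ 10) ^ 56 * (1 - 1 / 10 ^ 6) ^ 56 *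
        a ^ 7 / ((227 / 10 ^ 4) ^ 28 * b ^ 7 * ((999 / 7000) ^ 7) ^ 7 * (1 + 1 / 10 ^ 6) ^ 32) := by
      have q3 : (0 : ℝ) ≤ 1 - 1 / 10 ^ 6 := by norm_num
      gcongr
    refine lt_of_le_of_lt h1 (lt_of_lt_of_le ?_ h2)
    rw [div_lt_div_iff₀ (by positivity) (by positivity)]
    norm_num

end
end Pool.Agent.Y756.T
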