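import Pool.Agent.Y756.S.Loc7
import Pool.Agent.H99R2.SM_T12
import Pool.Agent.H510R2.Div
import Pool.Agent.TH535.Kar
import Pool.Agent.H306R2.SM.Asm5

set_option autoImplicit false

/-! Sums of error terms. -/

namespace Pool.Agent.Y756.T

open Finset Filter Topology MeasureTheory
open Pool.Agent.H306R2 Pool.Agent.H306R2.SM
open Pool.Agent.H99R2.SMT12 (rankin_bound local_sum log_pow_le pow_rpow_le)
open Pool.Agent.TH535 (posI GdI kar)
open Pool.Agent.TH535.MA (mw LW)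

noncomputable section

lemma lc_three (n : ℕ) : lc 3 n = (n + 1) * (n + 2) / 2 := by
  induction n with
  | zero => simp [lc_zero]
  | succ n ih =>
    have h := lc_diff 2 n
    rw [show (2 : ℝ) + 1 = 3 by norm_num, lc_two, ih] at h
    rw [h]
    push_cast
    ring

lemma lc52_le (n : ℕ) : lc (5 / 2) n ≤ (n + 1) ^ 2 := by
  have h := lc_mono (by norm_num : (0 : ℝ) ≤ 5 / 2) (by norm_num : (5 / 2 : ℝ) ≤ 3) n
  rw [lc_three] at h
  have hn : (0 : ℝ) ≤ n := Nat.cast_nonneg n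
  nlinarith

/-- the local weight -/
def gc (p a : ℕ) : ℝ :=
  lc (5 / 2) a * (1 + (a : ℝ) * (1 - 1 / (p : ℝ))) *
    (1 + (1 + Real.log p) ^ 2 * (if a = 1 then 1 / (p : ℝ) else (a : ℝ) ^ 2)) ^ 2

lemma gc_nonneg (p a : ℕ) : 0 ≤ gc p a := by
  unfold gc
  have h1 := lc_nonneg (by norm_num : (0 : ℝ) ≤ 5 / 2) a
  have h2 : 0 ≤ 1 + (a : ℝ) * (1 - 1 / (p : ℝ)) := by
    have : 1 / (p : ℝ) ≤ 1 := by
      rcases Nat.eq_zero_or_pos p with h | h
      · subst h; simp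
      · rw [div_le_one (by exact_mod_cast h)]; exact_mod_cast h
    have : 0 ≤ 1 - 1 / (p : ℝ) := by linarith
    positivity
  positivity

lemma local_c (p : ℕ) (hp : p.Prime) (s : ℝ) (hs : 0 < s) (_hs1 : s ≤ 1) :
    Summable (fun a : ℕ => gc p (a + 1) * (((p : ℝ) ^ (a + 1)) ^ (-(1 + s)))) ∧
      ∑' a : ℕ, gc p (a + 1) * (((p : ℝ) ^ (a + 1)) ^ (-(1 + s))) ≤
        (5 : ℕ) * (p : ℝ) ^ (-(1 + s)) +
          (6561 * (15 + 4096 + 32 * ∑' n : ℕ, ((n : ℝ) + 3) ^ 7 * (1 / 2) ^ (n + 1))) *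
            (p : ℝ) ^ (-(3 / 2 : ℝ)) := by
  have hp2 : (2 : ℝ) ≤ p := by exact_mod_cast hp.two_le
  have hp0 : (0 : ℝ) < p := by linarith
  have hp1 : 1 ≤ p := hp.one_le
  set L : ℝ := 1 + Real.log p with hL
  have hL1 : 1 ≤ L := by
    rw [hL]
    have := Real.log_nonneg (show (1 : ℝ) ≤ p by linarith)
    linarith
  have hL2 : 1 ≤ L ^ 2 := one_le_pow₀ hL1
  have hL4 : L ^ 2 ≤ L ^ 4 := pow_le_pow_right₀ hL1 (by norm_num)
  have hinv1 : 1 / (p : ℝ) ≤ 1 := by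
    rw [div_le_one hp0]; linarith
  have hinv0 : 0 < 1 / (p : ℝ) := by positivity
  have hX := log_pow_le p hp1
  rw [← hL] at hX
  set X : ℝ := L ^ 4 * ((p : ℝ) ^ 2)⁻¹ with hXdef
  have hX0 : 0 ≤ X := by positivity
  set c : ℕ → ℝ := fun n => ((n : ℝ) + 3) ^ 7 * (1 / 2) ^ (n + 1) with hc
  have hcs : Summable c := by
    have h1 := summable_pow_mul_geometric_of_norm_lt_one 7 (r := (1 / 2 : ℝ))
      (by rw [Real.norm_eq_abs, abs_of_pos (by norm_num)]; norm_num)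
    have h2 := ((summable_nat_add_iff 3).2 h1).mul_left 4
    refine h2.congr ?_
    intro n
    simp only [hc]
    push_cast
    rw [pow_add, pow_add]; ring
  -- general bound
  have hgen : ∀ n : ℕ, gc p (n + 2) * (((p : ℝ) ^ (n + 2)) ^ (-(1 + s))) ≤
      32 * X * (((n : ℝ) + 2) ^ 7 * (1 / 2) ^ n) := by
    intro n
    have hn0 : (0 : ℝ) ≤ n := Nat.cast_nonneg n
    have h1 : gc p (n + 2) ≤ 32 * ((n : ℝ) + 2) ^ 7 * L ^ 4 := by
      unfold gc
      rw [if_neg (by omega), ← hL]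
      have e0 := lc52_le (n + 2)
      push_cast at e0 ⊢
      have e01 : lc (5 / 2) (n + 2) ≤ (2 * ((n : ℝ) + 2)) ^ 2 := by
        refine e0.trans ?_
        apply pow_le_pow_left₀ (by linarith)
        linarith
      have e1 : 1 + ((n : ℝ) + 2) * (1 - 1 / (p : ℝ)) ≤ 2 * ((n : ℝ) + 2) := by
        nlinarith
      have e10 : 0 ≤ 1 + ((n : ℝ) + 2) * (1 - 1 / (p : ℝ)) := by
        have : 0 ≤ ((n : ℝ) + 2) * (1 - 1 / (p : ℝ)) :=
          mul_nonneg (by linarith) (by linarith)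
        linarith
      have e2 : (1 + L ^ 2 * ((n : ℝ) + 2) ^ 2) ^ 2 ≤ (2 * (L ^ 2 * ((n : ℝ) + 2) ^ 2)) ^ 2 := by
        apply pow_le_pow_left₀ (by positivity)
        have : 1 ≤ L ^ 2 * ((n : ℝ) + 2) ^ 2 := by nlinarith
        linarith
      calc _ ≤ (2 * ((n : ℝ) + 2)) ^ 2 * (2 * ((n : ℝ) + 2)) *
            (2 * (L ^ 2 * ((n : ℝ) + 2) ^ 2)) ^ 2 :=
            mul_le_mul (mul_le_mul e01 e1 e10 (by positivity)) e2 (by positivity) (by positivity)
        _ = _ := by ring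
    have h2 : ((p : ℝ) ^ (n + 2)) ^ (-(1 + s)) ≤ ((p : ℝ) ^ 2)⁻¹ * (1 / 2) ^ n := by
      refine (pow_rpow_le p hp1 (n + 2) s hs).trans ?_
      rw [pow_add, mul_inv, mul_comm]
      apply mul_le_mul_of_nonneg_left _ (by positivity)
      rw [one_div, inv_pow]
      apply inv_anti₀ (by positivity)
      exact pow_le_pow_left₀ (by norm_num) hp2 n
    calc _ ≤ (32 * ((n : ℝ) + 2) ^ 7 * L ^ 4) * (((p : ℝ) ^ 2)⁻¹ * (1 / 2) ^ n) :=
          mul_le_mul h1 h2 (by positivity) (by positivity)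
      _ = _ := by rw [hXdef]; ring
  have hmain := local_sum (fun a : ℕ => gc p (a + 1) * (((p : ℝ) ^ (a + 1)) ^ (-(1 + s)))) c
    (32 * X) (5 * (p : ℝ) ^ (-(1 + s)) + 15 * X) (4096 * X)
    (fun n => mul_nonneg (gc_nonneg _ _) (by positivity)) hcs ?_ ?_ ?_
  · refine ⟨hmain.1, hmain.2.trans ?_⟩
    have hcT : 0 ≤ ∑' n, c n := tsum_nonneg fun n => by simp only [hc]; positivity
    have e : 5 * (p : ℝ) ^ (-(1 + s)) + 15 * X + 4096 * X + 32 * X * ∑' n, c n =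
        5 * (p : ℝ) ^ (-(1 + s)) + (15 + 4096 + 32 * ∑' n, c n) * X := by ring
    rw [e]
    have e2 : (15 + 4096 + 32 * ∑' n, c n) * X ≤
        (15 + 4096 + 32 * ∑' n, c n) * (6561 * (p : ℝ) ^ (-(3 / 2 : ℝ))) :=
      mul_le_mul_of_nonneg_left hX (by positivity)
    push_cast
    linarith
  · -- a = 0
    simp only [zero_add, pow_one]
    have hga : gc p 1 ≤ 5 + 15 * L ^ 4 * (1 / (p : ℝ)) := by
      unfold gc
      rw [if_pos rfl, ← hL, lc_one]
      push_cast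
      have e1 : 5 / 2 * (1 + 1 * (1 - 1 / (p : ℝ))) ≤ 5 := by nlinarith
      have e2 : (1 + L ^ 2 * (1 / (p : ℝ))) ^ 2 ≤ 1 + 3 * L ^ 4 * (1 / (p : ℝ)) := by
        have e3 : (1 / (p : ℝ)) ^ 2 ≤ 1 / (p : ℝ) := by nlinarith
        have e4 : L ^ 4 * (1 / (p : ℝ)) ^ 2 ≤ L ^ 4 * (1 / (p : ℝ)) :=
          mul_le_mul_of_nonneg_left e3 (by positivity)
        have e5 : L ^ 2 * (1 / (p : ℝ)) ≤ L ^ 4 * (1 / (p : ℝ)) :=
          mul_le_mul_of_nonneg_right hL4 hinv0.le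
        have e6 : (1 + L ^ 2 * (1 / (p : ℝ))) ^ 2 =
            1 + 2 * (L ^ 2 * (1 / (p : ℝ))) + L ^ 4 * (1 / (p : ℝ)) ^ 2 := by ring
        rw [e6]; linarith
      calc _ ≤ 5 * (1 + 3 * L ^ 4 * (1 / (p : ℝ))) := mul_le_mul e1 e2 (by positivity) (by norm_num)
        _ = _ := by ring
    have hrp : (p : ℝ) ^ (-(1 + s)) ≤ ((p : ℝ))⁻¹ := by
      have := pow_rpow_le p hp1 1 s hs
      simpa using this
    have hrp0 : 0 < (p : ℝ) ^ (-(1 + s)) := by positivity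
    calc gc p 1 * (p : ℝ) ^ (-(1 + s)) ≤ (5 + 15 * L ^ 4 * (1 / (p : ℝ))) * (p : ℝ) ^ (-(1 + s)) :=
          mul_le_mul_of_nonneg_right hga hrp0.le
      _ = 5 * (p : ℝ) ^ (-(1 + s)) + 15 * L ^ 4 * (1 / (p : ℝ)) * (p : ℝ) ^ (-(1 + s)) := by ring
      _ ≤ 5 * (p : ℝ) ^ (-(1 + s)) + 15 * L ^ 4 * (1 / (p : ℝ)) * ((p : ℝ))⁻¹ := by gcongr
      _ = 5 * (p : ℝ) ^ (-(1 + s)) + 15 * X := by rw [hXdef]; field_simp
  · have := hgen 0
    simp only [Nat.cast_zero, zero_add, pow_zero, mul_one] at this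
    calc _ ≤ 32 * X * 2 ^ 7 := this
      _ = 4096 * X := by ring
  · intro n
    have := hgen (n + 1)
    simp only [hc]
    push_cast at this
    rw [show (n : ℝ) + 1 + 2 = n + 3 by ring] at this
    exact this

lemma dv52_prod {h : ℕ} (hh : h ≠ 0) : dv (5 / 2) h * psi h * Em h ^ 2 = h.factorization.prod gc := by
  unfold dv psi Em gc
  rw [if_neg hh]
  unfold Finsupp.prod
  rw [← Finset.prod_pow, ← Finset.prod_mul_distrib, ← Finset.prod_mul_distrib]

theorem sum_dv_psi_Em : ∃ C : ℝ, 0 < C ∧ ∀ x : ℝ, 1 ≤ x →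
    ∑ h ∈ Icc 1 ⌊x⌋₊, dv (5 / 2) h * psi h * Em h ^ 2 / (h : ℝ) ≤ C * (1 + Real.log x) ^ 5 := by
  have hcT : 0 ≤ ∑' n : ℕ, ((n : ℝ) + 3) ^ 7 * (1 / 2) ^ (n + 1) :=
    tsum_nonneg fun n => by positivity
  obtain ⟨C, hC, h⟩ := rankin_bound gc gc_nonneg 5 _ (by positivity) local_c
  refine ⟨C, hC, fun x hx => ?_⟩
  refine le_trans (le_of_eq ?_) (h x hx)
  apply Finset.sum_congr rfl
  intro m hm
  rw [dv52_prod (by have := (mem_Icc.1 hm).1; omega)]

/-! ### the coefficients -/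

lemma rl_le_lc {c x : ℝ} (hc : 1 ≤ c) (h0 : 0 < x) (h1 : x < 1) (α : ℕ) : rl c x α ≤ lc c α := by
  have hx : 0 < 1 - x := by linarith
  have h2 := Sg_le (by linarith : (0:ℝ) ≤ c) le_rfl hc h0 h1 α
  unfold rl
  calc Sg c x α * (1 - x) ^ c ≤ (lc c α * (1 - x) ^ (-c)) * (1 - x) ^ c :=
        mul_le_mul_of_nonneg_right h2 (Real.rpow_nonneg hx.le _)
    _ = lc c α * ((1 - x) ^ (-c) * (1 - x) ^ c) := by ring
    _ = lc c α := by rw [← Real.rpow_add hx]; simp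

lemma rl_add {c x : ℝ} (hc : 1 ≤ c) (h0 : 0 < x) (h1 : x < 1) (α β : ℕ) :
    rl c x (α + β) ≤ rl c x α * lc c β := by
  have hx : 0 < 1 - x := by linarith
  have h2 : Sg c x (α + β) ≤ Sg c x α * lc c β := by
    unfold Sg
    rw [← tsum_mul_right]
    refine (shift_summable h0 h1 (α + β)).tsum_le_tsum (fun m => ?_)
      ((shift_summable h0 h1 α).mul_right _)
    have h3 := sub_mul' hc (α + m) β
    rw [show α + β + m = α + m + β by ring]
    calc lc c (α + m + β) * x ^ m ≤ (lc c (α + m) * lc c β) * x ^ m :=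
          mul_le_mul_of_nonneg_right h3 (by positivity)
      _ = _ := by ring
  unfold rl
  calc Sg c x (α + β) * (1 - x) ^ c ≤ (Sg c x α * lc c β) * (1 - x) ^ c :=
        mul_le_mul_of_nonneg_right h2 (Real.rpow_nonneg hx.le _)
    _ = _ := by ring

lemma rr_le_dv {c : ℝ} (hc : 1 ≤ c) (n : ℕ) : rr c n ≤ dv c n := by
  unfold rr dv
  split_ifs
  · exact le_rfl
  · unfold Finsupp.prod
    refine prod_le_prod (fun p hp => ?_) (fun p hp => ?_)
    · rw [Nat.support_factorization] at hp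
      obtain ⟨h0, h1, -⟩ := prime_lt (Nat.prime_of_mem_primeFactors hp)
      exact rl_nonneg (by linarith) h0.le h1 _
    · rw [Nat.support_factorization] at hp
      obtain ⟨h0, h1, -⟩ := prime_lt (Nat.prime_of_mem_primeFactors hp)
      exact rl_le_lc hc h0 h1 _

lemma rr_mul_le {c : ℝ} (hc : 1 ≤ c) {x y : ℕ} (hx : x ≠ 0) (hy : y ≠ 0) :
    rr c (x * y) ≤ rr c x * dv c y := by
  set P := (x * y).primeFactors with hP
  have hPp : ∀ p ∈ P, p.Prime := fun p hp => Nat.prime_of_mem_primeFactors hp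
  have hxy : x * y ≠ 0 := mul_ne_zero hx hy
  have sx : x.primeFactors ⊆ P := Nat.primeFactors_mono (Nat.dvd_mul_right _ _) hxy
  have sy : y.primeFactors ⊆ P := Nat.primeFactors_mono (Nat.dvd_mul_left _ _) hxy
  rw [rr_eq c hxy hPp (subset_refl _), rr_eq c hx hPp sx, Pool.Agent.TH535.dv_eq c hy sy,
    ← prod_mul_distrib]
  refine prod_le_prod (fun p hp => ?_) (fun p hp => ?_)
  · obtain ⟨h0, h1, -⟩ := prime_lt (hPp p hp)
    exact rl_nonneg (by linarith) h0.le h1 _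
  · obtain ⟨h0, h1, -⟩ := prime_lt (hPp p hp)
    rw [Nat.factorization_mul hx hy, Finsupp.add_apply]
    exact rl_add hc h0 h1 _ _

lemma lc_anti {α : ℝ} (h0 : 0 ≤ α) (h1 : α ≤ 1) (a b : ℕ) : lc α (a + b) ≤ lc α a := by
  induction b with
  | zero => simp
  | succ b ih =>
    rw [← add_assoc, lc_succ]
    have h2 : 0 ≤ lc α (a + b) := lc_nonneg h0 _
    have h3 : (α + ((a + b : ℕ) : ℝ)) / (((a + b : ℕ) : ℝ) + 1) ≤ 1 := by
      rw [div_le_one (by positivity)]; linarith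
    calc _ ≤ lc α (a + b) * 1 := mul_le_mul_of_nonneg_left h3 h2
      _ ≤ _ := by rw [mul_one]; exact ih

lemma dv_anti {α : ℝ} (h0 : 0 ≤ α) (h1 : α ≤ 1) {x y : ℕ} (hx : x ≠ 0) (hy : y ≠ 0) :
    dv α (x * y) ≤ dv α x := by
  set P := (x * y).primeFactors with hP
  have hxy : x * y ≠ 0 := mul_ne_zero hx hy
  have sx : x.primeFactors ⊆ P := Nat.primeFactors_mono (Nat.dvd_mul_right _ _) hxy
  rw [Pool.Agent.TH535.dv_eq α hxy (subset_refl _), Pool.Agent.TH535.dv_eq α hx sx]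
  refine prod_le_prod (fun p hp => lc_nonneg h0 _) (fun p hp => ?_)
  rw [Nat.factorization_mul hx hy, Finsupp.add_apply]
  exact lc_anti h0 h1 _ _

lemma dv52_le (e : ℝ) (he : 0 < e) : ∃ C : ℝ, 0 < C ∧ ∀ n : ℕ, 1 ≤ n →
    dv (5 / 2) n ≤ C * (n : ℝ) ^ e := by
  obtain ⟨C, hC, h⟩ := Pool.Agent.H510R2.divisor_bound (e / 2) (by positivity)
  refine ⟨C ^ 2, by positivity, fun n hn => ?_⟩
  have hn0 : n ≠ 0 := by omega
  have hn' : (0 : ℝ) < n := by exact_mod_cast hn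
  have h1 : dv (5 / 2) n ≤ (n.divisors.card : ℝ) ^ 2 := by
    rw [Pool.Agent.TH535.dv_eq (5 / 2) hn0 (subset_refl _), Nat.card_divisors hn0]
    push_cast
    rw [← prod_pow]
    exact prod_le_prod (fun p hp => lc_nonneg (by norm_num) _) (fun p hp => lc52_le _)
  have h2 : (n.divisors.card : ℝ) ^ 2 ≤ (C * (n : ℝ) ^ (e / 2)) ^ 2 :=
    pow_le_pow_left₀ (Nat.cast_nonneg _) (h n hn) 2
  refine (h1.trans h2).trans (le_of_eq ?_)
  rw [mul_pow, ← Real.rpow_natCast ((n : ℝ) ^ (e / 2)), ← Real.rpow_mul hn'.le]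
  congr 2
  push_cast; ring

lemma hq_mono {x y : ℕ} (hx : x ≠ 0) (hy : y ≠ 0) : hq x ≤ hq (x * y) := by
  have hxy : x * y ≠ 0 := mul_ne_zero hx hy
  have hs : x.factorization.support ⊆ (x * y).factorization.support := by
    rw [Nat.support_factorization, Nat.support_factorization]
    exact Nat.primeFactors_mono (Nat.dvd_mul_right _ _) hxy
  unfold hq Finsupp.prod
  have h1 : ∏ p ∈ x.factorization.support,
      (if 2 ≤ x.factorization p then (p : ℝ) ^ (x.factorization p) else 1) =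
      ∏ p ∈ (x * y).factorization.support,
      (if 2 ≤ x.factorization p then (p : ℝ) ^ (x.factorization p) else 1) := by
    refine prod_subset hs fun p _ hp => ?_
    rw [Finsupp.notMem_support_iff.1 hp, if_neg (by norm_num)]
  rw [h1]
  refine prod_le_prod (fun p hp => ?_) (fun p hp => ?_)
  · split_ifs <;> positivity
  · have hpp : p.Prime := by
      rw [Nat.support_factorization] at hp
      exact Nat.prime_of_mem_primeFactors hp
    have hp1 : (1 : ℝ) ≤ p := by exact_mod_cast hpp.one_lt.le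
    have hle : x.factorization p ≤ (x * y).factorization p := by
      rw [Nat.factorization_mul hx hy, Finsupp.add_apply]
      exact Nat.le_add_right _ _
    by_cases h2 : 2 ≤ x.factorization p
    · have h3 : 2 ≤ (x * y).factorization p := h2.trans hle
      simp only [if_pos h2, if_pos h3]
      exact pow_le_pow_right₀ hp1 hle
    · simp only [if_neg h2]
      split_ifs
      · exact one_le_pow₀ hp1
      · exact le_rfl

/-! ### the sum over the common divisor -/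

/-- local weights in one variable -/
def lam1 (p : ℕ) (v : Fin 1 → ℕ) : ℝ :=
  lc (5 / 2) (v 0) * lc (1 / 2) (v 0) * (1 / (p : ℝ)) ^ (v 0)

theorem lam1_LW : LW ![5 / 4] lam1 := by
  refine (LW_of (A := 5 / 2) (K := 1) _ _ ?_ ?_ ?_ ?_ (by norm_num) (by norm_num) ?_).1
  · intro i; fin_cases i
    show (0 : ℝ) ≤ 5 / 4
    norm_num
  · intro p hp v
    exact mul_nonneg (mul_nonneg (lc_nonneg (by norm_num) _) (lc_nonneg (by norm_num) _))
      (by positivity)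
  · intro p hp
    simp [lam1, lc_zero]
  · refine ⟨0, fun p hp i => ?_⟩
    rw [zero_div]
    refine le_of_eq ?_
    rw [abs_eq_zero, sub_eq_zero]
    fin_cases i
    simp [lam1, lc_one]
    ring
  · intro p hp v
    obtain ⟨h0, h1, h2⟩ := prime_lt hp
    rw [Fin.prod_univ_one, one_mul]
    unfold lam1
    have k1 := lc_mono (by norm_num : (0:ℝ) ≤ 1 / 2) (by norm_num : (1 / 2 : ℝ) ≤ 5 / 2) (v 0)
    have k2 := lc_nonneg (by norm_num : (0:ℝ) ≤ 5 / 2) (v 0)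
    calc _ ≤ lc (5 / 2) (v 0) * lc (5 / 2) (v 0) * (1 / (p : ℝ)) ^ (v 0) := by gcongr
      _ = _ := by ring

lemma mw_lam1 (b : Fin 1 → ℕ) (hb : b 0 ≠ 0) :
    mw lam1 b = dv (5 / 2) (b 0) * dv (1 / 2) (b 0) / (b 0 : ℝ) := by
  unfold mw
  have hall : ∀ i, b i ≠ 0 := by
    intro i; fin_cases i; exact hb
  rw [if_pos hall, Fin.prod_univ_one]
  unfold lam1
  rw [prod_mul_distrib, prod_mul_distrib, ← Pool.Agent.TH535.dv_eq (5 / 2) hb (subset_refl _),
    ← Pool.Agent.TH535.dv_eq (1 / 2) hb (subset_refl _), ← Pool.Agent.TH535.inv_eq hb (subset_refl _)]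
  ring

theorem sum_g : ∃ C : ℝ, 0 < C ∧ ∀ᶠ T : ℝ in atTop,
    ∑ g ∈ Icc 1 ⌊T⌋₊, dv (5 / 2) g * dv (1 / 2) g / (g : ℝ) ≤ C * Real.log T ^ (5 / 4 : ℝ) := by
  have hm : ∀ i, 0 < (![5 / 4] : Fin 1 → ℝ) i := by
    intro i; fin_cases i
    simp
  set φ : (Fin 1 → ℝ) → ℝ := fun u => sc 1 1 (u 0) with hφ
  have hcont : Continuous φ := (sc_cont _ _).comp (by fun_prop)
  have hvan : ∀ u : Fin 1 → ℝ, (∀ i, 0 ≤ u i) → (∃ i, (2 : ℝ) ≤ u i) → φ u = 0 := by
    rintro u hu ⟨i, hi⟩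
    fin_cases i
    exact sc_eq_zero one_pos (by simpa using (show (1:ℝ) + 1 ≤ u 0 by linarith [show (2:ℝ) ≤ u 0 from hi]))
  set A := ∏' p : Nat.Primes, ((1 - 1 / (p : ℝ)) ^ (∑ x, (![5 / 4] : Fin 1 → ℝ) x) *
    ∑' v : Fin 1 → ℕ, lam1 p v) with hA
  have hA0 : 0 ≤ A := by
    have hM := (Pool.Agent.TH535.MB.mw_prod_lim ![5 / 4] lam1 lam1_LW (fun _ => 1)
      (fun _ => one_pos)).1.hasProd
    refine ge_of_tendsto hM (Eventually.of_forall fun s => prod_nonneg fun p _ => ?_)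
    obtain ⟨h0, h1, -⟩ := prime_lt p.2
    exact mul_nonneg (Real.rpow_nonneg (by linarith) _)
      (tsum_nonneg fun v => lam1_LW.nonneg p p.2 v)
  obtain ⟨s1, k1⟩ := kar hm lam1_LW A rfl hA0 φ hcont 2 hvan (by norm_num)
  set Z := A * ∫ u : Fin 1 → ℝ, GdI ![5 / 4] u * φ u with hZ
  have hlt := (Real.tendsto_log_atTop).eventually (k1.eventually_lt_const
    (show Z < |Z| + 1 by linarith [le_abs_self Z]))
  refine ⟨|Z| + 1, by positivity, ?_⟩
  filter_upwards [hlt, eventually_gt_atTop 1] with T h1 hT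
  have hL : 0 < Real.log T := Real.log_pos hT
  have hT0 : 0 < T := by linarith
  rw [Fin.sum_univ_one] at h1
  simp only [Matrix.cons_val_zero] at h1
  rw [div_lt_iff₀ (by positivity)] at h1
  refine le_trans ?_ h1.le
  have h2 : ∑ g ∈ Icc 1 ⌊T⌋₊, dv (5 / 2) g * dv (1 / 2) g / (g : ℝ) =
      ∑ b ∈ (Icc 1 ⌊T⌋₊).image (fun g : ℕ => (![g] : Fin 1 → ℕ)),
        mw lam1 b * φ (posI (Real.log T) b) := by
    rw [sum_image (fun x _ y _ h => by simpa using congrFun h 0)]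
    refine sum_congr rfl fun g hg => ?_
    obtain ⟨g1, g2⟩ := mem_Icc.1 hg
    have g0 : (![g] : Fin 1 → ℕ) 0 ≠ 0 := by simp; omega
    rw [mw_lam1 _ g0]
    have hφ1 : φ (posI (Real.log T) ![g]) = 1 := by
      refine sc_eq_one one_pos ?_
      unfold posI
      simp only [Matrix.cons_val_zero]
      rw [div_le_one hL]
      refine Real.log_le_log (by exact_mod_cast g1) ?_
      exact (Nat.le_floor_iff hT0.le).1 g2
    rw [hφ1, mul_one]
    simp
  rw [h2]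
  refine (s1 _ hL).sum_le_tsum _ fun b _ => ?_
  exact mul_nonneg (Pool.Agent.TH535.mw_nonneg' lam1_LW b) (sc_nonneg _ _ _)

end

end Pool.Agent.Y756.T
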