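import Pool.Agent.Y756.T.Tw2
import Pool.Agent.H306R2.SM.Asm6

set_option autoImplicit false

/-! The twisted third moment of a product of a Dirichlet polynomial and a polynomial with rational
frequencies (adapted from `Pool.Agent.H133R2.EM_T11` and `Pool.Agent.H306R2.SM.Asm6`). -/

namespace Pool.Agent.Y756.T

open Finset Filter Topology MeasureTheory Complex
open Pool.Agent.H306R2 Pool.Agent.H306R2.SM
open Pool.Agent.H223.EM (hp mp kr')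
open Pool.Agent.H133R2.EM11 (Af Cf PG_Af PG_Cf Af_norm Cf_norm)

noncomputable section

/-- admissible twists for the third moment -/
def AdC (ε T : ℝ) (N : ℕ) (b : ℕ × ℕ) : Prop :=
  1 ≤ b.1 ∧ 1 ≤ b.2 ∧ Nat.Coprime b.1 b.2 ∧ b.2 * N ≤ b.1 ∧
    (b.1 : ℝ) ^ (3 / 2 : ℝ) * b.2 * N ≤ T ^ (1 - ε)

lemma AdC.toH {ε T : ℝ} {N : ℕ} {b : ℕ × ℕ} (hb : AdC ε T N b) : AdH ε T N b := by
  obtain ⟨h1, h2, h3, h4, h5⟩ := hb
  refine ⟨h1, h2, h3, le_trans ?_ h5⟩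
  have g1 : (1 : ℝ) ≤ b.1 := by exact_mod_cast h1
  have := Real.self_le_rpow_of_one_le g1 (by norm_num : (1:ℝ) ≤ 3 / 2)
  gcongr

/-- the main term -/
def M3 (Y : ℝ) (h l n : ℕ) : ℝ :=
  Real.sqrt ((mp h l n : ℝ) / hp h n) * (psi (hp h n) / mp h l n *
    (((Real.log (hp h n * Y / mp h l n) - 3 / 2 * Real.log (hp h n)) ^ 2 - 3 / 4 * Qf (hp h n)) / 2))

/-- the error term -/
def Er3 (C : ℝ) (A : ℕ) (e : ℝ) (k : ℕ) (Y : ℝ) (h l n : ℕ) : ℝ :=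
  Real.sqrt ((mp h l n : ℝ) / hp h n) *
    (C * (k : ℝ) ^ A * (hp h n : ℝ) ^ (3 / 2 + e) * hq (hp h n) ^ (1 / 2 : ℝ) / Y +
      C * (psi (hp h n) / mp h l n) * Em (hp h n) ^ 2 * (1 + Real.log k) ^ 2 *
        (1 + |Real.log (hp h n * Y / mp h l n)| + Real.log (hp h n)) +
      C * (k : ℝ) ^ A * (hp h n : ℝ) ^ e * (mp h l n : ℝ) ^ (-(3 / 4) : ℝ) * Y ^ (-(1 / 4) : ℝ))

/-- the asymptotic value of a twist -/
theorem pt3 (e : ℝ) (he : 0 < e) : ∃ C : ℝ, ∃ A : ℕ, 0 < C ∧ ∀ k : ℕ, 1 ≤ k →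
    ∀ Y : ℝ, 1 ≤ Y → ∀ h l n : ℕ, 1 ≤ h → 1 ≤ l → 1 ≤ n → Nat.Coprime h l → l * n ≤ h →
    ‖(Real.sqrt ((mp h l n : ℝ) / hp h n) : ℂ) * (SS k (hp h n) (mp h l n) Y /
        (((k.factorial : ℝ) * Y ^ (k + 1) : ℝ) : ℂ)) - (M3 Y h l n : ℂ)‖ ≤ Er3 C A e k Y h l n := by
  obtain ⟨C1, A1, hC1, hD⟩ := D_bound (1 / 2) le_rfl (by norm_num) kloosterman_weil e he
  obtain ⟨C2, A2, hC2, hM⟩ := M_asymp e he
  refine ⟨C1 + C2, A1 + A2, by positivity, ?_⟩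
  intro k hk Y hY h l n hh hl hn hc hle
  obtain ⟨a1, a2, a3, -⟩ := Pool.Agent.H303R2.EMT10.hp_mp h l n hh hl hc hn
  have a4 : mp h l n ≤ hp h n := by
    have hg : 0 < Nat.gcd h n := Nat.gcd_pos_of_pos_left _ hh
    unfold mp hp
    rw [Nat.le_div_iff_mul_le hg, mul_assoc, Nat.div_mul_cancel (Nat.gcd_dvd_right h n)]
    exact hle
  have hD := hD k hk (hp h n) (mp h l n) a2 a4 a3 Y hY
  have hM := hM k hk (hp h n) (mp h l n) a1 a2 Y hY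
  unfold M3 Er3
  set H := hp h n
  set m := mp h l n
  have H0 : (0 : ℝ) < H := by exact_mod_cast a1
  have m0 : (0 : ℝ) < m := by exact_mod_cast a2
  have k1 : (1 : ℝ) ≤ k := by exact_mod_cast hk
  have Y0 : 0 < Y := by linarith
  have hkf : (0 : ℝ) < (k.factorial : ℝ) := by exact_mod_cast Nat.factorial_pos k
  set F : ℝ := (k.factorial : ℝ) * Y ^ (k + 1) with hF
  have hF0 : 0 < F := by positivity
  set s := Real.sqrt ((m : ℝ) / H) with hs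
  have hs0 : 0 ≤ s := Real.sqrt_nonneg _
  have hmul : ∀ z w : ℂ, (s : ℂ) * z - ((s * w.re : ℝ) : ℂ) = (s : ℂ) * (z - (w.re : ℂ)) := by
    intro z w; push_cast; ring
  set R : ℝ := psi H / m * (((Real.log (H * Y / m) - 3 / 2 * Real.log H) ^ 2 - 3 / 4 * Qf H) / 2)
    with hR
  have e1 : (s : ℂ) * (SS k H m Y / (F : ℂ)) - ((s * R : ℝ) : ℂ) =
      (s : ℂ) * ((SS k H m Y - MM k H m Y) / (F : ℂ) + (MM k H m Y / (F : ℂ) - (R : ℂ))) := by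
    push_cast; ring
  rw [e1, norm_mul, Complex.norm_real, Real.norm_of_nonneg hs0]
  refine mul_le_mul_of_nonneg_left ?_ hs0
  refine (norm_add_le _ _).trans ?_
  have hkA1 : (k : ℝ) ^ A1 ≤ (k : ℝ) ^ (A1 + A2) := pow_le_pow_right₀ k1 (Nat.le_add_right _ _)
  have hkA2 : (k : ℝ) ^ A2 ≤ (k : ℝ) ^ (A1 + A2) := pow_le_pow_right₀ k1 (Nat.le_add_left _ _)
  have hpsi : 0 ≤ psi H / m := div_nonneg (psi_nonneg _) m0.le
  have hlogH : 0 ≤ Real.log H := Real.log_nonneg (by exact_mod_cast a1)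
  have hhq : 0 ≤ hq H ^ (1 / 2 : ℝ) := Real.rpow_nonneg (by linarith [hq_one_le H]) _
  have b1 : ‖(SS k H m Y - MM k H m Y) / (F : ℂ)‖ ≤
      (C1 + C2) * (k : ℝ) ^ (A1 + A2) * (H : ℝ) ^ (3 / 2 + e) * hq H ^ (1 / 2 : ℝ) / Y := by
    rw [norm_div, Complex.norm_real, Real.norm_of_nonneg hF0.le, div_le_div_iff₀ hF0 Y0]
    have e2 : (1 : ℝ) + 1 / 2 + e = 3 / 2 + e := by ring
    have e3 : (1 : ℝ) - 1 / 2 = 1 / 2 := by norm_num
    rw [e2, e3] at hD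
    calc ‖SS k H m Y - MM k H m Y‖ * Y ≤ (C1 * (k : ℝ) ^ A1 * (k.factorial : ℝ) * Y ^ k *
          (H : ℝ) ^ (3 / 2 + e) * hq H ^ (1 / 2 : ℝ)) * Y := mul_le_mul_of_nonneg_right hD Y0.le
      _ = C1 * (k : ℝ) ^ A1 * (H : ℝ) ^ (3 / 2 + e) * hq H ^ (1 / 2 : ℝ) * F := by
          rw [hF, pow_succ]; ring
      _ ≤ (C1 + C2) * (k : ℝ) ^ (A1 + A2) * (H : ℝ) ^ (3 / 2 + e) * hq H ^ (1 / 2 : ℝ) * F := by
          gcongr
          linarith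
  have b2 : ‖MM k H m Y / (F : ℂ) - (R : ℂ)‖ ≤
      (C1 + C2) * (psi H / m) * Em H ^ 2 * (1 + Real.log k) ^ 2 *
        (1 + |Real.log (H * Y / m)| + Real.log H) +
      (C1 + C2) * (k : ℝ) ^ (A1 + A2) * (H : ℝ) ^ e * (m : ℝ) ^ (-(3 / 4) : ℝ) *
        Y ^ (-(1 / 4) : ℝ) := by
    refine hM.trans ?_
    gcongr
    · linarith
    · linarith
  linarith

/-! ### replacement of `X` by the analytic weight -/

lemma D_est3 {T : ℝ} (hT : 1 < T) {k : ℕ} {δ : ℝ} (hδ : 0 < δ)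
    (ha : ∀ t : ℝ, 0 < t → ‖(om k δ t : ℂ) * Xf (cl t) - Gf k δ (cl t)‖ ≤
        T ^ (-(3 / 4) : ℝ) * om k δ t + T ^ (-20 : ℝ) * (1 + t) ^ (-20 : ℝ))
    (u v : ℝ → ℂ) (hu : Continuous u) (hv : PG v) (MU MV : ℝ) (hMU : ∀ t, ‖u t‖ ≤ MU)
    (hMV : ∀ t, ‖v t‖ ≤ MV) :
    IntegrableOn (fun t : ℝ => riemannZeta (cl t) ^ 3 *
      ((om k δ t : ℂ) * Xf (cl t) - Gf k δ (cl t)) * (u t * v t)) (Set.Ioi 0) ∧
    ‖∫ t in Set.Ioi (0 : ℝ), riemannZeta (cl t) ^ 3 *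
      ((om k δ t : ℂ) * Xf (cl t) - Gf k δ (cl t)) * (u t * v t)‖ ≤
      MU * (T ^ (-(3 / 4) : ℝ) * ∫ t in Set.Ioi (0 : ℝ), om k δ t *
        (‖riemannZeta (cl t)‖ ^ 3 * ‖v t‖)) +
        T ^ (-20 : ℝ) * (13824 * MU * MV) := by
  have hT0 : 0 < T := by linarith
  have hMU0 : 0 ≤ MU := (norm_nonneg _).trans (hMU 0)
  have hMV0 : 0 ≤ MV := (norm_nonneg _).trans (hMV 0)
  have hcz : Continuous (fun t => riemannZeta (cl t)) := PG.zeta.1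
  set D : ℝ → ℂ := fun t => riemannZeta (cl t) ^ 3 *
      ((om k δ t : ℂ) * Xf (cl t) - Gf k δ (cl t)) * (u t * v t) with hD
  have hDc : Continuous D := by
    refine ((hcz.pow 3).mul ?_).mul (hu.mul hv.1)
    exact ((continuous_ofReal.comp (om_cont k δ)).mul Xf_continuous).sub (Gf_cont k hδ)
  set g : ℝ → ℝ := fun t => MU * (T ^ (-(3 / 4) : ℝ) * (om k δ t *
    (‖riemannZeta (cl t)‖ ^ 3 * ‖v t‖))) +
    T ^ (-20 : ℝ) * (13824 * MU * MV * (1 + t) ^ (-14 : ℝ)) with hg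
  have i2 : IntegrableOn (fun t => om k δ t * (‖riemannZeta (cl t)‖ ^ 3 * ‖v t‖)) (Set.Ioi 0) := by
    have := Pool.Agent.H284R2.EM.PG.intPow (f := fun t => riemannZeta (cl t) ^ 3 * v t)
      (((PG.zeta.pow 3).mul hv)) k hδ
    refine this.congr (Eventually.of_forall fun t => ?_)
    simp only [norm_mul, norm_pow]
  have q1 : IntegrableOn (fun t : ℝ => MU * (T ^ (-(3 / 4) : ℝ) * (om k δ t *
    (‖riemannZeta (cl t)‖ ^ 3 * ‖v t‖)))) (Set.Ioi 0) := (i2.const_mul _).const_mul _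
  have q2 : IntegrableOn (fun t : ℝ => T ^ (-20 : ℝ) * (13824 * MU * MV * (1 + t) ^ (-14 : ℝ)))
      (Set.Ioi 0) := (tail_int.1.const_mul _).const_mul _
  have ig : IntegrableOn g (Set.Ioi 0) := q1.add q2
  have hDg : ∀ t ∈ Set.Ioi (0:ℝ), ‖D t‖ ≤ g t := by
    intro t ht
    have ht0 : (0:ℝ) < t := ht
    have h1 := ha t ht0
    have hn := om_nonneg k hδ ht0.le
    simp only [hD, hg]
    rw [norm_mul, norm_mul, norm_mul]
    have hz := z3_bound ht0.le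
    have e14 : (1 + t) ^ 6 * (1 + t) ^ (-20 : ℝ) ≤ (1 + t) ^ (-14 : ℝ) := by
      rw [← Real.rpow_natCast, ← Real.rpow_add (by linarith)]
      exact Real.rpow_le_rpow_of_exponent_le (by linarith) (by norm_num)
    calc ‖riemannZeta (cl t) ^ 3‖ * ‖(om k δ t : ℂ) * Xf (cl t) - Gf k δ (cl t)‖ *
          (‖u t‖ * ‖v t‖)
        ≤ ‖riemannZeta (cl t) ^ 3‖ * (T ^ (-(3 / 4) : ℝ) * om k δ t +
            T ^ (-20 : ℝ) * (1 + t) ^ (-20 : ℝ)) * (MU * ‖v t‖) := by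
          gcongr
          exact hMU t
      _ = MU * (T ^ (-(3 / 4) : ℝ) * (om k δ t * (‖riemannZeta (cl t)‖ ^ 3 * ‖v t‖))) +
            T ^ (-20 : ℝ) * (MU * ‖v t‖ * (‖riemannZeta (cl t) ^ 3‖ * (1 + t) ^ (-20 : ℝ))) := by
          rw [norm_pow]
          ring
      _ ≤ MU * (T ^ (-(3 / 4) : ℝ) * (om k δ t * (‖riemannZeta (cl t)‖ ^ 3 * ‖v t‖))) +
            T ^ (-20 : ℝ) * (MU * MV * (13824 * (1 + t) ^ 6 * (1 + t) ^ (-20 : ℝ))) := by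
          gcongr
          exact hMV t
      _ ≤ MU * (T ^ (-(3 / 4) : ℝ) * (om k δ t * (‖riemannZeta (cl t)‖ ^ 3 * ‖v t‖))) +
            T ^ (-20 : ℝ) * (MU * MV * (13824 * (1 + t) ^ (-14 : ℝ))) := by
          have : 13824 * (1 + t) ^ 6 * (1 + t) ^ (-20 : ℝ) ≤ 13824 * (1 + t) ^ (-14 : ℝ) := by
            rw [mul_assoc]
            gcongr
          gcongr
      _ = _ := by ring
  have iD : IntegrableOn D (Set.Ioi 0) :=
    Integrable.mono' ig hDc.aestronglyMeasurable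
      ((ae_restrict_iff' measurableSet_Ioi).mpr (Eventually.of_forall hDg))
  have hDn : ‖∫ t in Set.Ioi (0:ℝ), D t‖ ≤ ∫ t in Set.Ioi (0:ℝ), g t := by
    refine norm_integral_le_of_norm_le ig ?_
    exact (ae_restrict_iff' measurableSet_Ioi).mpr (Eventually.of_forall hDg)
  refine ⟨iD, hDn.trans ?_⟩
  simp only [hg]
  rw [integral_add q1 q2, integral_const_mul, integral_const_mul, integral_const_mul,
    integral_const_mul]
  have h14 := tail_int.2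
  have h3 : T ^ (-20 : ℝ) * (13824 * MU * MV * ∫ t in Set.Ioi (0:ℝ), (1 + t) ^ (-14 : ℝ)) ≤
      T ^ (-20 : ℝ) * (13824 * MU * MV * 1) := by
    gcongr
  linarith

lemma G_int3 {T : ℝ} (hT : 1 < T) {k : ℕ} {δ : ℝ} (hδ : 0 < δ)
    (ha : ∀ t : ℝ, 0 < t → ‖(om k δ t : ℂ) * Xf (cl t) - Gf k δ (cl t)‖ ≤
        T ^ (-(3 / 4) : ℝ) * om k δ t + T ^ (-20 : ℝ) * (1 + t) ^ (-20 : ℝ)) (φ : ℝ) :
    IntegrableOn (fun t : ℝ => riemannZeta (cl t) ^ 3 * Gf k δ (cl t) * ef φ t) (Set.Ioi 0) := by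
  have h1 := (D_est3 hT hδ ha (fun _ => 1) (ef φ) continuous_const (PG.ef φ) 1 1
    (fun t => by simp) (fun t => by rw [ef_norm])).1
  have h2 : IntegrableOn (fun t : ℝ => (om k δ t : ℂ) * (riemannZeta (cl t) ^ 3 * Xf (cl t) *
      ef φ t)) (Set.Ioi 0) := (((PG.zeta.pow 3).mul PG.X).mul (PG.ef φ)).int k hδ
  refine (h2.sub h1).congr (Eventually.of_forall fun t => ?_)
  simp only [Pi.sub_apply]
  ring

lemma G_sum3 {T : ℝ} (hT : 1 < T) {k : ℕ} {δ : ℝ} (hδ : 0 < δ)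
    (ha : ∀ t : ℝ, 0 < t → ‖(om k δ t : ℂ) * Xf (cl t) - Gf k δ (cl t)‖ ≤
        T ^ (-(3 / 4) : ℝ) * om k δ t + T ^ (-20 : ℝ) * (1 + t) ^ (-20 : ℝ)) (N : ℕ) (a : ℕ → ℝ)
    (S : Finset (ℕ × ℕ)) (c : ℕ × ℕ → ℝ) :
    IntegrableOn (fun t : ℝ => riemannZeta (cl t) ^ 3 * Gf k δ (cl t) * (Af N a t * Cf S c t))
      (Set.Ioi 0) ∧
    ∫ t in Set.Ioi (0 : ℝ), riemannZeta (cl t) ^ 3 * Gf k δ (cl t) * (Af N a t * Cf S c t) =
      ∑ b ∈ S, (c b : ℂ) * ∑ n ∈ Icc 1 N, ((a n / Real.sqrt n : ℝ) : ℂ) *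
        ∫ t in Set.Ioi (0 : ℝ), riemannZeta (cl t) ^ 3 * Gf k δ (cl t) *
          ef (Real.log ((b.1 : ℝ) / b.2) + -(Real.log n)) t := by
  have h1 : (fun t : ℝ => riemannZeta (cl t) ^ 3 * Gf k δ (cl t) * (Af N a t * Cf S c t)) =
      fun t : ℝ => ∑ b ∈ S, (c b : ℂ) * ∑ n ∈ Icc 1 N, ((a n / Real.sqrt n : ℝ) : ℂ) *
        (riemannZeta (cl t) ^ 3 * Gf k δ (cl t) *
          ef (Real.log ((b.1 : ℝ) / b.2) + -(Real.log n)) t) := by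
    funext t
    unfold Af Cf
    rw [mul_comm (∑ n ∈ Icc 1 N, _), Finset.sum_mul, Finset.mul_sum]
    refine sum_congr rfl fun b _ => ?_
    rw [Finset.mul_sum, Finset.mul_sum, Finset.mul_sum]
    refine sum_congr rfl fun n _ => ?_
    rw [← ef_mul]
    ring
  have h2 : ∀ b ∈ S, ∀ n ∈ Icc 1 N, IntegrableOn (fun t : ℝ => ((a n / Real.sqrt n : ℝ) : ℂ) *
      (riemannZeta (cl t) ^ 3 * Gf k δ (cl t) *
          ef (Real.log ((b.1 : ℝ) / b.2) + -(Real.log n)) t)) (Set.Ioi 0) :=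
    fun b _ n _ => (G_int3 hT hδ ha _).const_mul _
  have h3 : ∀ b ∈ S, IntegrableOn (fun t : ℝ => (c b : ℂ) * ∑ n ∈ Icc 1 N,
      ((a n / Real.sqrt n : ℝ) : ℂ) * (riemannZeta (cl t) ^ 3 * Gf k δ (cl t) *
          ef (Real.log ((b.1 : ℝ) / b.2) + -(Real.log n)) t)) (Set.Ioi 0) :=
    fun b hb => (integrable_finsetSum _ fun n hn => h2 b hb n hn).const_mul _
  refine ⟨?_, ?_⟩
  · rw [h1]
    exact integrable_finsetSum _ fun b hb => h3 b hb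
  · simp only [h1]
    rw [integral_finsetSum _ h3]
    refine sum_congr rfl fun b hb => ?_
    rw [integral_const_mul, integral_finsetSum _ (h2 b hb)]
    congr 1
    refine sum_congr rfl fun n _ => ?_
    rw [integral_const_mul]

/-- the main sum -/
def Ms3 (Y : ℝ) (N : ℕ) (a : ℕ → ℝ) (S : Finset (ℕ × ℕ)) (c : ℕ × ℕ → ℝ) : ℝ :=
  ∑ b ∈ S, c b * ∑ n ∈ Icc 1 N, a n / Real.sqrt n * M3 Y b.1 b.2 n

/-- the error sum -/
def Es3 (C : ℝ) (A : ℕ) (e : ℝ) (k : ℕ) (Y : ℝ) (N : ℕ) (a : ℕ → ℝ) (S : Finset (ℕ × ℕ))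
    (c : ℕ × ℕ → ℝ) : ℝ :=
  ∑ b ∈ S, |c b| * ∑ n ∈ Icc 1 N, |a n / Real.sqrt n| * Er3 C A e k Y b.1 b.2 n

/-- the twisted third moment -/
theorem tw3 (e : ℝ) (he : 0 < e) : ∃ C : ℝ, ∃ A : ℕ, 0 < C ∧ ∀ ε : ℝ, 0 < ε → ε < 1 →
    ∀ᶠ T : ℝ in atTop, ∀ k : ℕ, kr' T k → ∀ N : ℕ, 1 ≤ N →
    ∀ a : ℕ → ℝ, ∀ S : Finset (ℕ × ℕ), (∀ b ∈ S, AdC ε T N b) → ∀ c : ℕ × ℕ → ℝ,
    ∀ MU : ℝ, ∑ n ∈ Icc 1 N, |a n / Real.sqrt n| ≤ MU → MU ≤ T →
    ‖(∫ t in Set.Ioi (0 : ℝ), (om k (k / T) t : ℂ) * (riemannZeta (cl t) ^ 3 * Xf (cl t)) *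
        Af N a t * Cf S c t) - (Ms3 (Yf k T) N a S c : ℂ)‖ ≤
    MU * (T ^ (-(3 / 4) : ℝ) * ∫ t in Set.Ioi (0 : ℝ), om k (k / T) t *
        (‖riemannZeta (cl t)‖ ^ 3 * ‖Cf S c t‖)) + T ^ (-3 : ℝ) * (1 + ∑ b ∈ S, c b ^ 2) +
      Es3 C A e k (Yf k T) N a S c := by
  obtain ⟨C, A, hC, hpt⟩ := pt3 e he
  refine ⟨C, A, hC, fun ε hε hε1 => ?_⟩
  have evY : ∀ᶠ T : ℝ in atTop, 8 * Real.pi * Real.log T ^ 2 ≤ T ^ (1 : ℝ) := by
    have h := Pool.Agent.H303R2.EMT10.log_bd (2 * Real.pi) 1 1 one_pos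
    filter_upwards [h] with T hT
    rw [pow_one] at hT
    linarith
  filter_upwards [Gf_approx, twist_main, evY,
    eventually_gt_atTop (Real.exp 1), eventually_gt_atTop 13825] with T ha hm hY8 hTe hT600
    k hk N hN a S hS c MU hMU hMUT
  have hT : 1 < T := by linarith
  have hT0 : 0 < T := by linarith
  obtain ⟨hk1, hδ⟩ := kr_pos hTe (show kr T k from hk)
  replace ha := ha k hk.1 hk.2
  replace hm := hm k hk.1 hk.2
  have hk0 : (0 : ℝ) < k := by exact_mod_cast hk1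
  have hY1 : 1 ≤ Yf k T := by
    unfold Yf
    have hpi := Real.pi_pos
    rw [le_div_iff₀ (by positivity), one_mul]
    rw [Real.rpow_one] at hY8
    have := hk.2
    nlinarith
  set Q : ℝ := ∑ b ∈ S, c b ^ 2 with hQ
  have hQ0 : 0 ≤ Q := sum_nonneg fun b _ => sq_nonneg _
  have hMU0 : 0 ≤ MU := le_trans (sum_nonneg fun n _ => abs_nonneg _) hMU
  have hSH : ∀ b ∈ S, AdH ε T N b := fun b hb => (hS b hb).toH
  set MV : ℝ := ∑ b ∈ S, |c b| with hMV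
  have hMV0 : 0 ≤ MV := sum_nonneg fun b _ => abs_nonneg _
  have hMVle : MV ≤ T * (1 + Q) := sum_c hε hT hN S hSH c
  obtain ⟨iD, hD⟩ := D_est3 hT hδ ha (Af N a) (Cf S c) (PG_Af N a).1 (PG_Cf S c) MU MV
    (fun t => (Af_norm N a t).trans hMU) (fun t => Cf_norm S c t)
  obtain ⟨iG, hG⟩ := G_sum3 hT hδ ha N a S c
  -- the splitting
  have hsplit : (∫ t in Set.Ioi (0 : ℝ), (om k (k / T) t : ℂ) *
        (riemannZeta (cl t) ^ 3 * Xf (cl t)) * Af N a t * Cf S c t) =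
      (∫ t in Set.Ioi (0 : ℝ), riemannZeta (cl t) ^ 3 *
      ((om k (k / T) t : ℂ) * Xf (cl t) - Gf k (k / T) (cl t)) * (Af N a t * Cf S c t)) +
      ∫ t in Set.Ioi (0 : ℝ), riemannZeta (cl t) ^ 3 * Gf k (k / T) (cl t) *
        (Af N a t * Cf S c t) := by
    rw [← integral_add iD iG]
    refine integral_congr_ae (Eventually.of_forall fun t => ?_)
    simp only
    ring
  -- the twisted integrals
  have hJ : ∀ b ∈ S, ∀ n ∈ Icc 1 N, ‖(∫ t in Set.Ioi (0 : ℝ), riemannZeta (cl t) ^ 3 *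
      Gf k (k / T) (cl t) * ef (Real.log ((b.1 : ℝ) / b.2) + -(Real.log n)) t) -
      (M3 (Yf k T) b.1 b.2 n : ℂ)‖ ≤ T ^ (-6 : ℝ) + Er3 C A e k (Yf k T) b.1 b.2 n := by
    intro b hb n hn
    obtain ⟨hn1, hn2⟩ := mem_Icc.1 hn
    obtain ⟨q1, q2, q3, q4, q6, q5⟩ := hp_mp' hε hT (hSH b hb) hn1 hn2
    obtain ⟨g1, g2, g3, g4, g5⟩ := hS b hb
    have hln : b.2 * n ≤ b.1 := le_trans (Nat.mul_le_mul_left _ hn2) g4
    have q7 : mp b.1 b.2 n ≤ hp b.1 n := by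
      have hg : 0 < Nat.gcd b.1 n := Nat.gcd_pos_of_pos_left _ g1
      unfold mp hp
      rw [Nat.le_div_iff_mul_le hg, mul_assoc, Nat.div_mul_cancel (Nat.gcd_dvd_right _ n)]
      exact hln
    have h := hm (hp b.1 n) (mp b.1 b.2 n) q2 q7 q3
    rw [q5] at h
    have h2 := hpt k hk1 (Yf k T) hY1 b.1 b.2 n g1 g2 hn1 g3 hln
    have h3 := norm_sub_le_norm_sub_add_norm_sub (∫ t in Set.Ioi (0 : ℝ), riemannZeta (cl t) ^ 3 *
      Gf k (k / T) (cl t) * ef (Real.log ((b.1 : ℝ) / b.2) + -(Real.log n)) t)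
      ((Real.sqrt ((mp b.1 b.2 n : ℝ) / hp b.1 n) : ℂ) * (SS k (hp b.1 n) (mp b.1 b.2 n) (Yf k T) /
        (((k.factorial : ℝ) * Yf k T ^ (k + 1) : ℝ) : ℂ))) (M3 (Yf k T) b.1 b.2 n : ℂ)
    linarith
  have hsum : (∑ b ∈ S, (c b : ℂ) * ∑ n ∈ Icc 1 N, ((a n / Real.sqrt n : ℝ) : ℂ) *
        ∫ t in Set.Ioi (0 : ℝ), riemannZeta (cl t) ^ 3 * Gf k (k / T) (cl t) *
          ef (Real.log ((b.1 : ℝ) / b.2) + -(Real.log n)) t) -
      (Ms3 (Yf k T) N a S c : ℂ) =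
      ∑ b ∈ S, (c b : ℂ) * ∑ n ∈ Icc 1 N, ((a n / Real.sqrt n : ℝ) : ℂ) *
        ((∫ t in Set.Ioi (0 : ℝ), riemannZeta (cl t) ^ 3 * Gf k (k / T) (cl t) *
          ef (Real.log ((b.1 : ℝ) / b.2) + -(Real.log n)) t) - (M3 (Yf k T) b.1 b.2 n : ℂ)) := by
    unfold Ms3
    rw [Complex.ofReal_sum, ← Finset.sum_sub_distrib]
    refine sum_congr rfl fun b _ => ?_
    rw [Complex.ofReal_mul, Complex.ofReal_sum, ← mul_sub, ← Finset.sum_sub_distrib]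
    congr 1
    refine sum_congr rfl fun n _ => ?_
    rw [Complex.ofReal_mul]
    ring
  have hb2 : ‖∑ b ∈ S, (c b : ℂ) * ∑ n ∈ Icc 1 N, ((a n / Real.sqrt n : ℝ) : ℂ) *
        ((∫ t in Set.Ioi (0 : ℝ), riemannZeta (cl t) ^ 3 * Gf k (k / T) (cl t) *
          ef (Real.log ((b.1 : ℝ) / b.2) + -(Real.log n)) t) - (M3 (Yf k T) b.1 b.2 n : ℂ))‖ ≤
      MV * (MU * T ^ (-6 : ℝ)) + Es3 C A e k (Yf k T) N a S c := by
    refine (norm_sum_le _ _).trans ?_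
    rw [hMV, Finset.sum_mul]
    unfold Es3
    rw [← Finset.sum_add_distrib]
    refine sum_le_sum fun b hb => ?_
    rw [norm_mul, Complex.norm_real, Real.norm_eq_abs, ← mul_add]
    refine mul_le_mul_of_nonneg_left ?_ (abs_nonneg _)
    refine (norm_sum_le _ _).trans ?_
    calc ∑ n ∈ Icc 1 N, ‖((a n / Real.sqrt n : ℝ) : ℂ) *
        ((∫ t in Set.Ioi (0 : ℝ), riemannZeta (cl t) ^ 3 * Gf k (k / T) (cl t) *
          ef (Real.log ((b.1 : ℝ) / b.2) + -(Real.log n)) t) - (M3 (Yf k T) b.1 b.2 n : ℂ))‖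
        ≤ ∑ n ∈ Icc 1 N, (|a n / Real.sqrt n| * T ^ (-6 : ℝ) +
            |a n / Real.sqrt n| * Er3 C A e k (Yf k T) b.1 b.2 n) := by
          refine sum_le_sum fun n hn => ?_
          rw [norm_mul, Complex.norm_real, Real.norm_eq_abs, ← mul_add]
          exact mul_le_mul_of_nonneg_left (hJ b hb n hn) (abs_nonneg _)
      _ = (∑ n ∈ Icc 1 N, |a n / Real.sqrt n|) * T ^ (-6 : ℝ) +
            ∑ n ∈ Icc 1 N, |a n / Real.sqrt n| * Er3 C A e k (Yf k T) b.1 b.2 n := by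
          rw [sum_add_distrib, Finset.sum_mul]
      _ ≤ MU * T ^ (-6 : ℝ) + ∑ n ∈ Icc 1 N, |a n / Real.sqrt n| * Er3 C A e k (Yf k T) b.1 b.2 n := by
          gcongr
  -- powers of T
  have f2 : T ^ (-20 : ℝ) * (13824 * MU * MV) ≤ T ^ (-16 : ℝ) * (1 + Q) := by
    calc T ^ (-20 : ℝ) * (13824 * MU * MV) ≤ T ^ (-20 : ℝ) * (T * T * (T * (1 + Q))) := by
          have : (13824 : ℝ) ≤ T := by linarith
          gcongr
      _ = T ^ (-17 : ℝ) * (1 + Q) := by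
          have : T ^ (-17 : ℝ) = T ^ (-20 : ℝ) * (T * T * T) := by
            rw [show T * T * T = T ^ (3 : ℝ) by
              rw [show (3 : ℝ) = ((3 : ℕ) : ℝ) by norm_num, Real.rpow_natCast]; ring]
            rw [← Real.rpow_add hT0]
            norm_num
          rw [this]
          ring
      _ ≤ T ^ (-16 : ℝ) * (1 + Q) := by
          have : T ^ (-17 : ℝ) ≤ T ^ (-16 : ℝ) :=
            Real.rpow_le_rpow_of_exponent_le hT.le (by norm_num)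
          gcongr
  have f3 : MV * (MU * T ^ (-6 : ℝ)) ≤ T ^ (-4 : ℝ) * (1 + Q) := by
    calc MV * (MU * T ^ (-6 : ℝ)) ≤ (T * (1 + Q)) * (T * T ^ (-6 : ℝ)) := by gcongr
      _ = T ^ (-4 : ℝ) * (1 + Q) := by
          have : T ^ (-4 : ℝ) = T ^ (-6 : ℝ) * (T * T) := by
            rw [show T * T = T ^ (2 : ℝ) by
              rw [show (2 : ℝ) = ((2 : ℕ) : ℝ) by norm_num, Real.rpow_natCast]; ring]
            rw [← Real.rpow_add hT0]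
            norm_num
          rw [this]
          ring
  have f4 : T ^ (-16 : ℝ) + T ^ (-4 : ℝ) ≤ T ^ (-3 : ℝ) := by
    have g1 : T ^ (-16 : ℝ) ≤ T ^ (-4 : ℝ) :=
      Real.rpow_le_rpow_of_exponent_le hT.le (by norm_num)
    have g2 : T ^ (-3 : ℝ) = T * T ^ (-4 : ℝ) := by
      nth_rewrite 2 [← Real.rpow_one T]
      rw [← Real.rpow_add hT0]
      norm_num
    have g3 : 0 < T ^ (-4 : ℝ) := by positivity
    rw [g2]
    nlinarith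
  rw [hsplit, hG, add_sub_assoc, hsum]
  refine (norm_add_le _ _).trans ?_
  have f5 : (T ^ (-16 : ℝ) + T ^ (-4 : ℝ)) * (1 + Q) ≤ T ^ (-3 : ℝ) * (1 + Q) :=
    mul_le_mul_of_nonneg_right f4 (by positivity)
  linarith

end

end Pool.Agent.Y756.T
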