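import Pool.Agent.Y756.S.Err1
import Pool.Agent.Y756.S.Fun3
import Pool.Agent.Y756.T.SumS
import Pool.Agent.W184.Coef

set_option autoImplicit false

/-! The error terms of the twisted third moment: pointwise bounds. -/

namespace Pool.Agent.Y756.T

open Finset Filter Topology MeasureTheory
open Pool.Agent.H306R2 Pool.Agent.H306R2.SM
open Pool.Agent.H223.EM (hp mp kr')
open Pool.Agent.H989R2.EM3 (cF cG cG_cF gcd_eq cF_cG)

noncomputable section

/-- admissible weight functions for the third moment -/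
structure FW3 (F : ℝ → ℝ → ℝ) (β ε : ℝ) : Prop where
  cont : Continuous (fun p : ℝ × ℝ => F p.1 p.2)
  nn : ∀ x y : ℝ, 0 ≤ F x y
  le1 : ∀ x y : ℝ, F x y ≤ 1
  z1 : ∀ x y : ℝ, 1 ≤ x + y → F x y = 0
  z2 : ∀ x y : ℝ, x ≤ y + β → F x y = 0
  z3 : ∀ x y : ℝ, 1 - ε - β ≤ 3 / 2 * x + y → F x y = 0

lemma FW3.toFW {F : ℝ → ℝ → ℝ} {β ε : ℝ} (hF : FW3 F β ε) : FW F 1 :=
  ⟨hF.cont, fun x y _ _ => hF.nn x y, hF.z1⟩

open Classical in
/-- the frequencies -/
def S7 (ε β T : ℝ) : Finset (ℕ × ℕ) :=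
  (Icc 1 ⌊T⌋₊ ×ˢ Icc 1 ⌊T⌋₊).filter (fun b => AdC ε T ⌊T ^ β⌋₊ b)

lemma S7_prop {ε β T : ℝ} {b : ℕ × ℕ} (hb : b ∈ S7 ε β T) : AdC ε T ⌊T ^ β⌋₊ b := by
  classical
  unfold S7 at hb
  exact (mem_filter.1 hb).2

lemma S7_le {ε β T : ℝ} {b : ℕ × ℕ} (hb : b ∈ S7 ε β T) :
    b.1 ∈ Icc 1 ⌊T⌋₊ ∧ b.2 ∈ Icc 1 ⌊T⌋₊ := by
  classical
  unfold S7 at hb
  exact mem_product.1 (mem_filter.1 hb).1

lemma F_zero {ε β T : ℝ} (hT : 1 < T) {F : ℝ → ℝ → ℝ} (hF : FW3 F β ε) {h l : ℕ} (hh : 1 ≤ h)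
    (hl : 1 ≤ l) (hc : Nat.Coprime h l) (hn : (h, l) ∉ S7 ε β T) :
    F (Real.log h / Real.log T) (Real.log l / Real.log T) = 0 := by
  classical
  have hT0 : 0 < T := by linarith
  have hL : 0 < Real.log T := Real.log_pos hT
  have h0 : (0 : ℝ) < h := by exact_mod_cast hh
  have l0 : (0 : ℝ) < l := by exact_mod_cast hl
  have h1 : (1 : ℝ) ≤ h := by exact_mod_cast hh
  have l1 : (1 : ℝ) ≤ l := by exact_mod_cast hl
  have x0 : 0 ≤ Real.log h / Real.log T := div_nonneg (Real.log_nonneg h1) hL.le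
  have y0 : 0 ≤ Real.log l / Real.log T := div_nonneg (Real.log_nonneg l1) hL.le
  have hNle : (⌊T ^ β⌋₊ : ℝ) ≤ T ^ β := Nat.floor_le (by positivity)
  by_cases c1 : h ≤ ⌊T⌋₊
  · by_cases c2 : l ≤ ⌊T⌋₊
    · have c3 : ¬ AdC ε T ⌊T ^ β⌋₊ (h, l) := by
        intro h3
        apply hn
        unfold S7
        rw [mem_filter, mem_product, mem_Icc, mem_Icc]
        exact ⟨⟨⟨hh, c1⟩, ⟨hl, c2⟩⟩, h3⟩
      unfold AdC at c3
      by_cases c4 : l * ⌊T ^ β⌋₊ ≤ h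
      · have c5 : ¬ (h : ℝ) ^ (3 / 2 : ℝ) * l * ⌊T ^ β⌋₊ ≤ T ^ (1 - ε) :=
          fun h5 => c3 ⟨hh, hl, hc, c4, h5⟩
        rw [not_le] at c5
        apply hF.z3
        have h6 : T ^ (1 - ε) ≤ (h : ℝ) ^ (3 / 2 : ℝ) * l * T ^ β :=
          c5.le.trans (by gcongr)
        have h7 := Real.log_le_log (by positivity) h6
        rw [Real.log_rpow hT0, Real.log_mul (by positivity) (by positivity),
          Real.log_mul (by positivity) (by positivity), Real.log_rpow h0, Real.log_rpow hT0] at h7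
        have e : 3 / 2 * (Real.log h / Real.log T) + Real.log l / Real.log T =
            (3 / 2 * Real.log h + Real.log l) / Real.log T := by ring
        rw [e, le_div_iff₀ hL]
        linarith
      · push Not at c4
        apply hF.z2
        have h6 : (h : ℝ) ≤ l * T ^ β := by
          have : (h : ℝ) ≤ (l : ℝ) * (⌊T ^ β⌋₊ : ℝ) := by exact_mod_cast c4.le
          exact this.trans (by gcongr)
        have h7 := Real.log_le_log h0 h6
        rw [Real.log_mul (by positivity) (by positivity), Real.log_rpow hT0] at h7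
        rw [div_le_iff₀ hL, add_mul, div_mul_cancel₀ _ hL.ne']
        exact h7
    · apply hF.z1
      rw [Nat.le_floor_iff hT0.le, not_le] at c2
      have : 1 ≤ Real.log l / Real.log T := by
        rw [le_div_iff₀ hL, one_mul]
        exact Real.log_le_log hT0 c2.le
      linarith
  · apply hF.z1
    rw [Nat.le_floor_iff hT0.le, not_le] at c1
    have : 1 ≤ Real.log h / Real.log T := by
      rw [le_div_iff₀ hL, one_mul]
      exact Real.log_le_log hT0 c1.le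
    linarith

lemma log_abs_le {H Y m T : ℝ} (hH : 1 ≤ H) (hHT : H ≤ T) (hY : 1 ≤ Y) (hYT : Y ≤ T) (hm : 1 ≤ m)
    (hmT : m ≤ T) : 1 + |Real.log (H * Y / m)| + Real.log H ≤ 5 * (1 + Real.log T) := by
  have a1 := Real.log_nonneg hH
  have a2 := Real.log_nonneg hY
  have a3 := Real.log_nonneg hm
  have b1 := Real.log_le_log (by linarith) hHT
  have b2 := Real.log_le_log (by linarith) hYT
  have b3 := Real.log_le_log (by linarith) hmT
  rw [Real.log_div (by positivity) (by positivity), Real.log_mul (by positivity) (by positivity)]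
  have : |Real.log H + Real.log Y - Real.log m| ≤ 3 * Real.log T := by
    rw [abs_le]; constructor <;> linarith
  linarith

lemma gcd_eq' {H g n : ℕ} (h : Nat.Coprime H n) : Nat.gcd (H * g) (g * n) = g := by
  rw [mul_comm H g, Nat.gcd_mul_left, h.gcd_eq_one, mul_one]

/-- pointwise bound of the error terms -/
lemma err_pt {F : ℝ → ℝ → ℝ} {β ε : ℝ} (hF : FW3 F β ε) (hε : 0 < ε) {Cd e : ℝ} (he : 0 < e)
    (hCd0 : 0 < Cd) (hCd : ∀ n : ℕ, 1 ≤ n → dv (5 / 2) n ≤ Cd * (n : ℝ) ^ e)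
    {C : ℝ} {A : ℕ} (hC : 0 < C) {T : ℝ} (hT : 1 < T) {k : ℕ} (hk : 1 ≤ k) {Y : ℝ} (hY1 : 1 ≤ Y)
    (hYT : Y ≤ T) {N : ℕ} {H g l n : ℕ} (hH : 1 ≤ H) (hg : 1 ≤ g) (hl : 1 ≤ l) (hn : 1 ≤ n)
    (hc : Nat.Coprime H n) (hS : AdC ε T N (H * g, l)) (hnN : g * n ≤ N) :
    |c5 (3 / 2) F T (H * g, l)| * (|dv (1 / 2) (g * n) / Real.sqrt ((g * n : ℕ) : ℝ)| *
        Er3 C A e k Y (H * g) l (g * n)) ≤
      (Cd * C * (k : ℝ) ^ A / Y * T ^ (2 * e) * T ^ (1 - ε)) *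
        (hq (H * g) ^ (1 / 2 : ℝ) / ((H * g : ℕ) : ℝ) * (1 / (l : ℝ)) * (1 / (N : ℝ))) +
      (5 * C * (1 + Real.log k) ^ 2 * (1 + Real.log T)) *
        ((dv (5 / 2) H * psi H * Em H ^ 2 / (H : ℝ)) * (dv (5 / 2) g * dv (1 / 2) g / (g : ℝ)) *
          ((1 / (l : ℝ)) * (1 / (n : ℝ)))) +
      (Cd * C * (k : ℝ) ^ A * Y ^ (-(1 / 4) : ℝ) * T ^ (2 * e) * (T ^ (1 / 10 : ℝ) *
        (N : ℝ) ^ (3 / 4 : ℝ))) * (1 / ((H * g : ℕ) : ℝ) * (1 / (l : ℝ)) * (1 / ((g * n : ℕ) : ℝ))) := by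
  obtain ⟨hh1, -, hcop, hlN, hreg⟩ := hS
  simp only at hh1 hcop hlN hreg
  have hT0 : 0 < T := by linarith
  have hgn : 1 ≤ g * n := Nat.mul_pos hg hn
  have hN1 : 1 ≤ N := hgn.trans hnN
  have hhp : hp (H * g) (g * n) = H := by
    unfold hp
    rw [gcd_eq' hc, Nat.mul_div_cancel _ hg]
  have hmp : mp (H * g) l (g * n) = l * n := by
    unfold mp
    rw [gcd_eq' hc, Nat.mul_div_cancel_left _ hg]
  -- reals
  set hR : ℝ := ((H * g : ℕ) : ℝ) with hhR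
  set nR : ℝ := ((g * n : ℕ) : ℝ) with hnR
  have H0 : (0 : ℝ) < H := by exact_mod_cast hH
  have g0 : (0 : ℝ) < g := by exact_mod_cast hg
  have l0 : (0 : ℝ) < l := by exact_mod_cast hl
  have n0 : (0 : ℝ) < n := by exact_mod_cast hn
  have N0 : (0 : ℝ) < N := by exact_mod_cast hN1
  have H1 : (1 : ℝ) ≤ H := by exact_mod_cast hH
  have g1 : (1 : ℝ) ≤ g := by exact_mod_cast hg
  have l1 : (1 : ℝ) ≤ l := by exact_mod_cast hl
  have n1 : (1 : ℝ) ≤ n := by exact_mod_cast hn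
  have N1 : (1 : ℝ) ≤ N := by exact_mod_cast hN1
  have hRe : hR = H * g := by rw [hhR]; push_cast; ring
  have nRe : nR = g * n := by rw [hnR]; push_cast; ring
  have hR0 : 0 < hR := by rw [hRe]; positivity
  have nR0 : 0 < nR := by rw [nRe]; positivity
  have hR1 : 1 ≤ hR := by rw [hhR]; exact_mod_cast hh1
  have nRN : nR ≤ N := by rw [hnR]; exact_mod_cast hnN
  have hHh : (H : ℝ) ≤ hR := by rw [hRe]; exact le_mul_of_one_le_right H0.le g1
  have nnR : (n : ℝ) ≤ nR := by rw [nRe]; exact le_mul_of_one_le_left n0.le g1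
  have gnR : (g : ℝ) ≤ nR := by rw [nRe]; exact le_mul_of_one_le_right g0.le n1
  have hlNh : (l : ℝ) * N ≤ hR := by rw [hhR]; exact_mod_cast hlN
  have hTe : T ^ (1 - ε) ≤ T := by
    conv_rhs => rw [← Real.rpow_one T]
    exact Real.rpow_le_rpow_of_exponent_le hT.le (by linarith)
  have hh32 : hR ≤ hR ^ (3 / 2 : ℝ) := Real.self_le_rpow_of_one_le hR1 (by norm_num)
  have hreg' : hR ^ (3 / 2 : ℝ) * l * N ≤ T ^ (1 - ε) := hreg
  have hhT : hR ≤ T := by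
    refine le_trans ?_ (hreg'.trans hTe)
    have h3 : hR ^ (3 / 2 : ℝ) * 1 * 1 ≤ hR ^ (3 / 2 : ℝ) * l * N := by gcongr
    linarith
  have hHT : (H : ℝ) ≤ T := hHh.trans hhT
  have mT : (l : ℝ) * n ≤ T := by
    have : (l : ℝ) * n ≤ l * N := mul_le_mul_of_nonneg_left (nnR.trans nRN) l0.le
    linarith
  have k1 : (1 : ℝ) ≤ k := by exact_mod_cast hk
  have k0 : (0 : ℝ) < k := by linarith
  have Y0 : 0 < Y := by linarith
  have hkA : 0 < (k : ℝ) ^ A := by positivity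
  -- the coefficients
  have hrr0 := rr_nonneg (c := 3 / 2 + 1) (by norm_num) (H * g)
  have e52 : (3 / 2 : ℝ) + 1 = 5 / 2 := by norm_num
  have hrr1 : rr (3 / 2 + 1) (H * g) ≤ Cd * hR ^ e := by
    rw [e52]
    exact (rr_le_dv (by norm_num) _).trans (hCd _ hh1)
  have hrr2 : rr (3 / 2 + 1) (H * g) ≤ dv (5 / 2) H * dv (5 / 2) g := by
    rw [e52]
    refine (rr_mul_le (by norm_num) (by omega) (by omega)).trans ?_
    exact mul_le_mul_of_nonneg_right (rr_le_dv (by norm_num) _) (dv_nonneg (by norm_num) _)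
  set c0 : ℝ := rr (3 / 2 + 1) (H * g) / Real.sqrt (hR * l) with hc0
  have hsq0 : 0 < Real.sqrt (hR * l) := by positivity
  have hc00 : 0 ≤ c0 := div_nonneg hrr0 hsq0.le
  have hcabs : |c5 (3 / 2) F T (H * g, l)| ≤ c0 := by
    unfold c5
    simp only
    rw [← hhR, abs_div, abs_of_pos hsq0, abs_mul, abs_of_nonneg hrr0,
      abs_of_nonneg (hF.nn _ _), hc0]
    gcongr
    have := hF.le1 (Real.log hR / Real.log T) (Real.log l / Real.log T)
    calc _ ≤ rr (3 / 2 + 1) (H * g) * 1 := mul_le_mul_of_nonneg_left this hrr0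
      _ = _ := mul_one _
  have hd0 := dv_nonneg (by norm_num : (0 : ℝ) ≤ 1 / 2) (g * n)
  set a0 : ℝ := dv (1 / 2) (g * n) / Real.sqrt nR with ha0
  have hsn0 : 0 < Real.sqrt nR := by positivity
  have ha00 : 0 ≤ a0 := div_nonneg hd0 hsn0.le
  have haabs : |dv (1 / 2) (g * n) / Real.sqrt ((g * n : ℕ) : ℝ)| = a0 := abs_of_nonneg ha00
  have ha1 : a0 ≤ 1 / Real.sqrt nR := by
    rw [ha0]
    gcongr
    exact Pool.Agent.W184.dv_le_one (by norm_num) (by norm_num) _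
  have hc1 : c0 ≤ Cd * hR ^ e / Real.sqrt (hR * l) := by
    rw [hc0]; gcongr
  rw [haabs]
  unfold Er3
  rw [hhp, hmp]
  have hm : ((l * n : ℕ) : ℝ) = (l : ℝ) * n := by push_cast; ring
  rw [hm]
  set m : ℝ := (l : ℝ) * n with hmdef
  have m0 : 0 < m := by positivity
  have m1 : 1 ≤ m := by rw [hmdef]; exact one_le_mul_of_one_le_of_one_le l1 n1
  have lm : (l : ℝ) ≤ m := by rw [hmdef]; exact le_mul_of_one_le_right l0.le n1
  set s := Real.sqrt (m / H) with hs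
  have hs0 : 0 ≤ s := Real.sqrt_nonneg _
  have hseq : s = Real.sqrt m / Real.sqrt H := Real.sqrt_div m0.le _
  have hpsi := psi_nonneg H
  have hEm : 0 ≤ Em H := le_trans zero_le_one (Em_one_le H)
  have hhq0 : 0 < hq H := by linarith [hq_one_le H]
  have hhq1 : hq H ^ (1 / 2 : ℝ) ≤ hq (H * g) ^ (1 / 2 : ℝ) :=
    Real.rpow_le_rpow hhq0.le (hq_mono (by omega) (by omega)) (by norm_num)
  have hhq2 : 0 ≤ hq (H * g) ^ (1 / 2 : ℝ) :=
    Real.rpow_nonneg (by linarith [hq_one_le (H * g)]) _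
  have hsH : Real.sqrt (H : ℝ) = (H : ℝ) ^ (1 / 2 : ℝ) := Real.sqrt_eq_rpow _
  set P1 := C * (k : ℝ) ^ A * (H : ℝ) ^ (3 / 2 + e) * hq H ^ (1 / 2 : ℝ) / Y with hP1
  set P2 := C * (psi H / m) * Em H ^ 2 * (1 + Real.log k) ^ 2 *
    (1 + |Real.log (H * Y / m)| + Real.log H) with hP2
  set P3 := C * (k : ℝ) ^ A * (H : ℝ) ^ e * m ^ (-(3 / 4) : ℝ) * Y ^ (-(1 / 4) : ℝ) with hP3
  have hP10 : 0 ≤ P1 := by positivity
  have hP30 : 0 ≤ P3 := by positivity
  have hlogk : 0 ≤ Real.log k := Real.log_nonneg k1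
  have hlogH : 0 ≤ Real.log H := Real.log_nonneg H1
  have hP20 : 0 ≤ P2 := by positivity
  have hstart : |c5 (3 / 2) F T (H * g, l)| * (a0 * (s * (P1 + P2 + P3))) ≤
      c0 * (a0 * (s * P1)) + c0 * (a0 * (s * P2)) + c0 * (a0 * (s * P3)) := by
    calc _ ≤ c0 * (a0 * (s * (P1 + P2 + P3))) :=
          mul_le_mul_of_nonneg_right hcabs (by positivity)
      _ = _ := by ring
  refine hstart.trans ?_
  have hpe : hR ^ e * hR ^ e ≤ T ^ (2 * e) := by
    rw [← Real.rpow_add hR0, ← two_mul]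
    exact Real.rpow_le_rpow hR0.le hhT (by positivity)
  have hHe : (H : ℝ) ^ e ≤ hR ^ e := Real.rpow_le_rpow H0.le hHh he.le
  have sqh : Real.sqrt hR * Real.sqrt hR = hR := Real.mul_self_sqrt hR0.le
  have sql : Real.sqrt (l : ℝ) * Real.sqrt l = l := Real.mul_self_sqrt l0.le
  have sqn : Real.sqrt nR * Real.sqrt nR = nR := Real.mul_self_sqrt nR0.le
  have sqh0 : 0 < Real.sqrt hR := by positivity
  have sql0 : 0 < Real.sqrt (l : ℝ) := by positivity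
  have sqH0 : 0 < Real.sqrt (H : ℝ) := by positivity
  have hsqhl : Real.sqrt (hR * l) = Real.sqrt hR * Real.sqrt l := Real.sqrt_mul hR0.le _
  -- first term
  have t1 : c0 * (a0 * (s * P1)) ≤ (Cd * C * (k : ℝ) ^ A / Y * T ^ (2 * e) * T ^ (1 - ε)) *
        (hq (H * g) ^ (1 / 2 : ℝ) / hR * (1 / (l : ℝ)) * (1 / (N : ℝ))) := by
    have b1 : s * (H : ℝ) ^ (3 / 2 + e) ≤ Real.sqrt l * Real.sqrt nR * (hR * hR ^ e) := by
      have e1 : (H : ℝ) ^ (3 / 2 + e) = Real.sqrt H * (H * (H : ℝ) ^ e) := by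
        rw [show (3 / 2 + e : ℝ) = 1 / 2 + (1 + e) by ring, Real.rpow_add H0, Real.rpow_add H0,
          Real.rpow_one, hsH]
      rw [e1, hseq]
      have e2 : Real.sqrt m / Real.sqrt H * (Real.sqrt H * (H * (H : ℝ) ^ e)) =
          Real.sqrt m * (H * (H : ℝ) ^ e) := by
        field_simp
      rw [e2]
      have e3 : Real.sqrt m ≤ Real.sqrt l * Real.sqrt nR := by
        rw [← Real.sqrt_mul l0.le]
        apply Real.sqrt_le_sqrt
        rw [hmdef]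
        exact mul_le_mul_of_nonneg_left nnR l0.le
      gcongr
    have b2 : hR ^ (3 / 2 : ℝ) = Real.sqrt hR * hR := by
      rw [show (3 / 2 : ℝ) = 1 / 2 + 1 by norm_num, Real.rpow_add hR0, Real.rpow_one,
        Real.sqrt_eq_rpow]
    have b3 : Real.sqrt hR * hR ≤ T ^ (1 - ε) * (1 / (l : ℝ)) * (1 / (N : ℝ)) := by
      rw [← b2, mul_one_div, mul_one_div, div_div, le_div_iff₀ (by positivity), ← mul_assoc]
      exact hreg'
    calc c0 * (a0 * (s * P1)) = (c0 * a0) * (C * (k : ℝ) ^ A / Y) * (hq H ^ (1 / 2 : ℝ)) *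
          (s * (H : ℝ) ^ (3 / 2 + e)) := by rw [hP1]; ring
      _ ≤ ((Cd * hR ^ e / Real.sqrt (hR * l)) * (1 / Real.sqrt nR)) * (C * (k : ℝ) ^ A / Y) *
          (hq (H * g) ^ (1 / 2 : ℝ)) * (Real.sqrt l * Real.sqrt nR * (hR * hR ^ e)) := by
          gcongr
      _ = Cd * C * (k : ℝ) ^ A / Y * (hR ^ e * hR ^ e) * (hq (H * g) ^ (1 / 2 : ℝ)) *
          (hR / Real.sqrt hR) := by
          rw [hsqhl]; field_simp
      _ = Cd * C * (k : ℝ) ^ A / Y * (hR ^ e * hR ^ e) * (hq (H * g) ^ (1 / 2 : ℝ)) *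
          ((Real.sqrt hR * hR) / hR) := by
          congr 1
          rw [div_eq_div_iff sqh0.ne' hR0.ne']
          calc hR * hR = (Real.sqrt hR * Real.sqrt hR) * hR := by rw [sqh]
            _ = _ := by ring
      _ ≤ Cd * C * (k : ℝ) ^ A / Y * T ^ (2 * e) * (hq (H * g) ^ (1 / 2 : ℝ)) *
          ((T ^ (1 - ε) * (1 / (l : ℝ)) * (1 / (N : ℝ))) / hR) := by
          gcongr
      _ = _ := by ring
  -- second term
  have t2 : c0 * (a0 * (s * P2)) ≤ (5 * C * (1 + Real.log k) ^ 2 * (1 + Real.log T)) *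
        ((dv (5 / 2) H * psi H * Em H ^ 2 / (H : ℝ)) * (dv (5 / 2) g * dv (1 / 2) g / (g : ℝ)) *
          ((1 / (l : ℝ)) * (1 / (n : ℝ)))) := by
    have b1 := log_abs_le H1 hHT hY1 hYT m1 mT
    have b2 : Real.sqrt (hR * l) * Real.sqrt nR * Real.sqrt (m * H) = (H : ℝ) * g * l * n := by
      rw [← Real.sqrt_mul (by positivity), ← Real.sqrt_mul (by positivity), hRe, nRe, hmdef,
        show (H : ℝ) * g * l * (g * n) * (l * n * H) = ((H : ℝ) * g * l * n) ^ 2 by ring,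
        Real.sqrt_sq (by positivity)]
    have b3 : s / m = 1 / Real.sqrt (m * H) := by
      rw [hseq, Real.sqrt_mul m0.le]
      have : Real.sqrt m * Real.sqrt m = m := Real.mul_self_sqrt m0.le
      have h5 : 0 < Real.sqrt m := by positivity
      rw [div_div, div_eq_div_iff (by positivity) (by positivity), one_mul, ← mul_assoc, this,
        mul_comm]
    have b4 : c0 * a0 * (s / m) = rr (3 / 2 + 1) (H * g) * dv (1 / 2) (g * n) /
        ((H : ℝ) * g * l * n) := by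
      rw [b3, hc0, ha0, ← b2]
      have : 0 < Real.sqrt (m * H) := by positivity
      field_simp
    have b5 : dv (1 / 2) (g * n) ≤ dv (1 / 2) g :=
      dv_anti (by norm_num) (by norm_num) (by omega) (by omega)
    have d1 := dv_nonneg (by norm_num : (0 : ℝ) ≤ 5 / 2) H
    have d2 := dv_nonneg (by norm_num : (0 : ℝ) ≤ 5 / 2) g
    have d3' := dv_nonneg (by norm_num : (0 : ℝ) ≤ 1 / 2) g
    calc c0 * (a0 * (s * P2)) = (c0 * a0 * (s / m)) * (C * psi H * Em H ^ 2 *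
          (1 + Real.log k) ^ 2) * (1 + |Real.log (H * Y / m)| + Real.log H) := by
          rw [hP2]; ring
      _ ≤ (dv (5 / 2) H * dv (5 / 2) g * dv (1 / 2) g / ((H : ℝ) * g * l * n)) *
          (C * psi H * Em H ^ 2 * (1 + Real.log k) ^ 2) * (5 * (1 + Real.log T)) := by
          rw [b4]
          gcongr
      _ = _ := by
          field_simp
  -- third term
  have t3 : c0 * (a0 * (s * P3)) ≤ (Cd * C * (k : ℝ) ^ A * Y ^ (-(1 / 4) : ℝ) * T ^ (2 * e) *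
      (T ^ (1 / 10 : ℝ) * (N : ℝ) ^ (3 / 4 : ℝ))) * (1 / hR * (1 / (l : ℝ)) * (1 / nR)) := by
    have b1 : s * m ^ (-(3 / 4) : ℝ) ≤ (l : ℝ) ^ (-(1 / 4) : ℝ) * (Real.sqrt N / Real.sqrt hR) := by
      have e1 : s * m ^ (-(3 / 4) : ℝ) = m ^ (-(1 / 4) : ℝ) * (1 / Real.sqrt H) := by
        rw [hseq, Real.sqrt_eq_rpow m]
        have : m ^ (1 / 2 : ℝ) * m ^ (-(3 / 4) : ℝ) = m ^ (-(1 / 4) : ℝ) := by
          rw [← Real.rpow_add m0]; norm_num
        rw [← this]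
        ring
      rw [e1]
      have e2 : m ^ (-(1 / 4) : ℝ) ≤ (l : ℝ) ^ (-(1 / 4) : ℝ) := by
        exact Real.rpow_le_rpow_of_nonpos l0 lm (by norm_num)
      have e3 : 1 / Real.sqrt H ≤ Real.sqrt N / Real.sqrt hR := by
        rw [div_le_div_iff₀ sqH0 sqh0, one_mul, ← Real.sqrt_mul N0.le]
        apply Real.sqrt_le_sqrt
        rw [hRe, mul_comm]
        exact mul_le_mul_of_nonneg_right (gnR.trans nRN) H0.le
      have : 0 ≤ m ^ (-(1 / 4) : ℝ) := by positivity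
      gcongr
    have b2 : (l : ℝ) ^ (-(1 / 4) : ℝ) / Real.sqrt l = (l : ℝ) ^ (1 / 4 : ℝ) * (1 / l) := by
      rw [Real.sqrt_eq_rpow, ← Real.rpow_sub l0, one_div (l : ℝ), ← Real.rpow_neg_one (l : ℝ),
        ← Real.rpow_add l0]
      norm_num
    have b3 : 1 / Real.sqrt nR ≤ Real.sqrt N * (1 / nR) := by
      have : Real.sqrt nR ≤ Real.sqrt N := Real.sqrt_le_sqrt nRN
      rw [mul_one_div, div_le_div_iff₀ hsn0 nR0, one_mul]
      calc nR = Real.sqrt nR * Real.sqrt nR := sqn.symm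
        _ ≤ _ := by gcongr
    have b4 : (l : ℝ) ^ (1 / 4 : ℝ) * N ≤ T ^ (1 / 10 : ℝ) * (N : ℝ) ^ (3 / 4 : ℝ) := by
      have e1 : ((l : ℝ) * N) ^ (5 / 2 : ℝ) ≤ T := by
        refine le_trans ?_ (hreg'.trans hTe)
        rw [show (5 / 2 : ℝ) = 3 / 2 + 1 by norm_num, Real.rpow_add (by positivity), Real.rpow_one]
        have : ((l : ℝ) * N) ^ (3 / 2 : ℝ) ≤ hR ^ (3 / 2 : ℝ) :=
          Real.rpow_le_rpow (by positivity) hlNh (by norm_num)
        calc ((l : ℝ) * N) ^ (3 / 2 : ℝ) * (l * N) ≤ hR ^ (3 / 2 : ℝ) * (l * N) := by gcongr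
          _ = _ := by ring
      have e2 : ((l : ℝ) * N) ^ (1 / 4 : ℝ) ≤ T ^ (1 / 10 : ℝ) := by
        have := Real.rpow_le_rpow (by positivity) e1 (by norm_num : (0 : ℝ) ≤ 1 / 10)
        rwa [← Real.rpow_mul (by positivity), show (5 / 2 * (1 / 10) : ℝ) = 1 / 4 by norm_num] at this
      have e3 : (l : ℝ) ^ (1 / 4 : ℝ) * N = ((l : ℝ) * N) ^ (1 / 4 : ℝ) * (N : ℝ) ^ (3 / 4 : ℝ) := by
        rw [Real.mul_rpow l0.le N0.le, mul_assoc, ← Real.rpow_add N0]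
        norm_num
      rw [e3]
      gcongr
    have sqN : Real.sqrt (N : ℝ) * Real.sqrt N = N := Real.mul_self_sqrt N0.le
    calc c0 * (a0 * (s * P3)) = (c0 * a0) * (C * (k : ℝ) ^ A * Y ^ (-(1 / 4) : ℝ)) * (H : ℝ) ^ e *
          (s * m ^ (-(3 / 4) : ℝ)) := by rw [hP3]; ring
      _ ≤ ((Cd * hR ^ e / Real.sqrt (hR * l)) * (Real.sqrt N * (1 / nR))) *
          (C * (k : ℝ) ^ A * Y ^ (-(1 / 4) : ℝ)) * hR ^ e *
          ((l : ℝ) ^ (-(1 / 4) : ℝ) * (Real.sqrt N / Real.sqrt hR)) := by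
          have ha2 := ha1.trans b3
          gcongr
      _ = (Cd * C * (k : ℝ) ^ A * Y ^ (-(1 / 4) : ℝ)) * (hR ^ e * hR ^ e) *
          (1 / (Real.sqrt hR * Real.sqrt hR)) * ((l : ℝ) ^ (-(1 / 4) : ℝ) / Real.sqrt l) *
          (Real.sqrt N * Real.sqrt N) * (1 / nR) := by
          rw [hsqhl]; field_simp
      _ = (Cd * C * (k : ℝ) ^ A * Y ^ (-(1 / 4) : ℝ)) * (hR ^ e * hR ^ e) *
          ((l : ℝ) ^ (1 / 4 : ℝ) * N) * (1 / hR * (1 / (l : ℝ)) * (1 / nR)) := by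
          rw [sqh, sqN, b2]; ring
      _ ≤ (Cd * C * (k : ℝ) ^ A * Y ^ (-(1 / 4) : ℝ)) * T ^ (2 * e) *
          (T ^ (1 / 10 : ℝ) * (N : ℝ) ^ (3 / 4 : ℝ)) * (1 / hR * (1 / (l : ℝ)) * (1 / nR)) := by
          gcongr
      _ = _ := by ring
  linarith

end

end Pool.Agent.Y756.T
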