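import Pool.Agent.Y756.S.Err2
import Pool.Agent.Y756.T.Fin5

set_option autoImplicit false

/-! The error terms of the twisted third moment: summation. -/

namespace Pool.Agent.Y756.T

open Finset Filter Topology MeasureTheory
open Pool.Agent.H306R2 Pool.Agent.H306R2.SM
open Pool.Agent.H223.EM (hp mp kr')
open Pool.Agent.H989R2.EM3 (cF cG cG_cF gcd_eq cF_cG)

noncomputable section

lemma harm_le {T : ℝ} (hT : 1 ≤ T) : ∑ n ∈ Icc 1 ⌊T⌋₊, (1 : ℝ) / (n : ℝ) ≤ 1 + Real.log T := by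
  have h := harmonic_floor_le_one_add_log T hT
  have e : ((harmonic ⌊T⌋₊ : ℚ) : ℝ) = ∑ n ∈ Icc 1 ⌊T⌋₊, (1 : ℝ) / (n : ℝ) := by
    rw [harmonic_eq_sum_Icc]
    push_cast
    exact sum_congr rfl fun n _ => by rw [one_div]
  rw [← e]
  exact h

/-- the sum over pairs of triples -/
lemma es3_sum {F : ℝ → ℝ → ℝ} {β ε : ℝ} (hF : FW3 F β ε) (hε : 0 < ε) {Cd e : ℝ}
    (he : 0 < e) (hCd0 : 0 < Cd) (hCd : ∀ n : ℕ, 1 ≤ n → dv (5 / 2) n ≤ Cd * (n : ℝ) ^ e)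
    {C : ℝ} {A : ℕ} (hC : 0 < C) {T : ℝ} (hT : 1 < T) {k : ℕ} (hk : 1 ≤ k) {Y : ℝ} (hY1 : 1 ≤ Y)
    (hYT : Y ≤ T) (hβ : 0 < β) (hβ1 : β ≤ 1) :
    Es3 C A e k Y ⌊T ^ β⌋₊ (dv (1 / 2)) (S7 ε β T) (c5 (3 / 2) F T) ≤
      (Cd * C * (k : ℝ) ^ A / Y * T ^ (2 * e) * T ^ (1 - ε)) *
        ((∑ h ∈ Icc 1 ⌊T⌋₊, hq h ^ (1 / 2 : ℝ) / (h : ℝ)) * (1 + Real.log T)) +
      (5 * C * (1 + Real.log k) ^ 2 * (1 + Real.log T)) *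
        (((∑ h ∈ Icc 1 ⌊T⌋₊, dv (5 / 2) h * psi h * Em h ^ 2 / (h : ℝ)) *
          (∑ g ∈ Icc 1 ⌊T⌋₊, dv (5 / 2) g * dv (1 / 2) g / (g : ℝ))) * (1 + Real.log T) ^ 2) +
      (Cd * C * (k : ℝ) ^ A * Y ^ (-(1 / 4) : ℝ) * T ^ (2 * e) * (T ^ (1 / 10 : ℝ) *
        (T ^ β) ^ (3 / 4 : ℝ))) * (1 + Real.log T) ^ 3 := by
  classical
  have hT0 : 0 < T := by linarith
  have hTb : 1 ≤ T ^ β := Real.one_le_rpow hT.le hβ.le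
  have hTbT : T ^ β ≤ T := by
    conv_rhs => rw [← Real.rpow_one T]
    exact Real.rpow_le_rpow_of_exponent_le hT.le hβ1
  set N := ⌊T ^ β⌋₊ with hN
  have hN1 : 1 ≤ N := Nat.le_floor (by simpa using hTb)
  have hNle : (N : ℝ) ≤ T ^ β := Nat.floor_le (by positivity)
  have hNT : N ≤ ⌊T⌋₊ := Nat.floor_le_floor hTbT
  have N0 : (0 : ℝ) < N := by exact_mod_cast hN1
  have hL : 0 < Real.log T := Real.log_pos hT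
  have k0 : (0 : ℝ) < k := by exact_mod_cast hk
  have Y0 : 0 < Y := by linarith
  set S := S7 ε β T with hS
  set G1 := Cd * C * (k : ℝ) ^ A / Y * T ^ (2 * e) * T ^ (1 - ε) with hG1
  set G2 := 5 * C * (1 + Real.log k) ^ 2 * (1 + Real.log T) with hG2
  set G3 := Cd * C * (k : ℝ) ^ A * Y ^ (-(1 / 4) : ℝ) * T ^ (2 * e) * (T ^ (1 / 10 : ℝ) *
        (T ^ β) ^ (3 / 4 : ℝ)) with hG3
  have hG10 : 0 ≤ G1 := by positivity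
  have hG20 : 0 ≤ G2 := by positivity
  have hG30 : 0 ≤ G3 := by positivity
  set g1 : (ℕ × ℕ) × ℕ → ℝ := fun p => hq p.1.1 ^ (1 / 2 : ℝ) / (p.1.1 : ℝ) * (1 / (p.1.2 : ℝ)) *
    (1 / (N : ℝ)) with hg1
  set W1 : ℕ → ℝ := fun h => dv (5 / 2) h * psi h * Em h ^ 2 / (h : ℝ) with hW1
  set W2 : ℕ → ℝ := fun g => dv (5 / 2) g * dv (1 / 2) g / (g : ℝ) with hW2
  set g2 : (ℕ × ℕ) × (ℕ × ℕ) → ℝ := fun q => (W1 q.1.1 * W2 q.1.2) *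
    ((1 / (q.2.1 : ℝ)) * (1 / (q.2.2 : ℝ))) with hg2
  set ψ : (ℕ × ℕ) × ℕ → (ℕ × ℕ) × (ℕ × ℕ) := fun p => ((cF p 0, cF p 1), (cF p 2, cF p 3)) with hψ
  set g3 : (ℕ × ℕ) × ℕ → ℝ := fun p => 1 / (p.1.1 : ℝ) * (1 / (p.1.2 : ℝ)) * (1 / (p.2 : ℝ)) with hg3
  have hW1n : ∀ h, 0 ≤ W1 h := fun h => by
    have h1 := dv_nonneg (by norm_num : (0 : ℝ) ≤ 5 / 2) h
    have h2 := psi_nonneg h
    simp only [hW1]; positivity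
  have hW2n : ∀ h, 0 ≤ W2 h := fun h => by
    have h1 := dv_nonneg (by norm_num : (0 : ℝ) ≤ 5 / 2) h
    have h2 := dv_nonneg (by norm_num : (0 : ℝ) ≤ 1 / 2) h
    simp only [hW2]; positivity
  have hg2n : ∀ q, 0 ≤ g2 q := fun q =>
    mul_nonneg (mul_nonneg (hW1n _) (hW2n _)) (by positivity)
  -- membership
  have hmem : ∀ p ∈ S ×ˢ Icc 1 N, 1 ≤ cF p 0 ∧ 1 ≤ cF p 1 ∧ 1 ≤ cF p 2 ∧ 1 ≤ cF p 3 ∧
      Nat.Coprime (cF p 0) (cF p 3) ∧ cF p 0 ≤ ⌊T⌋₊ ∧ cF p 1 ≤ ⌊T⌋₊ ∧ cF p 2 ≤ ⌊T⌋₊ ∧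
      cF p 3 ≤ ⌊T⌋₊ := by
    rintro ⟨⟨h, l⟩, n⟩ hp
    rw [mem_product, mem_Icc] at hp
    obtain ⟨hb, hn1, hn2⟩ := hp
    obtain ⟨hh, hl, hcop, -, -⟩ := S7_prop hb
    obtain ⟨hh2, hl2⟩ := S7_le hb
    rw [mem_Icc] at hh2 hl2
    simp only at hh hl hcop hn1 hn2 hh2 hl2
    have hg : 0 < Nat.gcd h n := Nat.gcd_pos_of_pos_left _ hh
    have q0 : cF ((h, l), n) 0 = h / Nat.gcd h n := rfl
    have q1 : cF ((h, l), n) 1 = Nat.gcd h n := rfl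
    have q2 : cF ((h, l), n) 2 = l := rfl
    have q3 : cF ((h, l), n) 3 = n / Nat.gcd h n := rfl
    rw [q0, q1, q2, q3]
    refine ⟨Nat.div_pos (Nat.le_of_dvd hh (Nat.gcd_dvd_left h n)) hg, hg, hl,
      Nat.div_pos (Nat.le_of_dvd hn1 (Nat.gcd_dvd_right h n)) hg,
      Nat.coprime_div_gcd_div_gcd hg, (Nat.div_le_self _ _).trans hh2.2,
      (Nat.le_of_dvd hh (Nat.gcd_dvd_left h n)).trans hh2.2, hl2.2,
      (Nat.div_le_self _ _).trans (hn2.trans hNT)⟩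
  -- pointwise
  have hpt : ∀ p ∈ S ×ˢ Icc 1 N, |c5 (3 / 2) F T p.1| * (|dv (1 / 2) p.2 / Real.sqrt p.2| *
      Er3 C A e k Y p.1.1 p.1.2 p.2) ≤ G1 * g1 p + G2 * g2 (ψ p) + G3 * g3 p := by
    intro p hp
    obtain ⟨m0, m1, m2, m3, mc, -⟩ := hmem p hp
    rw [mem_product, mem_Icc] at hp
    have hadc := S7_prop hp.1
    have hcg := cG_cF p
    set b := cF p with hb
    have e1 : p.1 = (b 0 * b 1, b 2) := by rw [← hcg]; rfl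
    have e2 : p.2 = b 1 * b 3 := by rw [← hcg]; rfl
    rw [e1] at hadc
    have hn : b 1 * b 3 ≤ N := by rw [← e2]; exact hp.2.2
    have h := err_pt hF hε he hCd0 hCd (A := A) hC hT hk hY1 hYT m0 m1 m2 m3 mc hadc hn
    have e3 : |c5 (3 / 2) F T p.1| * (|dv (1 / 2) p.2 / Real.sqrt p.2| *
        Er3 C A e k Y p.1.1 p.1.2 p.2) = |c5 (3 / 2) F T (b 0 * b 1, b 2)| *
        (|dv (1 / 2) (b 1 * b 3) / Real.sqrt ((b 1 * b 3 : ℕ) : ℝ)| *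
        Er3 C A e k Y (b 0 * b 1) (b 2) (b 1 * b 3)) := by rw [e1, e2]
    rw [e3]
    refine h.trans ?_
    have e4 : g1 p = hq (b 0 * b 1) ^ (1 / 2 : ℝ) / ((b 0 * b 1 : ℕ) : ℝ) * (1 / (b 2 : ℝ)) *
        (1 / (N : ℝ)) := by simp only [hg1, e1]
    have e5 : g3 p = 1 / ((b 0 * b 1 : ℕ) : ℝ) * (1 / (b 2 : ℝ)) * (1 / ((b 1 * b 3 : ℕ) : ℝ)) := by
      simp only [hg3, e1, e2]
    rw [e4, e5]
    have hg30 : 0 ≤ 1 / ((b 0 * b 1 : ℕ) : ℝ) * (1 / (b 2 : ℝ)) * (1 / ((b 1 * b 3 : ℕ) : ℝ)) := by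
      positivity
    have hG3' : Cd * C * (k : ℝ) ^ A * Y ^ (-(1 / 4) : ℝ) * T ^ (2 * e) * (T ^ (1 / 10 : ℝ) *
        (N : ℝ) ^ (3 / 4 : ℝ)) ≤ G3 := by
      rw [hG3]; gcongr
    refine add_le_add (le_refl _) (mul_le_mul_of_nonneg_right hG3' hg30)
  -- the sums
  have hE : Es3 C A e k Y N (dv (1 / 2)) S (c5 (3 / 2) F T) =
      ∑ p ∈ S ×ˢ Icc 1 N, |c5 (3 / 2) F T p.1| * (|dv (1 / 2) p.2 / Real.sqrt p.2| *
      Er3 C A e k Y p.1.1 p.1.2 p.2) := by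
    unfold Es3
    rw [sum_product]
    refine sum_congr rfl fun b _ => ?_
    rw [mul_sum]
  rw [hE]
  refine (sum_le_sum hpt).trans ?_
  rw [sum_add_distrib, sum_add_distrib, ← mul_sum, ← mul_sum, ← mul_sum]
  have hH := harm_le hT.le
  have hH0 : 0 ≤ ∑ n ∈ Icc 1 ⌊T⌋₊, (1 : ℝ) / (n : ℝ) := sum_nonneg fun n _ => by positivity
  have hhqn : ∀ h : ℕ, 0 ≤ hq h ^ (1 / 2 : ℝ) / (h : ℝ) := fun h =>
    div_nonneg (Real.rpow_nonneg (by linarith [hq_one_le h]) _) (Nat.cast_nonneg _)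
  have hsub : S ⊆ Icc 1 ⌊T⌋₊ ×ˢ Icc 1 ⌊T⌋₊ := by
    intro b hb
    exact mem_product.2 (S7_le hb)
  have s1 : ∑ p ∈ S ×ˢ Icc 1 N, g1 p ≤
      (∑ h ∈ Icc 1 ⌊T⌋₊, hq h ^ (1 / 2 : ℝ) / (h : ℝ)) * (1 + Real.log T) := by
    rw [sum_product]
    have e1 : ∀ b ∈ S, ∑ n ∈ Icc 1 N, g1 (b, n) = hq b.1 ^ (1 / 2 : ℝ) / (b.1 : ℝ) * (1 / (b.2 : ℝ)) := by
      intro b _
      simp only [hg1]
      rw [sum_const, Nat.card_Icc, Nat.add_sub_cancel, nsmul_eq_mul]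
      field_simp
    rw [sum_congr rfl e1]
    calc _ ≤ ∑ b ∈ Icc 1 ⌊T⌋₊ ×ˢ Icc 1 ⌊T⌋₊, hq b.1 ^ (1 / 2 : ℝ) / (b.1 : ℝ) * (1 / (b.2 : ℝ)) :=
          sum_le_sum_of_subset_of_nonneg hsub fun b _ _ => mul_nonneg (hhqn _) (by positivity)
      _ = (∑ h ∈ Icc 1 ⌊T⌋₊, hq h ^ (1 / 2 : ℝ) / (h : ℝ)) * ∑ n ∈ Icc 1 ⌊T⌋₊, (1 : ℝ) / (n : ℝ) := by
          rw [sum_product, sum_mul]
          exact sum_congr rfl fun h _ => by rw [mul_sum]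
      _ ≤ _ := mul_le_mul_of_nonneg_left hH (sum_nonneg fun h _ => hhqn h)
  have s3 : ∑ p ∈ S ×ˢ Icc 1 N, g3 p ≤ (1 + Real.log T) ^ 3 := by
    calc _ ≤ ∑ p ∈ (Icc 1 ⌊T⌋₊ ×ˢ Icc 1 ⌊T⌋₊) ×ˢ Icc 1 ⌊T⌋₊, g3 p := by
          refine sum_le_sum_of_subset_of_nonneg ?_ fun b _ _ => by simp only [hg3]; positivity
          exact product_subset_product hsub (Icc_subset_Icc_right hNT)
      _ = (∑ n ∈ Icc 1 ⌊T⌋₊, (1 : ℝ) / (n : ℝ)) ^ 3 := by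
          rw [sum_product, sum_product]
          simp only [hg3]
          rw [pow_succ, pow_two, sum_mul_sum, sum_mul]
          refine sum_congr rfl fun a _ => ?_
          rw [sum_mul]
          refine sum_congr rfl fun b _ => ?_
          rw [mul_sum]
      _ ≤ _ := pow_le_pow_left₀ hH0 hH 3
  have hinj : ∀ p ∈ S ×ˢ Icc 1 N, ∀ q ∈ S ×ˢ Icc 1 N, ψ p = ψ q → p = q := by
    intro p _ q _ h
    have h0 : cF p = cF q := by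
      simp only [hψ, Prod.mk.injEq] at h
      obtain ⟨⟨a0, a1⟩, a2, a3⟩ := h
      funext i
      fin_cases i
      · exact a0
      · exact a1
      · exact a2
      · exact a3
    have := congrArg cG h0
    rwa [cG_cF, cG_cF] at this
  have s2 : ∑ p ∈ S ×ˢ Icc 1 N, g2 (ψ p) ≤ ((∑ h ∈ Icc 1 ⌊T⌋₊, W1 h) * (∑ g ∈ Icc 1 ⌊T⌋₊, W2 g)) *
      (1 + Real.log T) ^ 2 := by
    rw [← sum_image (f := g2) (g := ψ) hinj]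
    calc _ ≤ ∑ q ∈ (Icc 1 ⌊T⌋₊ ×ˢ Icc 1 ⌊T⌋₊) ×ˢ (Icc 1 ⌊T⌋₊ ×ˢ Icc 1 ⌊T⌋₊), g2 q := by
          refine sum_le_sum_of_subset_of_nonneg ?_ fun q _ _ => hg2n q
          intro q hq
          rw [mem_image] at hq
          obtain ⟨p, hp, rfl⟩ := hq
          obtain ⟨m0, m1, m2, m3, -, n0, n1, n2, n3⟩ := hmem p hp
          simp only [hψ, mem_product, mem_Icc]
          exact ⟨⟨⟨m0, n0⟩, m1, n1⟩, ⟨m2, n2⟩, m3, n3⟩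
      _ = ((∑ h ∈ Icc 1 ⌊T⌋₊, W1 h) * (∑ g ∈ Icc 1 ⌊T⌋₊, W2 g)) *
          ((∑ n ∈ Icc 1 ⌊T⌋₊, (1 : ℝ) / (n : ℝ)) * (∑ n ∈ Icc 1 ⌊T⌋₊, (1 : ℝ) / (n : ℝ))) := by
          rw [sum_mul_sum, sum_mul_sum, ← sum_product', ← sum_product', sum_mul_sum,
            ← sum_product']
      _ ≤ _ := by
          rw [pow_two]
          have w1 : 0 ≤ ∑ h ∈ Icc 1 ⌊T⌋₊, W1 h := sum_nonneg fun h _ => hW1n h
          have w2 : 0 ≤ ∑ g ∈ Icc 1 ⌊T⌋₊, W2 g := sum_nonneg fun g _ => hW2n g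
          gcongr
  gcongr

end

end Pool.Agent.Y756.T
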