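import Pool.Agent.Y756.S.Err3

set_option autoImplicit false

/-! The error terms of the twisted third moment: conclusion. -/

namespace Pool.Agent.Y756.T

open Finset Filter Topology MeasureTheory
open Pool.Agent.H306R2 Pool.Agent.H306R2.SM
open Pool.Agent.H223.EM (hp mp kr')

noncomputable section

lemma logk_sq {k : ℕ} (hk : 1 ≤ k) {L : ℝ} (hL : 1 ≤ L) (hkL : (k : ℝ) ≤ 4 * L ^ 2) :
    (1 + Real.log k) ^ 2 ≤ 578 * L ^ (1 / 4 : ℝ) := by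
  have k1 : (1 : ℝ) ≤ k := by exact_mod_cast hk
  have k0 : (0 : ℝ) < k := by linarith
  have L0 : 0 < L := by linarith
  have h1 : Real.log k ≤ 16 * (k : ℝ) ^ (1 / 16 : ℝ) := by
    have := Real.log_le_rpow_div k0.le (show (0 : ℝ) < 1 / 16 by norm_num)
    linarith
  have h2 : 1 ≤ (k : ℝ) ^ (1 / 16 : ℝ) := Real.one_le_rpow k1 (by norm_num)
  have h3 : 0 ≤ Real.log k := Real.log_nonneg k1
  have h4 : (1 + Real.log k) ^ 2 ≤ (17 * (k : ℝ) ^ (1 / 16 : ℝ)) ^ 2 :=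
    pow_le_pow_left₀ (by linarith) (by linarith) 2
  have h5 : (17 * (k : ℝ) ^ (1 / 16 : ℝ)) ^ 2 = 289 * (k : ℝ) ^ (1 / 8 : ℝ) := by
    rw [mul_pow, ← Real.rpow_natCast ((k : ℝ) ^ (1 / 16 : ℝ)), ← Real.rpow_mul k0.le]
    norm_num
  have h6 : (k : ℝ) ^ (1 / 8 : ℝ) ≤ (4 * L ^ 2) ^ (1 / 8 : ℝ) :=
    Real.rpow_le_rpow k0.le hkL (by norm_num)
  have h7 : (4 * L ^ 2) ^ (1 / 8 : ℝ) ≤ 2 * L ^ (1 / 4 : ℝ) := by
    rw [Real.mul_rpow (by norm_num) (by positivity), ← Real.rpow_natCast L 2,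
      ← Real.rpow_mul L0.le]
    have e1 : (4 : ℝ) ^ (1 / 8 : ℝ) ≤ 2 := by
      calc (4 : ℝ) ^ (1 / 8 : ℝ) ≤ (4 : ℝ) ^ (1 / 2 : ℝ) :=
            Real.rpow_le_rpow_of_exponent_le (by norm_num) (by norm_num)
        _ = 2 := by
            rw [← Real.sqrt_eq_rpow, show (4 : ℝ) = 2 ^ 2 by norm_num]
            exact Real.sqrt_sq (by norm_num)
    have e2 : ((2 : ℕ) : ℝ) * (1 / 8) = 1 / 4 := by norm_num
    rw [e2]
    gcongr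
  linarith

theorem es3_small {β ε : ℝ} (hβ : 0 < β) (hβ7 : β ≤ 1 / 7) (hε : 0 < ε) (hε1 : ε ≤ 1 / 100)
    {C : ℝ} {A : ℕ} (hC : 0 < C) {F : ℝ → ℝ → ℝ} (hF : FW3 F β ε) (η : ℝ) (hη : 0 < η) :
    ∀ᶠ T : ℝ in atTop, ∀ k : ℕ, kr' T k →
      Es3 C A (ε / 8) k (Yf k T) ⌊T ^ β⌋₊ (dv (1 / 2)) (S7 ε β T) (c5 (3 / 2) F T) ≤
        η * Real.log T ^ (39 / 4 : ℝ) := by
  obtain ⟨Cd, hCd0, hCd⟩ := dv52_le (ε / 8) (by positivity)
  obtain ⟨C1, hC1, h1⟩ := sum_dv_psi_Em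
  obtain ⟨C2, hC2, h2⟩ := sum_g
  obtain ⟨C3, hC3, h3⟩ := sum_hq
  set ca : ℝ := Cd * C * (2 * Real.pi) * 4 ^ (A + 1) * C3 * 8 with hca
  set cc : ℝ := Cd * C * (2 * Real.pi) * 4 ^ (A + 1) * 8 with hcc
  set cb : ℝ := 5 * C * C1 * C2 * 256 * 578 with hcb
  have hpi := Real.pi_pos
  have ev1 := log_small (3 / η * ca) ((2 * A + 5 : ℕ) : ℝ) (3 * ε / 4) (by positivity)
  have ev2 := log_small (3 / η * cc) ((2 * A + 5 : ℕ) : ℝ) (1 / 25) (by norm_num)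
  have ev3 : ∀ᶠ T : ℝ in atTop, 3 / η * cb ≤ Real.log T ^ (1 / 4 : ℝ) :=
    ((tendsto_rpow_atTop (by norm_num)).comp Real.tendsto_log_atTop).eventually_ge_atTop _
  have ev4 := log_small (8 * Real.pi) 2 1 one_pos
  filter_upwards [ev1, ev2, ev3, ev4, h2, eventually_gt_atTop (Real.exp 1)] with T e1 e2 e3 e4 h2 hTe
    k hk
  have hTT : (1 : ℝ) < Real.exp 1 := by
    have := Real.add_one_lt_exp (show (1 : ℝ) ≠ 0 by norm_num)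
    linarith
  have hT : 1 < T := by linarith
  have hT0 : 0 < T := by linarith
  have hL1 : 1 < Real.log T := by
    rw [Real.lt_log_iff_exp_lt hT0]; exact hTe
  set L := Real.log T with hLd
  have hL0 : 0 < L := by linarith
  have hk1 : 1 ≤ k := by
    have : (1 : ℝ) ≤ k := by
      refine le_trans ?_ hk.1
      have := mul_le_mul hL1.le hL1.le zero_le_one hL0.le
      rw [pow_two]; linarith
    exact_mod_cast this
  have k0 : (0 : ℝ) < k := by exact_mod_cast hk1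
  have k1 : (1 : ℝ) ≤ k := by exact_mod_cast hk1
  have hk2 := hk.2
  rw [← hLd] at hk2
  have e4' : 8 * Real.pi * L ^ 2 ≤ T := by
    rw [Real.rpow_one] at e4
    have : L ^ (2 : ℝ) = L ^ 2 := by exact_mod_cast Real.rpow_natCast L 2
    rwa [this] at e4
  have hYdef : Yf k T = T / (2 * Real.pi * k) := rfl
  have h2pk : 1 ≤ 2 * Real.pi * k := by
    have h9 := Real.pi_gt_three
    have : 1 * 1 ≤ (2 * Real.pi) * k := mul_le_mul (by linarith) k1 zero_le_one (by linarith)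
    linarith
  have hY1 : 1 ≤ Yf k T := by
    rw [hYdef, le_div_iff₀ (by positivity), one_mul]
    calc 2 * Real.pi * k ≤ 2 * Real.pi * (4 * L ^ 2) := by gcongr
      _ = 8 * Real.pi * L ^ 2 := by ring
      _ ≤ T := e4'
  have hYT : Yf k T ≤ T := by
    rw [hYdef]
    exact div_le_self hT0.le h2pk
  have hY0 : 0 < Yf k T := by linarith
  have hmain := es3_sum hF hε (e := ε / 8) (by positivity) hCd0 hCd (A := A) hC hT hk1 hY1 hYT hβ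
    (by linarith)
  refine hmain.trans ?_
  rw [← hLd]
  have hL1' : 1 + L ≤ 2 * L := by linarith
  have hLp : 1 ≤ L ^ (39 / 4 : ℝ) := Real.one_le_rpow hL1.le (by norm_num)
  have hkk : (k : ℝ) ^ (A + 1) ≤ 4 ^ (A + 1) * L ^ (2 * A + 2) := by
    calc (k : ℝ) ^ (A + 1) ≤ (4 * L ^ 2) ^ (A + 1) := pow_le_pow_left₀ k0.le hk2 _
      _ = 4 ^ (A + 1) * L ^ (2 * A + 2) := by rw [mul_pow, ← pow_mul]; congr 2
  have hcast : L ^ ((2 * A + 5 : ℕ) : ℝ) = L ^ (2 * A + 2) * L ^ 3 := by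
    rw [Real.rpow_natCast, ← pow_add]
  rw [hcast] at e1 e2
  -- first part
  have t1 : (Cd * C * (k : ℝ) ^ A / Yf k T * T ^ (2 * (ε / 8)) * T ^ (1 - ε)) *
      ((∑ h ∈ Icc 1 ⌊T⌋₊, hq h ^ (1 / 2 : ℝ) / (h : ℝ)) * (1 + L)) ≤ η / 3 * L ^ (39 / 4 : ℝ) := by
    have a1 := h3 T hT.le
    rw [← hLd] at a1
    have a2 : (∑ h ∈ Icc 1 ⌊T⌋₊, hq h ^ (1 / 2 : ℝ) / (h : ℝ)) * (1 + L) ≤ C3 * 8 * L ^ 3 := by
      calc _ ≤ C3 * (1 + L) ^ 2 * (1 + L) := by gcongr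
        _ = C3 * (1 + L) ^ 3 := by ring
        _ ≤ C3 * (2 * L) ^ 3 := by gcongr
        _ = _ := by ring
    have a3 : T ^ (2 * (ε / 8)) * T ^ (1 - ε) = T * T ^ (-(3 * ε / 4)) := by
      rw [← Real.rpow_add hT0]
      nth_rewrite 2 [← Real.rpow_one T]
      rw [← Real.rpow_add hT0]
      congr 1; ring
    have a4 : (k : ℝ) ^ A / Yf k T = 2 * Real.pi * (k : ℝ) ^ (A + 1) / T := by
      rw [hYdef, pow_succ]; field_simp
    have a5 : Cd * C * (k : ℝ) ^ A / Yf k T * T ^ (2 * (ε / 8)) * T ^ (1 - ε) =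
        Cd * C * (2 * Real.pi) * (k : ℝ) ^ (A + 1) * T ^ (-(3 * ε / 4)) := by
      calc _ = Cd * C * ((k : ℝ) ^ A / Yf k T) * (T ^ (2 * (ε / 8)) * T ^ (1 - ε)) := by ring
        _ = _ := by rw [a3, a4]; field_simp
    rw [a5]
    have s0 : 0 ≤ (∑ h ∈ Icc 1 ⌊T⌋₊, hq h ^ (1 / 2 : ℝ) / (h : ℝ)) * (1 + L) :=
      mul_nonneg (sum_nonneg fun h _ => div_nonneg (Real.rpow_nonneg
        (le_trans zero_le_one (hq_one_le _)) _) (Nat.cast_nonneg _)) (by linarith)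
    calc _ ≤ Cd * C * (2 * Real.pi) * (4 ^ (A + 1) * L ^ (2 * A + 2)) * T ^ (-(3 * ε / 4)) *
          (C3 * 8 * L ^ 3) := by
          gcongr
      _ = (ca * (L ^ (2 * A + 2) * L ^ 3)) * T ^ (-(3 * ε / 4)) := by rw [hca]; ring
      _ = η / 3 * ((3 / η * ca * (L ^ (2 * A + 2) * L ^ 3)) * T ^ (-(3 * ε / 4))) := by
          field_simp
      _ ≤ η / 3 * (T ^ (3 * ε / 4) * T ^ (-(3 * ε / 4))) := by
          gcongr
      _ = η / 3 * 1 := by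
          rw [← Real.rpow_add hT0]; simp
      _ ≤ _ := by gcongr
  have t3 : (Cd * C * (k : ℝ) ^ A * Yf k T ^ (-(1 / 4) : ℝ) * T ^ (2 * (ε / 8)) *
      (T ^ (1 / 10 : ℝ) * (T ^ β) ^ (3 / 4 : ℝ))) * (1 + L) ^ 3 ≤ η / 3 * L ^ (39 / 4 : ℝ) := by
    have a1 : Yf k T ^ (-(1 / 4) : ℝ) ≤ 2 * Real.pi * k * T ^ (-(1 / 4) : ℝ) := by
      rw [hYdef, Real.div_rpow hT0.le (by positivity), Real.rpow_neg (by positivity : 0 ≤ 2 * Real.pi * (k:ℝ)),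
        div_inv_eq_mul, mul_comm]
      have : (2 * Real.pi * (k : ℝ)) ^ (1 / 4 : ℝ) ≤ 2 * Real.pi * k := by
        calc _ ≤ (2 * Real.pi * (k : ℝ)) ^ (1 : ℝ) :=
              Real.rpow_le_rpow_of_exponent_le h2pk (by norm_num)
          _ = _ := Real.rpow_one _
      gcongr
    have a2 : T ^ (-(1 / 4) : ℝ) * T ^ (2 * (ε / 8)) * (T ^ (1 / 10 : ℝ) * (T ^ β) ^ (3 / 4 : ℝ)) ≤
        T ^ (-(1 / 25) : ℝ) := by
      rw [← Real.rpow_mul hT0.le, ← Real.rpow_add hT0, ← Real.rpow_add hT0, ← Real.rpow_add hT0]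
      apply Real.rpow_le_rpow_of_exponent_le hT.le
      linarith
    calc _ ≤ (Cd * C * (k : ℝ) ^ A * (2 * Real.pi * k * T ^ (-(1 / 4) : ℝ)) * T ^ (2 * (ε / 8)) *
          (T ^ (1 / 10 : ℝ) * (T ^ β) ^ (3 / 4 : ℝ))) * (2 * L) ^ 3 := by
          gcongr
      _ = Cd * C * (2 * Real.pi) * (k : ℝ) ^ (A + 1) * 8 * L ^ 3 *
          (T ^ (-(1 / 4) : ℝ) * T ^ (2 * (ε / 8)) * (T ^ (1 / 10 : ℝ) * (T ^ β) ^ (3 / 4 : ℝ))) := by
          ring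
      _ ≤ Cd * C * (2 * Real.pi) * (4 ^ (A + 1) * L ^ (2 * A + 2)) * 8 * L ^ 3 *
          T ^ (-(1 / 25) : ℝ) := by
          gcongr
      _ = (cc * (L ^ (2 * A + 2) * L ^ 3)) * T ^ (-(1 / 25) : ℝ) := by rw [hcc]; ring
      _ = η / 3 * ((3 / η * cc * (L ^ (2 * A + 2) * L ^ 3)) * T ^ (-(1 / 25) : ℝ)) := by
          field_simp
      _ ≤ η / 3 * (T ^ (1 / 25 : ℝ) * T ^ (-(1 / 25) : ℝ)) := by
          gcongr
      _ = η / 3 * 1 := by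
          rw [← Real.rpow_add hT0]; norm_num
      _ ≤ _ := by gcongr
  have t2 : (5 * C * (1 + Real.log k) ^ 2 * (1 + L)) *
        (((∑ h ∈ Icc 1 ⌊T⌋₊, dv (5 / 2) h * psi h * Em h ^ 2 / (h : ℝ)) *
          (∑ g ∈ Icc 1 ⌊T⌋₊, dv (5 / 2) g * dv (1 / 2) g / (g : ℝ))) * (1 + L) ^ 2) ≤
      η / 3 * L ^ (39 / 4 : ℝ) := by
    have a1 := h1 T hT.le
    rw [← hLd] at a1
    have a3 := logk_sq hk1 hL1.le hk2
    have s2 : 0 ≤ ∑ g ∈ Icc 1 ⌊T⌋₊, dv (5 / 2) g * dv (1 / 2) g / (g : ℝ) :=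
      sum_nonneg fun g _ => div_nonneg (mul_nonneg (dv_nonneg (by norm_num) _)
        (dv_nonneg (by norm_num) _)) (Nat.cast_nonneg _)
    have a4 : L ^ (39 / 4 : ℝ) = L ^ (1 / 4 : ℝ) * L ^ (1 / 4 : ℝ) * L ^ 8 * L ^ (5 / 4 : ℝ) := by
      rw [← Real.rpow_add hL0, ← Real.rpow_natCast, ← Real.rpow_add hL0, ← Real.rpow_add hL0]
      norm_num
    rw [a4]
    have s1 : 0 ≤ ∑ h ∈ Icc 1 ⌊T⌋₊, dv (5 / 2) h * psi h * Em h ^ 2 / (h : ℝ) :=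
      sum_nonneg fun h _ => div_nonneg (mul_nonneg (mul_nonneg (dv_nonneg (by norm_num) _)
        (psi_nonneg _)) (sq_nonneg _)) (Nat.cast_nonneg _)
    have s3 : 0 ≤ ((∑ h ∈ Icc 1 ⌊T⌋₊, dv (5 / 2) h * psi h * Em h ^ 2 / (h : ℝ)) *
          (∑ g ∈ Icc 1 ⌊T⌋₊, dv (5 / 2) g * dv (1 / 2) g / (g : ℝ))) * (1 + L) ^ 2 :=
      mul_nonneg (mul_nonneg s1 s2) (sq_nonneg _)
    calc _ ≤ (5 * C * (578 * L ^ (1 / 4 : ℝ)) * (2 * L)) *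
          (((C1 * (2 * L) ^ 5) * (C2 * L ^ (5 / 4 : ℝ))) * (2 * L) ^ 2) := by
          have a1' : ∑ h ∈ Icc 1 ⌊T⌋₊, dv (5 / 2) h * psi h * Em h ^ 2 / (h : ℝ) ≤
              C1 * (2 * L) ^ 5 := a1.trans (by gcongr)
          gcongr
      _ = cb * L ^ (1 / 4 : ℝ) * L ^ 8 * L ^ (5 / 4 : ℝ) := by rw [hcb]; ring
      _ = η / 3 * ((3 / η * cb) * L ^ (1 / 4 : ℝ) * L ^ 8 * L ^ (5 / 4 : ℝ)) := by
          field_simp
      _ ≤ η / 3 * (L ^ (1 / 4 : ℝ) * L ^ (1 / 4 : ℝ) * L ^ 8 * L ^ (5 / 4 : ℝ)) := by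
          gcongr
  linarith

end

end Pool.Agent.Y756.T
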