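import Pool.Agent.Y756.S.Int7B

set_option autoImplicit false

/-! The secondary part of the cross term and the norm in the case `k = 7`. -/

namespace Pool.Agent.Y756.T

open Finset Filter Topology MeasureTheory Pool.Agent.H306R2
open Pool.Agent.TH535 (posI GdI GdI_nonneg int_able)
open scoped ENNReal

noncomputable section

lemma mQC_pos : ∀ i, 0 < mQ (mC (1 / 2)) 0 i := by
  intro i
  unfold mQ
  have := mC_pos (a := 1 / 2) (by norm_num) i
  split_ifs <;> linarith

lemma GdI72 (u b y z : ℝ) : GdI (mQ (mC (1 / 2)) 0) ![u, b, y, z] =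
    gd 7 u * gd (5 / 4) b * gd 1 y * gd (1 / 2) z := by
  have e : mQ (mC (1 / 2)) 0 = ![7, 5 / 4, 1, 1 / 2] := by
    funext i
    unfold mQ mC
    fin_cases i
    · show (2 * (1 / 2 + 2) + 2 : ℝ) = 7; norm_num
    · show ((1 / 2 + 2) * (1 / 2) : ℝ) = 5 / 4; norm_num
    · rfl
    · rfl
  rw [e]
  unfold GdI
  rw [Fin.prod_univ_four]
  simp only [Matrix.cons_val_zero, Matrix.cons_val_one, Matrix.cons_val]

/-- the integrand -/
def GH7 (u b y z : ℝ) : ℝ :=
  GdI (mQ (mC (1 / 2)) 0) ![u, b, y, z] * q2 F7 (999 / 7000) (1 / 7000) ![u, b, y, z]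

lemma GH7_eq (u b y z : ℝ) : GH7 u b y z = gd 7 u * gd (5 / 4) b * gd 1 y * gd (1 / 2) z *
    (F7 (u + b) y * sc (999 / 7000) (1 / 7000) (b + z)) := by
  unfold GH7
  rw [GdI72]
  unfold q2
  simp only [Matrix.cons_val_zero, Matrix.cons_val_one, Matrix.cons_val]

lemma gd7_le (u : ℝ) : gd 7 u ≤ u ^ 6 / 720 := by
  unfold gd
  split_ifs with h
  · have h1 : Real.Gamma 7 = 720 := by
      rw [show (7 : ℝ) = (6 : ℕ) + 1 by norm_num, Real.Gamma_nat_eq_factorial]
      simp [Nat.factorial]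
    rw [h1, show (7 : ℝ) - 1 = ((6 : ℕ) : ℝ) by norm_num, Real.rpow_natCast]
  · positivity

lemma zup7 (u b y : ℝ) :
    ∫⁻ z, ENNReal.ofReal (GH7 u b y z) ≤
    ENNReal.ofReal ((gd (5 / 4) b * ((max (1429 / 10000 - b) 0) ^ (1 / 2 : ℝ) /
      Real.Gamma (3 / 2))) * (gd 7 u * gd 1 y * F7 (u + b) y)) := by
  have hF := F7_FW.nn (u + b) y
  have g1 := gd_nonneg (m := 5 / 4) (by norm_num) b
  have g2 := gd_nonneg (m := 7) (by norm_num) u
  have g3 := gd_nonneg (m := 1) (by norm_num) y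
  set K := gd (5 / 4) b * (gd 7 u * gd 1 y * F7 (u + b) y) with hK
  have hK0 : 0 ≤ K := by positivity
  have hi := gd_ct_integrable (m := 1 / 2) (by norm_num) (1 / 7 - b)
  have hv := gd_ct_integral (m := 1 / 2) (by norm_num) (1 / 7 - b)
  have hnn : ∀ z, 0 ≤ K * (gd (1 / 2) z * ct (1 / 7 - b) z) := fun z =>
    mul_nonneg hK0 (mul_nonneg (gd_nonneg (by norm_num) z) (ct_nonneg _ _))
  have hle : ∀ z, GH7 u b y z ≤ K * (gd (1 / 2) z * ct (1 / 7 - b) z) := by
    intro z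
    rw [GH7_eq]
    have h1 : sc (999 / 7000) (1 / 7000) (b + z) ≤ ct (1 / 7 - b) z := by
      unfold ct
      split_ifs with h
      · exact sc_le_one _ _ _
      · rw [sc_eq_zero (by norm_num) (by linarith)]
    have g4 := gd_nonneg (m := 1 / 2) (by norm_num) z
    calc _ = (K * gd (1 / 2) z) * sc (999 / 7000) (1 / 7000) (b + z) := by rw [hK]; ring
      _ ≤ (K * gd (1 / 2) z) * ct (1 / 7 - b) z := mul_le_mul_of_nonneg_left h1 (by positivity)
      _ = _ := by ring
  refine le_trans (lintegral_mono fun z => ENNReal.ofReal_le_ofReal (hle z)) ?_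
  have hI := ofReal_integral_eq_lintegral_ofReal (hi.const_mul K) (Eventually.of_forall hnn)
  rw [integral_const_mul, hv, show (1 / 2 : ℝ) + 1 = 3 / 2 by norm_num] at hI
  rw [← hI]
  refine ENNReal.ofReal_le_ofReal ?_
  have hG := Real.Gamma_pos_of_pos (show (0 : ℝ) < 3 / 2 by norm_num)
  have h2 : (max (1 / 7 - b) 0) ^ (1 / 2 : ℝ) ≤ (max (1429 / 10000 - b) 0) ^ (1 / 2 : ℝ) := by
    refine Real.rpow_le_rpow (le_max_right _ _) (max_le_max ?_ le_rfl) (by norm_num)
    linarith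
  calc K * ((max (1 / 7 - b) 0) ^ (1 / 2 : ℝ) / Real.Gamma (3 / 2))
      ≤ K * ((max (1429 / 10000 - b) 0) ^ (1 / 2 : ℝ) / Real.Gamma (3 / 2)) := by gcongr
    _ = _ := by rw [hK]; ring

lemma bup7 (b : ℝ) :
    ∫⁻ y, ∫⁻ u, ∫⁻ z, ENNReal.ofReal (GH7 u b y z) ≤
    ENNReal.ofReal ((Real.Gamma (3 / 2))⁻¹ * (62 / 10 ^ 9 * (gd (5 / 4) b *
        (max (1429 / 10000 - b) 0) ^ (1 / 2 : ℝ)) +
      1600 / 10 ^ 8 * (gd (5 / 4) b * (max (1429 / 10000 - b) 0) ^ (5 / 2 : ℝ)))) := by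
  by_cases hb : 0 < b
  · by_cases hb1 : b < 1429 / 10000
    · obtain ⟨r, hr⟩ : ∃ r : ℝ, r = 1429 / 10000 - b := ⟨_, rfl⟩
      have hr0 : 0 < r := by rw [hr]; linarith
      have hr1 : r ≤ 1429 / 10000 := by rw [hr]; linarith
      have hG := Real.Gamma_pos_of_pos (show (0 : ℝ) < 3 / 2 by norm_num)
      have hgd := gd_nonneg (m := 5 / 4) (by norm_num) b
      have hK : 0 ≤ gd (5 / 4) b * (r ^ (1 / 2 : ℝ) / Real.Gamma (3 / 2)) := by positivity
      have hz1 : ∀ u y, ∫⁻ z, ENNReal.ofReal (GH7 u b y z) ≤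
          ENNReal.ofReal ((gd (5 / 4) b * (r ^ (1 / 2 : ℝ) / Real.Gamma (3 / 2))) *
            (gd 7 u * gd 1 y * F7 (u + b) y)) := by
        intro u y
        have := zup7 u b y
        rwa [← hr, max_eq_left hr0.le] at this
      have hz2 : ∀ u y, gd 1 y * F7 (u + b) y = 0 → ∫⁻ z, ENNReal.ofReal (GH7 u b y z) = 0 := by
        intro u y h
        have h1 := hz1 u y
        rw [mul_assoc (gd 7 u), h, mul_zero, mul_zero, ENNReal.ofReal_zero] at h1
        exact le_antisymm h1 (bot_le)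
      have hup := tri_up (c := 25706 / 100000 + r) (y0 := 25726 / 100000) (tm := 25726 / 100000) hK
        (fun y u => ∫⁻ z, ENNReal.ofReal (GH7 u b y z))
        (fun t s => (25706 / 100000 + r - t + s) ^ 6 / 720) (by
          intro t s ht0 ht1 hs0 hs1
          refine (hz1 _ _).trans (ENNReal.ofReal_le_ofReal ?_)
          refine mul_le_mul_of_nonneg_left ?_ hK
          have a1 := gd7_le (25706 / 100000 + r - t + s)
          have a2 : gd 1 (25726 / 100000 - t) ≤ 1 := by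
            by_cases hy : 0 < 25726 / 100000 - t
            · rw [gd1 hy]
            · unfold gd; rw [if_neg hy]; norm_num
          have a3 := F7_FW.le1 (25706 / 100000 + r - t + s + b) (25726 / 100000 - t)
          have a4 := F7_FW.nn (25706 / 100000 + r - t + s + b) (25726 / 100000 - t)
          have a5 := gd_nonneg (m := 1) (by norm_num) (25726 / 100000 - t)
          have a6 := gd_nonneg (m := 7) (by norm_num) (25706 / 100000 + r - t + s)
          calc _ = gd 7 (25706 / 100000 + r - t + s) * (gd 1 (25726 / 100000 - t) *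
                F7 (25706 / 100000 + r - t + s + b) (25726 / 100000 - t)) := by ring
            _ ≤ gd 7 (25706 / 100000 + r - t + s) * 1 :=
                mul_le_mul_of_nonneg_left (mul_le_one₀ a2 a4 a3) a6
            _ ≤ _ := by rw [mul_one]; exact a1)
        (by
          intro t s hn
          refine hz2 _ _ ?_
          by_cases h1 : t ≤ 25726 / 100000
          · by_cases h2 : 0 ≤ s
            · by_cases h3 : s ≤ 5 / 3 * t
              · exact absurd ⟨by linarith, h1, h2, h3⟩ hn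
              · push Not at h3
                rw [F7_FW.z3 _ _ (by rw [hr]; linarith), mul_zero]
            · push Not at h2
              rw [F7_FW.z2 _ _ (by rw [hr]; linarith), mul_zero]
          · push Not at h1
            have : gd 1 (25726 / 100000 - t) = 0 := by
              unfold gd; rw [if_neg (by linarith)]
            rw [this, zero_mul])
      rw [J72, ← ENNReal.ofReal_mul hK] at hup
      refine hup.trans (ENNReal.ofReal_le_ofReal ?_)
      have hJ := J72_up hr0.le hr1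
      rw [← hr, max_eq_left hr0.le]
      have e2 : r ^ (5 / 2 : ℝ) = r ^ (1 / 2 : ℝ) * r ^ 2 := by
        rw [show (5 / 2 : ℝ) = 1 / 2 + (2 : ℕ) by norm_num, Real.rpow_add hr0, Real.rpow_natCast]
      rw [e2]
      calc _ ≤ gd (5 / 4) b * (r ^ (1 / 2 : ℝ) / Real.Gamma (3 / 2)) *
            (62 / 10 ^ 9 + 1600 / 10 ^ 8 * r ^ 2) := mul_le_mul_of_nonneg_left hJ hK
        _ = _ := by field_simp
    · have h0 : max (1429 / 10000 - b) 0 = 0 := max_eq_right (by linarith)
      have h1 : ∀ y u, ∫⁻ z, ENNReal.ofReal (GH7 u b y z) = 0 := by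
        intro y u
        have := zup7 u b y
        rw [h0, Real.zero_rpow (by norm_num), zero_div, mul_zero, zero_mul,
          ENNReal.ofReal_zero] at this
        exact le_antisymm this (bot_le)
      simp only [h1, lintegral_zero]
      exact bot_le
  · have h0 : gd (5 / 4) b = 0 := by unfold gd; rw [if_neg hb]
    have h1 : ∀ y u, ∫⁻ z, ENNReal.ofReal (GH7 u b y z) = 0 := by
      intro y u
      have := zup7 u b y
      rw [h0, zero_mul, zero_mul, ENNReal.ofReal_zero] at this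
      exact le_antisymm this (bot_le)
    simp only [h1, lintegral_zero]
    exact bot_le

/-- rational weight -/
def Q72 : ℝ := 62 / 10 ^ 9 + 4 / 11 * (1600 / 10 ^ 8) * (1429 / 10000) ^ 2

theorem I72_up : (∫ u : Fin 4 → ℝ, GdI (mQ (mC (1 / 2)) 0) u * q2 F7 (999 / 7000) (1 / 7000) u) ≤
    (1429 / 10000 : ℝ) ^ (7 / 4 : ℝ) / Real.Gamma (11 / 4) * Q72 := by
  have hnn : ∀ u : Fin 4 → ℝ,
      0 ≤ GdI (mQ (mC (1 / 2)) 0) u * q2 F7 (999 / 7000) (1 / 7000) u := by
    intro u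
    refine mul_nonneg (GdI_nonneg mQC_pos u) ?_
    unfold q2
    exact mul_nonneg (F7_FW.nn _ _) (sc_nonneg _ _ _)
  have hint : Integrable (fun u : Fin 4 → ℝ =>
      GdI (mQ (mC (1 / 2)) 0) u * q2 F7 (999 / 7000) (1 / 7000) u) := by
    refine int_able mQC_pos _ (q2_cont F7_FW.toFW _ _) 1 ?_ (by norm_num)
    intro u hu hi
    exact q_zero F7_FW.toFW (by norm_num) (by norm_num) (by norm_num) u hu hi
  have h1 := ofReal_integral_eq_lintegral_ofReal hint (Eventually.of_forall hnn)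
  have hmeas : Measurable (fun u : Fin 4 → ℝ => ENNReal.ofReal
      (GdI (mQ (mC (1 / 2)) 0) u * q2 F7 (999 / 7000) (1 / 7000) u)) :=
    ((GdI_meas _).mul (q2_cont F7_FW.toFW _ _).measurable).ennreal_ofReal
  rw [fub4' _ hmeas] at h1
  have hG9 := Real.Gamma_pos_of_pos (show (0 : ℝ) < 11 / 4 by norm_num)
  have hQ0 : 0 ≤ (1429 / 10000 : ℝ) ^ (7 / 4 : ℝ) / Real.Gamma (11 / 4) * Q72 := by
    unfold Q72; positivity
  rw [← ENNReal.ofReal_le_ofReal_iff hQ0, h1]
  refine le_trans (lintegral_mono bup7) ?_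
  obtain ⟨i1, v1⟩ := beta_int (a := 5 / 4) (b := 1 / 2) (B := 1429 / 10000) (by norm_num)
    (by norm_num) (by norm_num)
  obtain ⟨i3, v3⟩ := beta_int (a := 5 / 4) (b := 5 / 2) (B := 1429 / 10000) (by norm_num)
    (by norm_num) (by norm_num)
  have k1 : Integrable (fun b => 62 / 10 ^ 9 * (gd (5 / 4) b *
        (max (1429 / 10000 - b) 0) ^ (1 / 2 : ℝ))) := i1.const_mul _
  have k3 : Integrable (fun b => 1600 / 10 ^ 8 * (gd (5 / 4) b *
        (max (1429 / 10000 - b) 0) ^ (5 / 2 : ℝ))) := i3.const_mul _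
  have k13 : Integrable (fun b => 62 / 10 ^ 9 * (gd (5 / 4) b *
        (max (1429 / 10000 - b) 0) ^ (1 / 2 : ℝ)) + 1600 / 10 ^ 8 * (gd (5 / 4) b *
        (max (1429 / 10000 - b) 0) ^ (5 / 2 : ℝ))) := k1.add k3
  have hG := Real.Gamma_pos_of_pos (show (0 : ℝ) < 3 / 2 by norm_num)
  have hI := ofReal_integral_eq_lintegral_ofReal (k13.const_mul (Real.Gamma (3 / 2))⁻¹)
    (Eventually.of_forall fun b => by
      have hgd := gd_nonneg (m := 5 / 4) (by norm_num) b
      show 0 ≤ (Real.Gamma (3 / 2))⁻¹ * _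
      positivity)
  rw [integral_const_mul, integral_add k1 k3, integral_const_mul,
    integral_const_mul, v1, v3] at hI
  rw [← hI]
  refine ENNReal.ofReal_le_ofReal (le_of_eq ?_)
  have g52 : Real.Gamma (3 / 2 + 1) = 3 / 2 * Real.Gamma (3 / 2) := Real.Gamma_add_one (by norm_num)
  have g72 : Real.Gamma (5 / 2 + 1) = 5 / 2 * (3 / 2 * Real.Gamma (3 / 2)) := by
    rw [Real.Gamma_add_one (by norm_num), show (5 / 2 : ℝ) = 3 / 2 + 1 by norm_num, g52]
  have g94 : (5 / 4 : ℝ) + 1 / 2 + 1 = 11 / 4 := by norm_num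
  have g174 : Real.Gamma (5 / 4 + 5 / 2 + 1) = 15 / 4 * (11 / 4 * Real.Gamma (11 / 4)) := by
    rw [Real.Gamma_add_one (by norm_num), show (5 / 4 : ℝ) + 5 / 2 = 11 / 4 + 1 by norm_num,
      Real.Gamma_add_one (by norm_num)]
    norm_num
  have e1 : (1429 / 10000 : ℝ) ^ (5 / 4 + 1 / 2 : ℝ) = (1429 / 10000 : ℝ) ^ (7 / 4 : ℝ) := by norm_num
  have e3 : (1429 / 10000 : ℝ) ^ (5 / 4 + 5 / 2 : ℝ) =
      (1429 / 10000 : ℝ) ^ (7 / 4 : ℝ) * (1429 / 10000) ^ 2 := by
    rw [show (5 / 4 + 5 / 2 : ℝ) = 7 / 4 + (2 : ℕ) by norm_num, Real.rpow_add (by norm_num),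
      Real.rpow_natCast]
  rw [g94, g174, g72, e1, e3, show (1 / 2 : ℝ) + 1 = 3 / 2 by norm_num]
  unfold Q72
  field_simp
  ring

/-! ### the norm -/

lemma nlev7 (x : ℝ) :
    ∫⁻ y, ENNReal.ofReal (gd (25 / 4) x * gd 1 y * F7 x y ^ 2) ≤
    ENNReal.ofReal (gd (25 / 4) x * (3 / 2 * max (4 / 7 - x) 0 -
      5 / 2 * max (6999 / 17500 - x) 0 + max (999 / 7000 - x) 0)) := by
  by_cases hx : 0 < x
  swap
  · have : gd (25 / 4) x = 0 := by unfold gd; rw [if_neg hx]
    rw [this]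
    simp
  have hg := gd_nonneg (m := 25 / 4) (by norm_num) x
  have key : ∀ W : ℝ, 0 < W → (∀ y, 0 < y → W < y → F7 x y = 0) →
      ∫⁻ y, ENNReal.ofReal (gd (25 / 4) x * gd 1 y * F7 x y ^ 2) ≤
      ENNReal.ofReal (gd (25 / 4) x * W) := by
    intro W hW hz
    have h1 : ∀ y, gd (25 / 4) x * gd 1 y * F7 x y ^ 2 ≤ gd (25 / 4) x * (gd 1 y * ct W y) := by
      intro y
      have g1 := gd_nonneg (m := 1) (by norm_num) y
      rw [mul_assoc]
      refine mul_le_mul_of_nonneg_left ?_ hg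
      unfold ct
      split_ifs with h
      · have a1 := F7_FW.le1 x y
        have a2 := F7_FW.nn x y
        exact mul_le_mul_of_nonneg_left (pow_le_one₀ a2 a1) g1
      · by_cases hy : 0 < y
        · rw [hz y hy (not_le.1 h)]; simp
        · have : gd 1 y = 0 := by unfold gd; rw [if_neg hy]
          rw [this]; simp
    refine le_trans (lintegral_mono fun y => ENNReal.ofReal_le_ofReal (h1 y)) ?_
    have hi := (gd_ct_integrable (m := 1) (by norm_num) W).const_mul (gd (25 / 4) x)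
    have hI := ofReal_integral_eq_lintegral_ofReal hi (Eventually.of_forall fun y =>
      mul_nonneg hg (mul_nonneg (gd_nonneg (by norm_num) y) (ct_nonneg _ _)))
    rw [integral_const_mul, gd_ct_integral (by norm_num), max_eq_left hW.le, Real.rpow_one] at hI
    rw [← hI]
    refine ENNReal.ofReal_le_ofReal (le_of_eq ?_)
    norm_num
  have keyz : (∀ y, 0 < y → F7 x y = 0) →
      ∫⁻ y, ENNReal.ofReal (gd (25 / 4) x * gd 1 y * F7 x y ^ 2) = 0 := by
    intro hz
    have h1 : ∀ y, ENNReal.ofReal (gd (25 / 4) x * gd 1 y * F7 x y ^ 2) = 0 := by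
      intro y
      by_cases hy : 0 < y
      · rw [hz y hy]; simp
      · have : gd 1 y = 0 := by unfold gd; rw [if_neg hy]
        rw [this]; simp
    simp only [h1, lintegral_zero]
  by_cases c1 : x ≤ 999 / 7000
  · rw [keyz (fun y hy => F7_FW.z2 _ _ (by linarith))]
    exact bot_le
  push Not at c1
  rw [max_eq_right (show (999 / 7000 - x : ℝ) ≤ 0 by linarith)]
  by_cases c2 : x ≤ 6999 / 17500
  · rw [max_eq_left (show (0 : ℝ) ≤ 4 / 7 - x by linarith),
      max_eq_left (show (0 : ℝ) ≤ 6999 / 17500 - x by linarith)]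
    have h2 := key (x - 999 / 7000) (by linarith)
      (fun y hy hW => F7_FW.z2 _ _ (by linarith))
    refine h2.trans (ENNReal.ofReal_le_ofReal ?_)
    refine mul_le_mul_of_nonneg_left ?_ hg
    linarith
  push Not at c2
  rw [max_eq_right (show (6999 / 17500 - x : ℝ) ≤ 0 by linarith)]
  by_cases c3 : x < 4 / 7
  · rw [max_eq_left (show (0 : ℝ) ≤ 4 / 7 - x by linarith)]
    have h2 := key (3 / 2 * (4 / 7 - x)) (by linarith)
      (fun y hy hW => F7_FW.z3 _ _ (by linarith))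
    refine h2.trans (ENNReal.ofReal_le_ofReal ?_)
    refine mul_le_mul_of_nonneg_left ?_ hg
    linarith
  · push Not at c3
    rw [keyz (fun y hy => F7_FW.z3 _ _ (by linarith))]
    exact bot_le

/-- constant of the norm -/
def N7 : ℝ := 3 / 2 * (4 / 7 : ℝ) ^ (29 / 4 : ℝ) - 5 / 2 * (6999 / 17500 : ℝ) ^ (29 / 4 : ℝ) +
  (999 / 7000 : ℝ) ^ (29 / 4 : ℝ)

theorem IN7_up : INf (3 / 2) F7 ≤ N7 / Real.Gamma (33 / 4) := by
  have e94 : ((3 / 2 : ℝ) + 1) ^ 2 = 25 / 4 := by norm_num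
  have hm : ∀ i, 0 < (![((3 / 2 : ℝ) + 1) ^ 2, 1] : Fin 2 → ℝ) i := by
    intro i; fin_cases i
    · show (0 : ℝ) < (3 / 2 + 1) ^ 2; norm_num
    · show (0 : ℝ) < 1; norm_num
  have hcont : Continuous (fun u : Fin 2 → ℝ => F7 (u 0) (u 1) ^ 2) :=
    (F7_FW.toFW.vals (fun u : Fin 2 → ℝ => u 0) (fun u : Fin 2 → ℝ => u 1) (by fun_prop)
      (by fun_prop)).pow 2
  have hnn : ∀ u : Fin 2 → ℝ, 0 ≤ GdI ![((3 / 2 : ℝ) + 1) ^ 2, 1] u * F7 (u 0) (u 1) ^ 2 :=
    fun u => mul_nonneg (GdI_nonneg hm u) (sq_nonneg _)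
  have hint : Integrable (fun u : Fin 2 → ℝ => GdI ![((3 / 2 : ℝ) + 1) ^ 2, 1] u *
      F7 (u 0) (u 1) ^ 2) := by
    refine int_able hm _ hcont 1 ?_ (by norm_num)
    rintro u hu ⟨i, hi⟩
    have h0 := hu 0
    have h1 := hu 1
    rw [F7_FW.z1, zero_pow (by norm_num)]
    fin_cases i
    · have : 1 ≤ u 0 := hi
      linarith
    · have : 1 ≤ u 1 := hi
      linarith
  have h1 := ofReal_integral_eq_lintegral_ofReal hint (Eventually.of_forall hnn)
  change ENNReal.ofReal (INf (3 / 2) F7) = _ at h1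
  have hmeas : Measurable (fun u : Fin 2 → ℝ => ENNReal.ofReal
      (GdI ![((3 / 2 : ℝ) + 1) ^ 2, 1] u * F7 (u 0) (u 1) ^ 2)) :=
    ((GdI_meas _).mul hcont.measurable).ennreal_ofReal
  rw [fub2 _ hmeas] at h1
  have e2 : ∀ x y : ℝ, GdI ![((3 / 2 : ℝ) + 1) ^ 2, 1] ![x, y] * F7 (![x, y] 0) (![x, y] 1) ^ 2 =
      gd (25 / 4) x * gd 1 y * F7 x y ^ 2 := by
    intro x y
    unfold GdI
    rw [Fin.prod_univ_two, e94]
    simp only [Matrix.cons_val_zero, Matrix.cons_val_one, Matrix.cons_val_fin_one]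
  simp only [e2] at h1
  have hp : ∀ B : ℝ, 0 < B → Integrable (fun u => gd (25 / 4) u * max (B - u) 0) ∧
      ∫ u, gd (25 / 4) u * max (B - u) 0 = B ^ (29 / 4 : ℝ) / Real.Gamma (33 / 4) := by
    intro B hB
    have h := beta_int (a := 25 / 4) (b := 1) (B := B) (by norm_num) one_pos hB
    simp only [Real.rpow_one] at h
    refine ⟨h.1, ?_⟩
    rw [h.2, show (1 : ℝ) + 1 = 2 by norm_num, Real.Gamma_two, mul_one,
      show (25 / 4 : ℝ) + 1 = 29 / 4 by norm_num, show (29 / 4 : ℝ) + 1 = 33 / 4 by norm_num]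
  obtain ⟨i1, v1⟩ := hp (4 / 7) (by norm_num)
  obtain ⟨i2, v2⟩ := hp (6999 / 17500) (by norm_num)
  obtain ⟨i3, v3⟩ := hp (999 / 7000) (by norm_num)
  have k1 : Integrable (fun u => 3 / 2 * (gd (25 / 4) u * max (4 / 7 - u) 0)) := i1.const_mul _
  have k2 : Integrable (fun u => 5 / 2 * (gd (25 / 4) u * max (6999 / 17500 - u) 0)) :=
    i2.const_mul _
  have k12 : Integrable (fun u => 3 / 2 * (gd (25 / 4) u * max (4 / 7 - u) 0) -
    5 / 2 * (gd (25 / 4) u * max (6999 / 17500 - u) 0)) := k1.sub k2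
  have k123 : Integrable (fun u => 3 / 2 * (gd (25 / 4) u * max (4 / 7 - u) 0) -
    5 / 2 * (gd (25 / 4) u * max (6999 / 17500 - u) 0) +
    gd (25 / 4) u * max (999 / 7000 - u) 0) := k12.add i3
  have hfn : ∀ x : ℝ, 0 < x → 0 ≤ 3 / 2 * max (4 / 7 - x) 0 -
      5 / 2 * max (6999 / 17500 - x) 0 + max (999 / 7000 - x) 0 := by
    intro x hx
    rcases le_total x (999 / 7000) with c1 | c1
    · rw [max_eq_left (show (0 : ℝ) ≤ 4 / 7 - x by linarith),
        max_eq_left (show (0 : ℝ) ≤ 6999 / 17500 - x by linarith),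
        max_eq_left (show (0 : ℝ) ≤ 999 / 7000 - x by linarith)]
      linarith
    rw [max_eq_right (show (999 / 7000 - x : ℝ) ≤ 0 by linarith)]
    rcases le_total x (6999 / 17500) with c2 | c2
    · rw [max_eq_left (show (0 : ℝ) ≤ 4 / 7 - x by linarith),
        max_eq_left (show (0 : ℝ) ≤ 6999 / 17500 - x by linarith)]
      linarith
    rw [max_eq_right (show (6999 / 17500 - x : ℝ) ≤ 0 by linarith)]
    have := le_max_right (4 / 7 - x) 0
    linarith
  have hnn2 : ∀ x, 0 ≤ 3 / 2 * (gd (25 / 4) x * max (4 / 7 - x) 0) -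
    5 / 2 * (gd (25 / 4) x * max (6999 / 17500 - x) 0) +
    gd (25 / 4) x * max (999 / 7000 - x) 0 := by
    intro x
    have hg := gd_nonneg (m := 25 / 4) (by norm_num) x
    by_cases hx : 0 < x
    · have := mul_nonneg hg (hfn x hx)
      linarith
    · have : gd (25 / 4) x = 0 := by unfold gd; rw [if_neg hx]
      rw [this]; simp
  have hN : ∫ u, (3 / 2 * (gd (25 / 4) u * max (4 / 7 - u) 0) -
    5 / 2 * (gd (25 / 4) u * max (6999 / 17500 - u) 0) +
    gd (25 / 4) u * max (999 / 7000 - u) 0) = N7 / Real.Gamma (33 / 4) := by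
    rw [integral_add k12 i3, integral_sub k1 k2, integral_const_mul, integral_const_mul, v1, v2, v3]
    unfold N7
    ring
  have hN0 : 0 ≤ N7 / Real.Gamma (33 / 4) := by
    rw [← hN]; exact integral_nonneg hnn2
  rw [← ENNReal.ofReal_le_ofReal_iff hN0, h1, ← hN,
    ofReal_integral_eq_lintegral_ofReal k123 (Eventually.of_forall hnn2)]
  refine lintegral_mono fun x => (nlev7 x).trans (ENNReal.ofReal_le_ofReal (le_of_eq ?_))
  ring

end
end Pool.Agent.Y756.T
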