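import Pool.Agent.Y756.S.Hold7
import Pool.Agent.Y756.S.Int7C
import Pool.Agent.Y756.T.Fin5

set_option autoImplicit false

/-! The lower bound for the seventh moment. -/

namespace Pool.Agent.Y756.T

open Finset Filter Topology MeasureTheory Complex
open Pool.Agent.H306R2 Pool.Agent.H306R2.SM
open Pool.Agent.H223.EM hiding mw
open Pool.Agent.H133R2.EM11 (Af Cf PG_Af PG_Cf Af_norm Cf_norm z2_bound)

noncomputable section

lemma S7_sub {ε β T : ℝ} (hT : 1 < T) (hε : 0 < ε) (hβ : 0 < β) : S7 ε β T ⊆ S5 1 T := by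
  intro b hb
  obtain ⟨h1, h2, h3, -, h5⟩ := S7_prop hb
  obtain ⟨g1, g2⟩ := S7_le hb
  have hT0 : 0 < T := by linarith
  have hN1 : 1 ≤ ⌊T ^ β⌋₊ := by
    rw [Nat.one_le_floor_iff]
    exact Real.one_le_rpow hT.le hβ.le
  have hN : (1 : ℝ) ≤ (⌊T ^ β⌋₊ : ℝ) := by exact_mod_cast hN1
  have b1 : (1 : ℝ) ≤ b.1 := by exact_mod_cast h1
  have b2 : (0 : ℝ) ≤ b.2 := Nat.cast_nonneg _
  have h6 : (b.1 : ℝ) * b.2 ≤ T ^ (1 : ℝ) := by
    have h7 : (b.1 : ℝ) ≤ (b.1 : ℝ) ^ (3 / 2 : ℝ) := Real.self_le_rpow_of_one_le b1 (by norm_num)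
    calc (b.1 : ℝ) * b.2 = b.1 * b.2 * 1 := by ring
      _ ≤ (b.1 : ℝ) ^ (3 / 2 : ℝ) * b.2 * (⌊T ^ β⌋₊ : ℝ) := by gcongr
      _ ≤ T ^ (1 - ε) := h5
      _ ≤ T ^ (1 : ℝ) := Real.rpow_le_rpow_of_exponent_le hT.le (by linarith)
  unfold S5
  rw [mem_filter, mem_product]
  exact ⟨⟨g1, g2⟩, h3, h6⟩

theorem func7 (c1 n1 κ ν : ℝ) (hc1 : 0 < c1) (hn1 : 0 < n1) (hν : 0 < ν)
    (hc : c1 < aF (7 / 2) * IC7 (1 / 2) F7 (999 / 7000) (1 / 7000))
    (hn : aF (7 / 2) * INf (3 / 2) F7 < n1)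
    (hκ : aF (7 / 2) * ((999 / 7000 : ℝ) ^ (7 / 4 : ℝ) / Real.Gamma (11 / 4)) ^ 7 < κ) :
    ∀ᶠ T : ℝ in atTop, ∀ k : ℕ, kr' T k →
      7 / 6 * ν * (c1 ^ 2 / n1 - ν ^ 6 * κ / 7) * Real.log T ^ (49 / 4 : ℝ) ≤
      ∫ t in Set.Ioi (0 : ℝ), om k (k / T) t * ‖riemannZeta (cl t)‖ ^ 7 := by
  obtain ⟨c', hc1', hc'⟩ := exists_between hc
  obtain ⟨n', hn', hn1'⟩ := exists_between hn
  have e72 : (1 / 2 : ℝ) + 3 = 7 / 2 := by norm_num
  have e72' : (3 / 2 : ℝ) + 2 = 7 / 2 := by norm_num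
  have hcross := cross7_lower (a := 1 / 2) (β := 999 / 7000) (δ := 1 / 7000) (ε := 1 / 7000)
    (by norm_num) F7_FW (by norm_num) (by norm_num) (by norm_num) (by norm_num) (by norm_num) c'
    (by rw [e72]; exact hc')
  have hnorm := norm_upper (a := 3 / 2) (X := 1) (by norm_num) F7_FW.toFW le_rfl n'
    (by rw [e72']; exact hn')
  have hA := Am7 κ hκ
  obtain ⟨Ct, At, hCt, htw0⟩ := tw3 (1 / 7000 / 8) (by norm_num)
  have htw := htw0 (1 / 7000) (by norm_num) (by norm_num)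
  have hsm := small_pow (1 / 7000) (by norm_num)
  have hcc : 0 < c' - c1 := by linarith
  have hes := es3_small (β := 999 / 7000) (ε := 1 / 7000) (by norm_num) (by norm_num) (by norm_num)
    (by norm_num) (C := Ct) (A := At) hCt F7_FW ((c' - c1) / 2) (by linarith)
  have l2 := log_small (7 / 6 * ν * (c1 ^ 2 / n1 - ν ^ 6 * κ / 7)) (49 / 4) (1 / 8) (by norm_num)
  have l3 := log_small (|n'| * 2) (29 / 4) (1 / 8) (by norm_num)
  have l4 : ∀ᶠ T : ℝ in atTop, 2 ≤ (c' - c1) / 2 * Real.log T := by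
    have : Tendsto (fun T : ℝ => (c' - c1) / 2 * Real.log T) atTop atTop :=
      Real.tendsto_log_atTop.const_mul_atTop (by linarith)
    exact this.eventually_ge_atTop 2
  have l5 : ∀ᶠ T : ℝ in atTop, |n'| / (n1 - n') ≤ T := eventually_ge_atTop _
  filter_upwards [hcross, hnorm, hA, htw, hsm, hes, l2, l3, l4, l5,
    eventually_gt_atTop (Real.exp 1),
    eventually_gt_atTop 1000] with T hcross hnorm hA htw hsm hes l2 l3 l4 l5 hTe hT1000 k hk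
  have hT : 1 < T := by linarith
  have hT0 : 0 < T := by linarith
  obtain ⟨hk1, hδ⟩ := kr_pos hTe (show kr T k from hk)
  have hL1 : 1 < Real.log T := by
    rw [Real.lt_log_iff_exp_lt hT0]; exact hTe
  have hL0 : 0 < Real.log T := by linarith
  set H := ∫ t in Set.Ioi (0 : ℝ), om k (k / T) t * ‖riemannZeta (cl t)‖ ^ 7 with hH
  by_cases hbig : T ^ (1 / 8 : ℝ) ≤ H
  · exact l2.trans hbig
  push Not at hbig
  set N := ⌊T ^ (999 / 7000 : ℝ)⌋₊ with hN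
  set S := S7 (1 / 7000) (999 / 7000) T with hS
  have e32 : (1 / 2 : ℝ) + 1 = 3 / 2 := by norm_num
  rw [e32] at hcross
  set c := c5 (3 / 2) F7 T with hcdef
  have hNT : (N : ℝ) ≤ T ^ (999 / 7000 : ℝ) := Nat.floor_le (by positivity)
  have hN1 : 1 ≤ N := by
    rw [hN, Nat.one_le_floor_iff]
    exact Real.one_le_rpow hT.le (by norm_num)
  have hSA : ∀ b ∈ S, AdC (1 / 7000) T N b := fun b hb => S7_prop hb
  have hSH : ∀ b ∈ S, AdH (1 / 7000) T N b := fun b hb => (hSA b hb).toH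
  have hMU : ∑ n ∈ Icc 1 N, |dv (1 / 2) n / Real.sqrt n| ≤ T ^ (2 / 5 : ℝ) := by
    have h6 : ∀ n ∈ Icc 1 N, |dv (1 / 2) n / Real.sqrt n| ≤ N := by
      intro n hn
      rw [mem_Icc] at hn
      have hn1 : (1 : ℝ) ≤ n := by exact_mod_cast hn.1
      have hnN : (n : ℝ) ≤ N := by exact_mod_cast hn.2
      have hd := dv_nonneg (show (0 : ℝ) ≤ 1 / 2 by norm_num) n
      have hs : 1 ≤ Real.sqrt n := by rw [Real.one_le_sqrt]; exact hn1
      rw [abs_of_nonneg (div_nonneg hd (Real.sqrt_nonneg _))]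
      exact (div_le_self hd hs).trans ((dv_half_le n).trans hnN)
    refine (sum_le_card_nsmul _ _ _ h6).trans ?_
    rw [nsmul_eq_mul, Nat.card_Icc, Nat.add_sub_cancel]
    calc (N : ℝ) * N ≤ T ^ (999 / 7000 : ℝ) * T ^ (999 / 7000 : ℝ) := by gcongr
      _ = T ^ (1998 / 7000 : ℝ) := by rw [← Real.rpow_add hT0]; norm_num
      _ ≤ T ^ (2 / 5 : ℝ) := Real.rpow_le_rpow_of_exponent_le hT.le (by norm_num)
  have hMUT : T ^ (2 / 5 : ℝ) ≤ T := by
    conv_rhs => rw [← Real.rpow_one T]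
    exact Real.rpow_le_rpow_of_exponent_le hT.le (by norm_num)
  have htw' := htw k hk N hN1 (dv (1 / 2)) S hSA c (T ^ (2 / 5 : ℝ)) hMU hMUT
  have hcr := hcross k hk
  have hes' := hes k hk
  have hm4 : ∑ i, mC (1 / 2) i + 2 = (39 / 4 : ℝ) := by
    rw [mC_sum]; norm_num
  rw [hm4] at hcr
  have hAk := hA k hk
  have hC := int_C (ε := 1 / 7000) (by norm_num) hT k hδ (hsm k hk) hN1 S hSH c
  set Q := ∑ b ∈ S, c b ^ 2 with hQ
  have hQ0 : 0 ≤ Q := sum_nonneg fun _ _ => sq_nonneg _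
  have hnorm' : Q ≤ n' * Real.log T ^ (29 / 4 : ℝ) := by
    have h1 : Q ≤ ∑ b ∈ S5 1 T, c5 (3 / 2) F7 T b ^ 2 :=
      sum_le_sum_of_subset_of_nonneg (S7_sub hT (by norm_num) (by norm_num))
        fun _ _ _ => sq_nonneg _
    have h2 : ((3 / 2 : ℝ) + 1) ^ 2 + 1 = 29 / 4 := by norm_num
    rw [h2] at hnorm
    exact h1.trans hnorm
  set W := ∫ t in Set.Ioi (0 : ℝ), (om k (k / T) t : ℂ) * (riemannZeta (cl t) ^ 3 * Xf (cl t)) *
        Af N (dv (1 / 2)) t * Cf S c t with hW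
  set Nn := ∫ t in Set.Ioi (0 : ℝ), om k (k / T) t * ‖Cf S c t‖ ^ 2 with hNn
  set K := ∫ t in Set.Ioi (0 : ℝ), om k (k / T) t * ‖Af N (dv (1 / 2)) t‖ ^ 14 with hK
  set P := Real.log T ^ (39 / 4 : ℝ) with hP
  set q := Real.log T ^ (29 / 4 : ℝ) with hq
  set R := Real.log T ^ (49 / 4 : ℝ) with hR
  set Es := Es3 Ct At (1 / 7000 / 8) k (Yf k T) N (dv (1 / 2)) S c with hEs
  have hPq : P ^ 2 = q * R := by
    rw [hP, hq, hR, ← Real.rpow_natCast, ← Real.rpow_mul hL0.le, ← Real.rpow_add hL0]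
    norm_num
  have hq1 : 1 ≤ q := Real.one_le_rpow hL1.le (by norm_num)
  have hP1 : Real.log T ≤ P := by
    conv_lhs => rw [← Real.rpow_one (Real.log T)]
    exact Real.rpow_le_rpow_of_exponent_le hL1.le (by norm_num)
  have hR0 : 0 < R := by positivity
  have hq0 : 0 < q := by positivity
  have hT3 : T ^ (-3 : ℝ) ≤ T ^ (-1 : ℝ) :=
    Real.rpow_le_rpow_of_exponent_le hT.le (by norm_num)
  have hTm1 : T ^ (-1 : ℝ) * T = 1 := by
    rw [← Real.rpow_add_one hT0.ne']; norm_num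
  have hTm1' : T ^ (-1 : ℝ) ≤ 1 := Real.rpow_le_one_of_one_le_of_nonpos hT.le (by norm_num)
  have hTm10 : 0 < T ^ (-1 : ℝ) := by positivity
  have hTm30 : 0 < T ^ (-3 : ℝ) := by positivity
  -- the norm
  have hn'0 : 0 ≤ n' := by
    have h8 : 0 ≤ n' * q := hQ0.trans hnorm'
    by_contra h
    push Not at h
    have := mul_neg_of_neg_of_pos h hq0
    linarith
  rw [abs_of_nonneg hn'0] at l3 l5
  have hNn1 : Nn ≤ n1 * q := by
    have h1 : T ^ (-1 : ℝ) * n' ≤ n1 - n' := by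
      have hd : 0 < n1 - n' := by linarith
      rw [div_le_iff₀ hd] at l5
      calc T ^ (-1 : ℝ) * n' ≤ T ^ (-1 : ℝ) * (T * (n1 - n')) :=
            mul_le_mul_of_nonneg_left l5 hTm10.le
        _ = T ^ (-1 : ℝ) * T * (n1 - n') := by ring
        _ = n1 - n' := by rw [hTm1, one_mul]
    calc Nn ≤ (1 + T ^ (-3 : ℝ)) * Q := hC
      _ ≤ (1 + T ^ (-1 : ℝ)) * (n' * q) := by
          apply mul_le_mul (by linarith) hnorm' hQ0 (by positivity)
      _ = (n' + T ^ (-1 : ℝ) * n') * q := by ring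
      _ ≤ n1 * q := by
          apply mul_le_mul_of_nonneg_right _ hq0.le
          linarith
  have hNn0 : 0 ≤ Nn := setIntegral_nonneg measurableSet_Ioi fun t ht =>
    mul_nonneg (om_nonneg k hδ (le_of_lt ht)) (by positivity)
  have hNn2 : Nn ≤ T ^ (1 / 8 : ℝ) := by
    calc Nn ≤ (1 + T ^ (-3 : ℝ)) * Q := hC
      _ ≤ 2 * (n' * q) := by
          apply mul_le_mul (by linarith) hnorm' hQ0 (by norm_num)
      _ = n' * 2 * q := by ring
      _ ≤ _ := l3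
  have hT18 : 1 ≤ T ^ (1 / 8 : ℝ) := Real.one_le_rpow hT.le (by norm_num)
  -- the error
  have herr : T ^ (2 / 5 : ℝ) * (T ^ (-(3 / 4) : ℝ) * ∫ t in Set.Ioi (0 : ℝ), om k (k / T) t *
        (‖riemannZeta (cl t)‖ ^ 3 * ‖Cf S c t‖)) + T ^ (-3 : ℝ) * (1 + Q) ≤ 2 := by
    have h1 := err_int7 (k := k) hδ (PG_Cf S c)
    have h2 : ∫ t in Set.Ioi (0 : ℝ), om k (k / T) t * (‖riemannZeta (cl t)‖ ^ 3 * ‖Cf S c t‖) ≤
        3 * T ^ (1 / 8 : ℝ) := by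
      refine h1.trans ?_
      linarith
    have h3 : T ^ (2 / 5 : ℝ) * (T ^ (-(3 / 4) : ℝ) * ∫ t in Set.Ioi (0 : ℝ), om k (k / T) t *
        (‖riemannZeta (cl t)‖ ^ 3 * ‖Cf S c t‖)) ≤ 3 * T ^ (-(9 / 40) : ℝ) := by
      calc _ ≤ T ^ (2 / 5 : ℝ) * (T ^ (-(3 / 4) : ℝ) * (3 * T ^ (1 / 8 : ℝ))) := by gcongr
        _ = 3 * (T ^ (2 / 5 : ℝ) * T ^ (-(3 / 4) : ℝ) * T ^ (1 / 8 : ℝ)) := by ring
        _ = 3 * T ^ (-(9 / 40) : ℝ) := by
            rw [← Real.rpow_add hT0, ← Real.rpow_add hT0]; norm_num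
    have h4 : T ^ (-(9 / 40) : ℝ) ≤ 1 / 3 := by
      have h5 : (1000 : ℝ) ^ (9 / 40 : ℝ) ≤ T ^ (9 / 40 : ℝ) :=
        Real.rpow_le_rpow (by norm_num) hT1000.le (by norm_num)
      have h6 : (3 : ℝ) ≤ (1000 : ℝ) ^ (9 / 40 : ℝ) := by
        have e : (3 : ℝ) = (3 ^ (40 / 9 : ℝ)) ^ (9 / 40 : ℝ) := by
          rw [← Real.rpow_mul (by norm_num)]; norm_num
        rw [e]
        apply Real.rpow_le_rpow (by positivity) _ (by norm_num)
        calc (3 : ℝ) ^ (40 / 9 : ℝ) ≤ 3 ^ (5 : ℝ) :=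
              Real.rpow_le_rpow_of_exponent_le (by norm_num) (by norm_num)
          _ ≤ 1000 := by
              rw [show (5 : ℝ) = ((5 : ℕ) : ℝ) by norm_num, Real.rpow_natCast]; norm_num
      rw [Real.rpow_neg hT0.le, ← one_div]
      exact one_div_le_one_div_of_le (by norm_num) (h6.trans h5)
    have h5 : T ^ (-3 : ℝ) * (1 + Q) ≤ 1 := by
      have h6 : 1 + Q ≤ T := by
        have h7 : Q ≤ T ^ (1 / 8 : ℝ) := by
          calc Q ≤ n' * q := hnorm'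
            _ ≤ n' * 2 * q := by
                have : 0 ≤ n' * q := hQ0.trans hnorm'
                linarith
            _ ≤ _ := l3
        have h8 : 1 + T ^ (1 / 8 : ℝ) ≤ T := by
          have h9 : T ^ (1 / 8 : ℝ) ≤ T ^ (1 / 2 : ℝ) :=
            Real.rpow_le_rpow_of_exponent_le hT.le (by norm_num)
          have h10 : T ^ (1 / 2 : ℝ) * T ^ (1 / 2 : ℝ) = T := by
            rw [← Real.rpow_add hT0]; norm_num
          have h11 : 2 ≤ T ^ (1 / 2 : ℝ) := by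
            rw [← Real.sqrt_eq_rpow]
            apply Real.le_sqrt_of_sq_le
            linarith
          have h12 : 2 * T ^ (1 / 2 : ℝ) ≤ T ^ (1 / 2 : ℝ) * T ^ (1 / 2 : ℝ) :=
            mul_le_mul_of_nonneg_right h11 (by positivity)
          linarith
        linarith
      calc T ^ (-3 : ℝ) * (1 + Q) ≤ T ^ (-1 : ℝ) * T := by gcongr
        _ = 1 := hTm1
    linarith
  have hWlow : c1 * P ≤ ‖W‖ := by
    have h1 : ‖((Ms3 (Yf k T) N (dv (1 / 2)) S c : ℝ) : ℂ)‖ ≤ ‖W‖ + (2 + (c' - c1) / 2 * P) := by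
      have h2 : ‖W - ((Ms3 (Yf k T) N (dv (1 / 2)) S c : ℝ) : ℂ)‖ ≤ 2 + (c' - c1) / 2 * P := by
        refine htw'.trans ?_
        linarith
      calc ‖((Ms3 (Yf k T) N (dv (1 / 2)) S c : ℝ) : ℂ)‖ =
          ‖W - (W - ((Ms3 (Yf k T) N (dv (1 / 2)) S c : ℝ) : ℂ))‖ := by
            congr 1; ring
        _ ≤ ‖W‖ + ‖W - ((Ms3 (Yf k T) N (dv (1 / 2)) S c : ℝ) : ℂ)‖ := norm_sub_le _ _
        _ ≤ ‖W‖ + (2 + (c' - c1) / 2 * P) := by linarith
    rw [Complex.norm_real] at h1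
    have h3 := le_trans (Real.le_norm_self _) h1
    have h4 : c' * P ≤ ‖W‖ + (2 + (c' - c1) / 2 * P) := hcr.trans h3
    have h5 : 2 ≤ (c' - c1) / 2 * P :=
      l4.trans (mul_le_mul_of_nonneg_left hP1 (by linarith))
    linarith
  have hho := hold7 hδ (PG_Af N (dv (1 / 2))) (PG_Cf S c) hν (k := k)
  have hH0 : 0 ≤ H := setIntegral_nonneg measurableSet_Ioi fun t ht =>
    mul_nonneg (om_nonneg k hδ (le_of_lt ht)) (by positivity)
  have hK0 : 0 ≤ K := setIntegral_nonneg measurableSet_Ioi fun t ht =>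
    mul_nonneg (om_nonneg k hδ (le_of_lt ht)) (by positivity)
  have hfin : (c1 * P) ^ 2 ≤ ((6 * ν⁻¹ * H + ν ^ 6 * (κ * R)) / 7) * (n1 * q) := by
    refine (pow_le_pow_left₀ (by positivity) hWlow 2).trans (hho.trans ?_)
    apply mul_le_mul _ hNn1 hNn0 _
    · have : ν ^ 6 * K ≤ ν ^ 6 * (κ * R) := mul_le_mul_of_nonneg_left hAk (by positivity)
      change (6 * ν⁻¹ * H + ν ^ 6 * K) / 7 ≤ _
      linarith
    · have : 0 ≤ ν ^ 6 * (κ * R) := by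
        have := hK0.trans hAk
        positivity
      positivity
  have h7 : c1 ^ 2 * R ≤ ((6 * ν⁻¹ * H + ν ^ 6 * (κ * R)) / 7) * n1 := by
    have h8 : (c1 * P) ^ 2 = (c1 ^ 2 * R) * q := by rw [mul_pow, hPq]; ring
    rw [h8] at hfin
    have h9 : (c1 ^ 2 * R) * q ≤ (((6 * ν⁻¹ * H + ν ^ 6 * (κ * R)) / 7) * n1) * q := by
      linarith
    exact le_of_mul_le_mul_right h9 hq0
  have h10 : c1 ^ 2 / n1 * R ≤ (6 * ν⁻¹ * H + ν ^ 6 * (κ * R)) / 7 := by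
    rw [div_mul_eq_mul_div, div_le_iff₀ hn1]
    exact h7
  have h11 : 7 / 6 * ν * ((6 * ν⁻¹ * H + ν ^ 6 * (κ * R)) / 7) = H + 7 / 6 * ν * (ν ^ 6 * κ / 7) * R := by
    field_simp
  have h12 := mul_le_mul_of_nonneg_left h10 (show 0 ≤ 7 / 6 * ν by positivity)
  rw [h11] at h12
  calc 7 / 6 * ν * (c1 ^ 2 / n1 - ν ^ 6 * κ / 7) * R =
      7 / 6 * ν * (c1 ^ 2 / n1 * R) - 7 / 6 * ν * (ν ^ 6 * κ / 7) * R := by ring
    _ ≤ H := by linarith

end
end Pool.Agent.Y756.T
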