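import Pool.Agent.Y756.T.Int
import Pool.Agent.H306R2.SM.Defs

set_option autoImplicit false

/-! The weight of the correlation for the twisted third moment. -/

namespace Pool.Agent.Y756.T

open Finset Filter Topology Pool.Agent.H306R2 Pool.Agent.TH535.MA
open Pool.Agent.TH535 (dv_eq inv_eq)
open Pool.Agent.H306R2.SM (psi)

noncomputable section

open Classical in
/-- local weights of the correlation; the variables are `h₁, g, l, n₁` -/
def lamC (a : ℝ) (p : ℕ) (v : Fin 4 → ℕ) : ℝ :=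
  if (v 0 = 0 ∨ v 3 = 0) ∧ (v 0 + v 1 = 0 ∨ v 2 = 0) then
    rl (a + 2) (1 / (p : ℝ)) (v 0 + v 1) * lc a (v 1 + v 3) *
      (1 + (v 0 : ℝ) * (1 - 1 / (p : ℝ))) *
      (1 / (p : ℝ)) ^ (v 0 + v 1 + v 2 + v 3) else 0

/-- the exponents -/
def mC (a : ℝ) : Fin 4 → ℝ := ![2 * (a + 2), (a + 2) * a, 1, a]

lemma mC_pos {a : ℝ} (ha : 0 < a) (i : Fin 4) : 0 < mC a i := by
  fin_cases i
  · show 0 < 2 * (a + 2); positivity
  · show 0 < (a + 2) * a; positivity
  · show (0 : ℝ) < 1; norm_num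
  · show 0 < a; exact ha

lemma mC_sum (a : ℝ) : ∑ i, mC a i = 2 * (a + 2) + (a + 2) * a + 1 + a := by
  rw [Fin.sum_univ_four]; rfl

lemma lc_two (n : ℕ) : lc 2 n = n + 1 := by
  have h := lc_cum 1 n
  simp only [lc_one_left] at h
  rw [show (1 : ℝ) + 1 = 2 by norm_num] at h
  rw [← h]
  simp

theorem lamC_LW {a : ℝ} (ha : 0 < a) : LW (mC a) (lamC a) ∧
    ∀ p : ℕ, p.Prime → Summable (lamC a p) := by
  have hc : 1 ≤ a + 2 := by linarith
  have hc0 : 0 ≤ a + 2 := by linarith
  refine LW_of (A := a + 2) (K := 2 ^ (a + 2)) _ _ ?_ ?_ ?_ ?_ hc (by positivity) ?_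
  · intro i; exact (mC_pos ha i).le
  · intro p hp v
    obtain ⟨h0, h1, -⟩ := prime_lt hp
    unfold lamC
    split_ifs
    · have h2 : 0 ≤ 1 - 1 / (p : ℝ) := by linarith
      exact mul_nonneg (mul_nonneg (mul_nonneg (rl_nonneg hc0 h0.le h1 _) (lc_nonneg ha.le _))
        (by positivity)) (by positivity)
    · exact le_rfl
  · intro p hp
    obtain ⟨h0, h1, -⟩ := prime_lt hp
    unfold lamC
    have hr0 : rl (a + 2) (p : ℝ)⁻¹ 0 = 1 := by rw [← one_div]; exact rl_zero h0 h1
    rw [if_pos ⟨Or.inl (by simp), Or.inl (by simp)⟩]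
    simp [hr0, lc_zero]
  · refine ⟨2 * (a + 2) ^ 2 + (a + 2) + (a + 2) ^ 2 * a, fun p hp i => ?_⟩
    obtain ⟨h0, h1, -⟩ := prime_lt hp
    have hp0 : (0 : ℝ) < p := by exact_mod_cast hp.pos
    have g1 := rl_one_le hc h0 h1
    have g2 := rl_one_ge hc h0 h1
    have g3 := rl_nonneg (c := a + 2) hc0 h0.le h1 1
    have e2 : (2 * (a + 2) ^ 2 + (a + 2) + (a + 2) ^ 2 * a) / (p : ℝ) ^ 2 =
        (2 * (a + 2) ^ 2 + (a + 2) + (a + 2) ^ 2 * a) * (1 / (p : ℝ)) ^ 2 := by
      rw [one_div, inv_pow]; ring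
    rw [e2]
    have e3 : ∀ y : ℝ, y / (p : ℝ) = y * (1 / (p : ℝ)) := fun y => by rw [mul_one_div]
    fin_cases i
    · have e1 : lamC a p (Pi.single 0 1) = rl (a + 2) (1 / (p : ℝ)) 1 * (2 - 1 / (p : ℝ)) *
          (1 / (p : ℝ)) := by
        unfold lamC
        rw [if_pos ⟨Or.inr (by simp), Or.inr (by simp)⟩]
        simp [lc_zero]
        left; left
        ring
      show |lamC a p (Pi.single 0 1) - 2 * (a + 2) / p| ≤ _
      rw [e1, e3 (2 * (a + 2))]
      set x := 1 / (p : ℝ)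
      set r := rl (a + 2) x 1
      rw [abs_le]
      have h6 : (a + 2 - r) * x ≤ ((a + 2) ^ 2 * x) * x :=
        mul_le_mul_of_nonneg_right (by linarith) h0.le
      have h7 : 0 ≤ (a + 2) ^ 2 * a * x ^ 2 := by positivity
      have h8 : 0 ≤ (a + 2 - r) * x := mul_nonneg (by linarith) h0.le
      have h9 : r * x ^ 2 ≤ (a + 2) * x ^ 2 := mul_le_mul_of_nonneg_right g1 (by positivity)
      have h10 : 0 ≤ r * x ^ 2 := by positivity
      have h11 : 0 ≤ (a + 2) ^ 2 * x ^ 2 := by positivity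
      have h12 : 0 ≤ (a + 2) * x ^ 2 := by positivity
      constructor <;> nlinarith
    · have e1 : lamC a p (Pi.single 1 1) = rl (a + 2) (1 / (p : ℝ)) 1 * a * (1 / (p : ℝ)) := by
        unfold lamC
        rw [if_pos ⟨Or.inl (by simp), Or.inr (by simp)⟩]
        simp [lc_one]
      show |lamC a p (Pi.single 1 1) - ((a + 2) * a) / p| ≤ _
      rw [e1, e3 ((a + 2) * a)]
      set x := 1 / (p : ℝ)
      set r := rl (a + 2) x 1
      rw [abs_le]
      have h6 : (a + 2 - r) * (a * x) ≤ ((a + 2) ^ 2 * x) * (a * x) :=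
        mul_le_mul_of_nonneg_right (by linarith) (by positivity)
      have h7 : 0 ≤ (a + 2) ^ 2 * x ^ 2 := by positivity
      have h8 : 0 ≤ (a + 2 - r) * (a * x) := mul_nonneg (by linarith) (by positivity)
      have h12 : 0 ≤ (a + 2) * x ^ 2 := by positivity
      constructor <;> nlinarith
    · have e1 : lamC a p (Pi.single 2 1) = 1 / (p : ℝ) := by
        unfold lamC
        have hr0 : rl (a + 2) (p : ℝ)⁻¹ 0 = 1 := by rw [← one_div]; exact rl_zero h0 h1
        rw [if_pos ⟨Or.inl (by simp), Or.inl (by simp)⟩]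
        simp [hr0, lc_zero]
      show |lamC a p (Pi.single 2 1) - 1 / p| ≤ _
      rw [e1]
      simp only [sub_self, abs_zero]
      positivity
    · have e1 : lamC a p (Pi.single 3 1) = a * (1 / (p : ℝ)) := by
        unfold lamC
        have hr0 : rl (a + 2) (p : ℝ)⁻¹ 0 = 1 := by rw [← one_div]; exact rl_zero h0 h1
        rw [if_pos ⟨Or.inl (by simp), Or.inl (by simp)⟩]
        simp [hr0, lc_one]
      show |lamC a p (Pi.single 3 1) - a / p| ≤ _
      rw [e1, e3 a, sub_self, abs_zero]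
      positivity
  · intro p hp v
    obtain ⟨h0, h1, h2⟩ := prime_lt hp
    have hn := fun m => one_le_lc hc m
    have k2 := rl_le hc0 le_rfl hc h0 h2 (v 0 + v 1)
    have k3 := rl_nonneg (c := a + 2) hc0 h0.le h1 (v 0 + v 1)
    have k5 : lc a (v 1 + v 3) ≤ lc (a + 2) (v 1) * lc (a + 2) (v 3) :=
      (lc_mono ha.le (by linarith) _).trans (sub_mul' hc _ _)
    have k6 := sub_mul' hc (v 0) (v 1)
    have k7 := lc_nonneg ha.le (v 1 + v 3)
    have k8 : 1 + (v 0 : ℝ) * (1 - 1 / (p : ℝ)) ≤ lc (a + 2) (v 0) := by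
      have := lc_mono (by norm_num : (0:ℝ) ≤ 2) (by linarith : (2:ℝ) ≤ a + 2) (v 0)
      rw [lc_two] at this
      have h3 : (0:ℝ) ≤ v 0 := Nat.cast_nonneg _
      nlinarith
    have k9 : 0 ≤ 1 + (v 0 : ℝ) * (1 - 1 / (p : ℝ)) := by
      have h3 : (0:ℝ) ≤ v 0 := Nat.cast_nonneg _
      have : 0 ≤ 1 - 1 / (p : ℝ) := by linarith
      positivity
    have z0 := hn (v 0)
    have z1 := hn (v 1)
    have z2 := hn (v 2)
    have z3 := hn (v 3)
    rw [Fin.prod_univ_four]
    unfold lamC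
    split_ifs
    · calc rl (a + 2) (1 / (p : ℝ)) (v 0 + v 1) * lc a (v 1 + v 3) *
            (1 + (v 0 : ℝ) * (1 - 1 / (p : ℝ))) *
            (1 / (p : ℝ)) ^ (v 0 + v 1 + v 2 + v 3)
          ≤ (2 ^ (a + 2) * (lc (a + 2) (v 0) * lc (a + 2) (v 1))) *
            (lc (a + 2) (v 1) * lc (a + 2) (v 3)) * lc (a + 2) (v 0) *
            (1 / (p : ℝ)) ^ (v 0 + v 1 + v 2 + v 3) := by
            gcongr
            exact k2.trans (by gcongr)
        _ = 2 ^ (a + 2) * (lc (a + 2) (v 0) ^ 2 * (lc (a + 2) (v 1)) ^ 2 * 1 * lc (a + 2) (v 3)) *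
            (1 / (p : ℝ)) ^ (v 0 + v 1 + v 2 + v 3) := by ring
        _ ≤ 2 ^ (a + 2) * (lc (a + 2) (v 0) ^ 2 * (lc (a + 2) (v 1)) ^ 2 * lc (a + 2) (v 2) ^ 2 *
            lc (a + 2) (v 3) ^ 2) * (1 / (p : ℝ)) ^ (v 0 + v 1 + v 2 + v 3) := by
            gcongr
            · nlinarith
            · nlinarith
        _ = _ := by rw [pow_add, pow_add, pow_add]; ring
    · positivity

/-- the local sum of the correlation -/
theorem lamC_tsum {a : ℝ} (ha : 0 < a) {p : ℕ} (hp : p.Prime) :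
    ∑' v, lamC a p v = (1 - 1 / (p : ℝ)) ^ (a + 4) * ∑' m : ℕ, lc (a + 3) m ^ 2 * (1 / (p : ℝ)) ^ m := by
  obtain ⟨h0, h1, -⟩ := prime_lt hp
  have hS := (lamC_LW ha).2 p hp
  have hnn := (lamC_LW ha).1.nonneg p hp
  set x := 1 / (p : ℝ) with hx
  have hcs : 0 < a + 2 := by linarith
  have hx1 : 0 < 1 - x := by linarith
  have hsq : Summable (fun α : ℕ => rl (a + 2) x α ^ 2 * x ^ α) := by
    refine ((Sg_sq_summable hcs h0 h1).mul_left (((1 - x) ^ (a + 2)) ^ 2)).congr fun α => ?_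
    unfold rl; ring
  have hS4 : Summable (lamC a p ∘ e4) := (Equiv.summable_iff e4 (f := lamC a p)).2 hS
  have key : ∑' v, lamC a p v = ∑' y : ℕ × ℕ, ∑' z : ℕ × ℕ, lamC a p (e4 (y, z)) := by
    have h1 := Equiv.tsum_eq e4 (lamC a p)
    have h2 := hS4.tsum_prod
    rw [← h1]
    exact h2
  rw [key]
  set g : ℕ × ℕ → ℝ := fun y => rl (a + 2) x (y.1 + y.2) * (1 + (y.1 : ℝ) * (1 - x)) *
    x ^ (y.1 + y.2) *
    ((if y.1 + y.2 = 0 then (1 - x)⁻¹ else 1) * (if y.1 = 0 then Sg a x y.2 else lc a y.2)) with hg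
  have hin : ∀ y : ℕ × ℕ, HasSum (fun z : ℕ × ℕ => lamC a p (e4 (y, z))) (g y) := by
    intro y
    have hA := hasSum_if_zero (P := y.1 + y.2 = 0) (fun n : ℕ => x ^ n) _ (geo h0 h1)
    have hB := hasSum_if_zero (P := y.1 = 0) (fun n : ℕ => lc a (y.2 + n) * x ^ n) _
      (shift_summable h0 h1 y.2).hasSum
    simp only [pow_zero, mul_one, add_zero] at hA hB
    have hAB := HasSum.mul hA hB (hA.summable.mul_of_nonneg hB.summable (fun n => by
      simp only [Pi.zero_apply]; split_ifs <;> positivity) (fun n => by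
      simp only [Pi.zero_apply]
      split_ifs
      · exact mul_nonneg (lc_nonneg ha.le _) (by positivity)
      · exact le_rfl))
    have h3 := hAB.mul_left (rl (a + 2) x (y.1 + y.2) * (1 + (y.1 : ℝ) * (1 - x)) *
      x ^ (y.1 + y.2))
    refine h3.congr_fun fun z => ?_
    unfold lamC e4
    simp only [Equiv.coe_fn_mk, Matrix.cons_val_zero, Matrix.cons_val_one, Matrix.cons_val]
    rw [← hx]
    by_cases c1 : y.1 = 0 ∨ z.2 = 0
    · by_cases c2 : y.1 + y.2 = 0 ∨ z.1 = 0
      · rw [if_pos ⟨c1, c2⟩, if_pos c2, if_pos c1, pow_add, pow_add x (y.1 + y.2) z.1]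
        ring
      · rw [if_neg (fun h => c2 h.2), if_neg c2]; ring
    · rw [if_neg (fun h => c1 h.1), if_neg c1]; ring
  rw [tsum_congr fun y => (hin y).tsum_eq]
  have hgs : Summable g := by
    refine hS4.prod.congr fun y => ?_
    exact (hin y).tsum_eq
  rw [tsum_anti g hgs]
  have hout : ∀ α : ℕ, ∑ y ∈ antidiagonal α, g y =
      (1 - x) ^ (-a) * (rl (a + 2) x α ^ 2 * x ^ α + (if α = 0 then x / (1 - x) else 0)) := by
    intro α
    have e1 : ∑ y ∈ antidiagonal α, g y = rl (a + 2) x α * x ^ α *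
        ((if α = 0 then (1 - x)⁻¹ else 1) *
          ∑ y ∈ antidiagonal α, (if y.1 = 0 then Sg a x y.2 else
            lc a y.2 * (1 + (y.1 : ℝ) * (1 - x)))) := by
      rw [mul_sum, mul_sum]
      refine sum_congr rfl fun y hy => ?_
      rw [HasAntidiagonal.mem_antidiagonal] at hy
      simp only [hg]
      rw [hy]
      by_cases hy0 : y.1 = 0
      · rw [if_pos hy0, if_pos hy0, hy0]; push_cast; ring
      · rw [if_neg hy0, if_neg hy0]; ring
    have e2 : ∑ y ∈ antidiagonal α, (if y.1 = 0 then Sg a x y.2 else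
          lc a y.2 * (1 + (y.1 : ℝ) * (1 - x))) =
        ∑ i ∈ range α, lc a i * (1 + ((α : ℝ) - i) * (1 - x)) + Sg a x α := by
      rw [Finset.Nat.sum_antidiagonal_eq_sum_range_succ_mk, sum_range_succ']
      simp only [Nat.succ_ne_zero, if_false, if_true, tsub_zero]
      congr 1
      rw [← Finset.sum_range_reflect]
      refine sum_congr rfl fun i hi => ?_
      rw [mem_range] at hi
      have h5 : α - 1 - i + 1 = α - i := by omega
      have h6 : α - (α - i) = i := by omega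
      rw [h5, h6]
      have h7 : ((α - i : ℕ) : ℝ) = (α : ℝ) - i := by
        rw [Nat.cast_sub hi.le]
      rw [h7]
    have e3 : (1 - x) ^ 2 * Sg (a + 2) x α = (1 - x) ^ (-a) * rl (a + 2) x α := by
      unfold rl
      have : (1 - x) ^ (-a) * (1 - x) ^ (a + 2) = (1 - x) ^ 2 := by
        rw [← Real.rpow_add hx1, ← Real.rpow_natCast]
        congr 1
        push_cast; ring
      calc (1 - x) ^ 2 * Sg (a + 2) x α = ((1 - x) ^ (-a) * (1 - x) ^ (a + 2)) * Sg (a + 2) x α := by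
            rw [this]
        _ = _ := by ring
    rw [e1, e2, cross1 h0 h1, e3]
    by_cases hα : α = 0
    · subst hα
      rw [if_pos rfl, if_pos rfl, rl_zero h0 h1]
      have : (1 - x) ≠ 0 := by linarith
      field_simp
      ring
    · rw [if_neg hα, if_neg hα]; ring
  rw [tsum_congr hout, tsum_mul_left, hsq.tsum_add (hasSum_ite_eq 0 _).summable, tsum_ite_eq,
    rl_sq hcs h0 h1, ← mul_assoc, ← Real.rpow_add hx1]
  have e5 : -a + 2 * (a + 2) = a + 4 := by ring
  have e6 : a + 2 + 1 = a + 3 := by ring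
  rw [e5, e6]

theorem lamC_const {a : ℝ} (ha : 0 < a) : aF (a + 3) = ∏' p : Nat.Primes,
    ((1 - 1 / (p : ℝ)) ^ (∑ i, mC a i) * ∑' v : Fin 4 → ℕ, lamC a p v) := by
  refine prod_aF (κ := a + 3) (S := fun p => ∑' v : Fin 4 → ℕ, lamC a p v) ?_
  intro p hp
  obtain ⟨h0, h1, -⟩ := prime_lt hp
  rw [lamC_tsum ha hp, ← mul_assoc, ← Real.rpow_add (by linarith), mC_sum]
  congr 2
  ring

lemma psi_eq {P : Finset ℕ} {n : ℕ} (hP : n.primeFactors ⊆ P) :
    psi n = ∏ p ∈ P, (1 + (n.factorization p : ℝ) * (1 - 1 / (p : ℝ))) := by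
  unfold psi
  unfold Finsupp.prod
  rw [Nat.support_factorization]
  refine prod_subset hP fun p _ hp => ?_
  have : n.factorization p = 0 := by
    rw [← Finsupp.notMem_support_iff, Nat.support_factorization]; exact hp
  rw [this]
  simp

open Classical in
theorem mw_lamC (a : ℝ) (b : Fin 4 → ℕ) :
    mw (lamC a) b = if (∀ i, b i ≠ 0) ∧ Nat.Coprime (b 0) (b 3) ∧ Nat.Coprime (b 0 * b 1) (b 2) then
      rr (a + 2) (b 0 * b 1) * dv a (b 1 * b 3) * psi (b 0) *
        (1 / ((b 0 * b 1 * b 2 * b 3 : ℕ) : ℝ)) else 0 := by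
  unfold mw
  by_cases hb : ∀ x, b x ≠ 0
  · rw [if_pos hb]
    set P := (∏ x, b x).primeFactors with hPdef
    have hprod : (∏ x, b x) ≠ 0 := prod_ne_zero_iff.2 fun x _ => hb x
    have hsub : ∀ x, (b x).primeFactors ⊆ P := fun x =>
      Nat.primeFactors_mono (dvd_prod_of_mem b (mem_univ x)) hprod
    have hPp : ∀ p ∈ P, p.Prime := fun p hp => Nat.prime_of_mem_primeFactors hp
    have h01 : b 0 * b 1 ≠ 0 := mul_ne_zero (hb 0) (hb 1)
    have h13 : b 1 * b 3 ≠ 0 := mul_ne_zero (hb 1) (hb 3)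
    have h012 : b 0 * b 1 * b 2 ≠ 0 := mul_ne_zero h01 (hb 2)
    have h0123 : b 0 * b 1 * b 2 * b 3 ≠ 0 := mul_ne_zero h012 (hb 3)
    have hmul : ∀ x y : ℕ, x ≠ 0 → y ≠ 0 → x.primeFactors ⊆ P → y.primeFactors ⊆ P →
        (x * y).primeFactors ⊆ P := by
      intro x y hx hy h1 h2
      rw [Nat.primeFactors_mul hx hy]
      exact union_subset h1 h2
    have s01 := hmul _ _ (hb 0) (hb 1) (hsub 0) (hsub 1)
    have s13 := hmul _ _ (hb 1) (hb 3) (hsub 1) (hsub 3)
    have s012 := hmul _ _ h01 (hb 2) s01 (hsub 2)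
    have s0123 := hmul _ _ h012 (hb 3) s012 (hsub 3)
    by_cases hc : Nat.Coprime (b 0) (b 3) ∧ Nat.Coprime (b 0 * b 1) (b 2)
    · rw [if_pos ⟨hb, hc⟩]
      have hloc : ∀ p ∈ P, lamC a p (fun x => (b x).factorization p) =
          rl (a + 2) (1 / (p : ℝ)) ((b 0 * b 1).factorization p) *
            lc a ((b 1 * b 3).factorization p) *
            (1 + ((b 0).factorization p : ℝ) * (1 - 1 / (p : ℝ))) *
            (1 / (p : ℝ)) ^ ((b 0 * b 1 * b 2 * b 3).factorization p) := by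
        intro p _
        unfold lamC
        have e01 : (b 0 * b 1).factorization p = (b 0).factorization p + (b 1).factorization p := by
          rw [Nat.factorization_mul (hb 0) (hb 1), Finsupp.add_apply]
        have e13 : (b 1 * b 3).factorization p = (b 1).factorization p + (b 3).factorization p := by
          rw [Nat.factorization_mul (hb 1) (hb 3), Finsupp.add_apply]
        have e0 : (b 0 * b 1 * b 2 * b 3).factorization p = (b 0).factorization p +
            (b 1).factorization p + (b 2).factorization p + (b 3).factorization p := by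
          rw [Nat.factorization_mul h012 (hb 3), Nat.factorization_mul h01 (hb 2), Finsupp.add_apply,
            Finsupp.add_apply, e01]
        have c2 := fact_zero_of_coprime (p := p) hc.2
        rw [e01] at c2
        rw [if_pos ⟨fact_zero_of_coprime hc.1, c2⟩, e01, e13, e0]
      rw [prod_congr rfl hloc, prod_mul_distrib, prod_mul_distrib, prod_mul_distrib,
        ← rr_eq (a + 2) h01 hPp s01,
        ← dv_eq a h13 s13, ← psi_eq (hsub 0), ← inv_eq h0123 s0123]
    · rw [if_neg (fun h => hc h.2)]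
      by_cases c1 : Nat.Coprime (b 0) (b 3)
      · have c2 : ¬ Nat.Coprime (b 0 * b 1) (b 2) := fun h => hc ⟨c1, h⟩
        obtain ⟨p, hp, h1, h2, h3⟩ := exists_prime_of_not_coprime h01 (hb 2) c2
        refine prod_eq_zero (i := p) ?_ ?_
        · rw [hPdef, Nat.mem_primeFactors]
          refine ⟨hp, ?_, hprod⟩
          rw [Fin.prod_univ_four]
          exact (h1.trans (Nat.dvd_mul_right _ _)).trans (Nat.dvd_mul_right _ _)
        · unfold lamC
          rw [if_neg]
          rintro ⟨-, h | h⟩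
          · rw [Nat.factorization_mul (hb 0) (hb 1), Finsupp.add_apply] at h2
            exact h2 h
          · exact h3 h
      · obtain ⟨p, hp, h1, h2, h3⟩ := exists_prime_of_not_coprime (hb 0) (hb 3) c1
        refine prod_eq_zero (i := p) ?_ ?_
        · rw [hPdef, Nat.mem_primeFactors]
          exact ⟨hp, h1.trans (dvd_prod_of_mem b (mem_univ 0)), hprod⟩
        · unfold lamC
          rw [if_neg]
          rintro ⟨h | h, -⟩
          · exact h2 h
          · exact h3 h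
  · rw [if_neg hb, if_neg (fun h => hb h.1)]

end

end Pool.Agent.Y756.T
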