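import Pool.Agent.TH535.Kar
import Pool.Agent.H345R2.SMT11

set_option autoImplicit false
set_option linter.unusedSectionVars false

/-! The limit theorem for multiplicative weights times the sum of the squares of the logarithms of
the primes dividing one of the variables. -/

namespace Pool.Agent.Y756.T

open Finset Filter Topology MeasureTheory Pool.Agent.H306R2 Pool.Agent.TH535.MA
open Pool.Agent.TH535 (posI GdI)
open Pool.Agent.H306R2.SM (Qf)
open Pool.Agent.H345.SMLoc (Dk Dk_summable D2_tendsto Qf_hasSum lsq_summable plog Qf_nonneg)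

noncomputable section

variable {ι : Type} [Fintype ι] [DecidableEq ι] {m : ι → ℝ} {lam : ℕ → (ι → ℕ) → ℝ}

open Classical in
/-- the local weights without the prime `p₀` in the variable `i₀` -/
def lamR (lam : ℕ → (ι → ℕ) → ℝ) (i0 : ι) (p0 : ℕ) (q : ℕ) (v : ι → ℕ) : ℝ :=
  if q = p0 ∧ v i0 ≠ 0 then 0 else lam q v

lemma lamR_le (hn : ∀ p : ℕ, p.Prime → ∀ v, 0 ≤ lam p v) (i0 : ι) (p0 : ℕ) {q : ℕ} (hq : q.Prime)
    (v : ι → ℕ) : 0 ≤ lamR lam i0 p0 q v ∧ lamR lam i0 p0 q v ≤ lam q v := by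
  unfold lamR
  split_ifs
  · exact ⟨le_rfl, hn q hq v⟩
  · exact ⟨hn q hq v, le_rfl⟩

lemma lamR_LW (H : LW m lam) (i0 : ι) {p0 : ℕ} (hp0 : p0.Prime) : LW m (lamR lam i0 p0) := by
  obtain ⟨C, hC⟩ := H.first
  obtain ⟨C', hC'⟩ := H.second
  have hs2 : ∀ p : ℕ, p.Prime → Summable fun v : ι → ℕ => (if 2 ≤ ∑ i, v i then lam p v else 0) := by
    intro p hp
    refine Summable.of_nonneg_of_le (fun v => ?_) (fun v => ?_) (H.sum p hp)
    · split_ifs
      · exact H.nonneg p hp v
      · exact le_refl _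
    · split_ifs
      · exact le_refl _
      · exact H.nonneg p hp v
  have hs3 : ∀ p : ℕ, p.Prime → Summable (lamR lam i0 p0 p) := fun p hp =>
    Summable.of_nonneg_of_le (fun v => (lamR_le H.nonneg i0 p0 hp v).1)
      (fun v => (lamR_le H.nonneg i0 p0 hp v).2) (H.sum p hp)
  exact
  { mnn := H.mnn
    nonneg := fun p hp v => (lamR_le H.nonneg i0 p0 hp v).1
    zero := fun p hp => by
      unfold lamR
      rw [if_neg (by simp)]
      exact H.zero p hp
    sum := hs3
    first := by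
      refine ⟨|C| + m i0 * p0, fun p hp i => ?_⟩
      have hpos : (0 : ℝ) < p := by exact_mod_cast hp.pos
      have hm := H.mnn i0
      have h1 := hC p hp i
      have h2 : |lam p (Pi.single i 1) - m i / p| ≤ (|C| + m i0 * p0) / (p : ℝ) ^ 2 := by
        refine h1.trans ?_
        have : 0 ≤ m i0 * p0 := by positivity
        gcongr
        linarith [le_abs_self C]
      unfold lamR
      split_ifs with h
      · obtain ⟨rfl, h3⟩ := h
        have hi : i = i0 := by
          by_contra hne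
          apply h3
          rw [Pi.single_eq_of_ne (Ne.symm hne)]
        subst hi
        rw [zero_sub, abs_neg, abs_of_nonneg (by positivity), div_le_div_iff₀ hpos (by positivity)]
        have h4 : 0 ≤ |C| * p := by positivity
        nlinarith
      · exact h2
    second := by
      refine ⟨C', fun p hp => le_trans ?_ (hC' p hp)⟩
      refine Summable.tsum_le_tsum (fun v => ?_) ?_ (hs2 p hp)
      · split_ifs
        · exact (lamR_le H.nonneg i0 p0 hp v).2
        · exact le_rfl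
      · refine Summable.of_nonneg_of_le (fun v => ?_) (fun v => ?_) (hs3 p hp)
        · split_ifs
          · exact (lamR_le H.nonneg i0 p0 hp v).1
          · exact le_rfl
        · split_ifs
          · exact le_rfl
          · exact (lamR_le H.nonneg i0 p0 hp v).1 }

open Classical in
lemma mw_lamR (lam : ℕ → (ι → ℕ) → ℝ) (i0 : ι) {p0 : ℕ} (hp0 : p0.Prime) (b : ι → ℕ) :
    mw (lamR lam i0 p0) b = if p0 ∣ b i0 then 0 else mw lam b := by
  unfold mw
  by_cases hb : ∀ i, b i ≠ 0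
  · rw [if_pos hb, if_pos hb]
    have hprod : (∏ x, b x) ≠ 0 := prod_ne_zero_iff.2 fun x _ => hb x
    by_cases hd : p0 ∣ b i0
    · rw [if_pos hd]
      refine prod_eq_zero (i := p0) ?_ ?_
      · rw [Nat.mem_primeFactors]
        exact ⟨hp0, hd.trans (dvd_prod_of_mem b (mem_univ i0)), hprod⟩
      · unfold lamR
        rw [if_pos]
        exact ⟨rfl, (hp0.factorization_pos_of_dvd (hb i0) hd).ne'⟩
    · rw [if_neg hd]
      refine prod_congr rfl fun q _ => ?_
      unfold lamR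
      rw [if_neg]
      rintro ⟨rfl, h2⟩
      exact h2 (Nat.factorization_eq_zero_of_not_dvd hd)
  · rw [if_neg hb, if_neg hb]
    split_ifs <;> rfl

/-- the local factor without `p₀` -/
def Rl (lam : ℕ → (ι → ℕ) → ℝ) (i0 : ι) (s : ι → ℝ) (p : ℕ) : ℝ := loc (lamR lam i0 p) s p

lemma rem_tsum (H : LW m lam) (i0 : ι) (s : ι → ℝ) (hs : ∀ i, 0 < s i) (p : Nat.Primes) :
    (∑' b, FF (lamR lam i0 p) s b) * loc lam s p = (∑' b, FF lam s b) * Rl lam i0 s p := by
  classical
  have H' := lamR_LW H i0 p.2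
  have h1 : HasProd (fun q : Nat.Primes => loc (lamR lam i0 p) s q)
      (∑' b, FF (lamR lam i0 p) s b) := (mw_euler m _ H' s hs).2
  have h2 : HasProd (fun q : Nat.Primes => loc lam s q) (∑' b, FF lam s b) :=
    (mw_euler m _ H s hs).2
  have h3 : HasProd (fun q : Nat.Primes => if q = p then loc lam s q else 1) (loc lam s p) := by
    have h4 := hasProd_single (f := fun q : Nat.Primes => if q = p then loc lam s q else 1) p
      (fun q hq => if_neg hq)
    simpa using h4
  have h5 : HasProd (fun q : Nat.Primes => if q = p then Rl lam i0 s q else 1) (Rl lam i0 s p) := by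
    have h4 := hasProd_single (f := fun q : Nat.Primes => if q = p then Rl lam i0 s q else 1) p
      (fun q hq => if_neg hq)
    simpa using h4
  refine HasProd.unique (h1.mul h3) ((h2.mul h5).congr_fun fun q => ?_)
  by_cases hq : q = p
  · subst hq
    rw [if_pos rfl, if_pos rfl]
    unfold Rl
    ring
  · rw [if_neg hq, if_neg hq, mul_one, mul_one]
    unfold loc gl
    refine tsum_congr fun v => ?_
    congr 1
    unfold lamR
    rw [if_neg]
    rintro ⟨h, -⟩
    exact hq (Nat.Primes.coe_nat_injective h)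

/-- the prime sum -/
def Sq (lam : ℕ → (ι → ℕ) → ℝ) (i0 : ι) (s : ι → ℝ) : ℝ :=
  ∑' p : Nat.Primes, Real.log p ^ 2 * (1 - Rl lam i0 s p / loc lam s p)

lemma frac_close (H : LW m lam) (i0 : ι) : ∃ K : ℝ, 0 ≤ K ∧ ∀ s : ι → ℝ, (∀ i, 0 < s i) →
    ∀ p : Nat.Primes, Rl lam i0 s p ≤ loc lam s p ∧
      |1 - Rl lam i0 s p / loc lam s p - m i0 * ((p:ℕ):ℝ) ^ (-1 - s i0)| ≤
        K * (1 / ((p:ℕ):ℝ)) ^ 2 := by
  classical
  obtain ⟨C, hC⟩ := H.first
  obtain ⟨C', hC'⟩ := H.second
  set M := ∑ i, m i with hM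
  have hM0 : 0 ≤ M := sum_nonneg fun i _ => H.mnn i
  set n : ℝ := (Fintype.card ι : ℝ) with hn
  have hn0 : 0 ≤ n := by rw [hn]; positivity
  set K0 := M + n * |C| + |C'| with hK0
  have hK00 : 0 ≤ K0 := by positivity
  refine ⟨|C| + |C'| + K0 ^ 2, by positivity, fun s hs p => ?_⟩
  have hp := p.2
  have hp0 : (0:ℝ) < (p:ℕ) := by exact_mod_cast hp.pos
  have hp1 : (1:ℝ) ≤ (p:ℕ) := by exact_mod_cast hp.one_lt.le
  set x : ℝ := 1 / ((p:ℕ):ℝ) with hx
  have hx0 : 0 < x := by positivity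
  have hx1 : x ≤ 1 := by rw [hx, div_le_one hp0]; exact hp1
  have hdiv : ∀ y : ℝ, y / ((p:ℕ):ℝ) ^ 2 = y * x ^ 2 := fun y => by rw [hx, one_div, inv_pow]; ring
  have hdiv1 : ∀ y : ℝ, y / ((p:ℕ):ℝ) = y * x := fun y => by rw [hx]; ring
  have H' := lamR_LW H i0 p.2
  have sL := gl_summable H s hs p hp
  have sR := gl_summable H' s hs p hp
  have hs2 : Summable fun v : ι → ℕ => (if 2 ≤ ∑ i, v i then lam p v else 0) := by
    refine Summable.of_nonneg_of_le (fun v => ?_) (fun v => ?_) (H.sum p hp)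
    · split_ifs
      · exact H.nonneg p hp v
      · exact le_refl _
    · split_ifs
      · exact le_refl _
      · exact H.nonneg p hp v
  have hL1 := one_le_loc H s hs hp
  have hR1 : 1 ≤ Rl lam i0 s p := one_le_loc H' s hs hp
  -- the difference
  set Δ := loc lam s p - Rl lam i0 s p with hΔ
  have hΔe : HasSum (fun v : ι → ℕ => if v i0 ≠ 0 then gl lam s p v else 0) Δ := by
    have h1 := sL.hasSum.sub sR.hasSum
    refine h1.congr_fun fun v => ?_
    unfold gl lamR
    by_cases hv : v i0 ≠ 0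
    · rw [if_pos hv, if_pos ⟨rfl, hv⟩]; ring
    · rw [if_neg hv, if_neg (fun h => hv h.2)]; ring
  set g1 := lam p (Pi.single i0 1) * ((p:ℕ):ℝ) ^ (-(s i0)) with hg1
  have hgl1 : gl lam s p (Pi.single i0 1) = g1 := by
    unfold gl
    rw [hg1]
    congr 2
    rw [Finset.sum_eq_single i0]
    · simp
    · intro j _ hj
      simp [Pi.single_eq_of_ne hj]
    · intro h; exact absurd (mem_univ _) h
  have hg1n : 0 ≤ g1 := by
    rw [hg1]
    exact mul_nonneg (H.nonneg p hp _) (by positivity)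
  have hlow : g1 ≤ Δ := by
    rw [← hΔe.tsum_eq]
    have h1 := hΔe.summable.le_tsum (Pi.single i0 1) (fun v _ => by
      split_ifs
      · exact gl_nonneg H.nonneg s hp v
      · exact le_rfl)
    rw [if_pos (by simp), hgl1] at h1
    exact h1
  have hup : Δ ≤ g1 + |C'| * x ^ 2 := by
    have h1 : HasSum (fun v : ι → ℕ => if v = Pi.single i0 1 then g1 else 0) g1 :=
      hasSum_ite_eq _ _
    have h2 := h1.add hs2.hasSum
    have h3 := hasSum_le (fun v => ?_) hΔe h2
    · refine h3.trans ?_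
      have h4 := hC' p hp
      rw [hdiv] at h4
      have h5 : C' * x ^ 2 ≤ |C'| * x ^ 2 := by
        gcongr
        exact le_abs_self C'
      linarith
    · rcases vec_cases v with h | ⟨i, h⟩ | h
      · subst h
        simp only [Pi.zero_apply, ne_eq, not_true_eq_false, if_false, sum_const_zero]
        refine add_nonneg ?_ ?_
        · split_ifs
          · exact hg1n
          · exact le_rfl
        · split_ifs
          · exact H.nonneg p hp _
          · exact le_rfl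
      · subst h
        by_cases hi : i = i0
        · subst hi
          rw [if_pos (by simp), if_pos rfl, hgl1]
          have : 0 ≤ (if 2 ≤ ∑ j, (Pi.single i 1 : ι → ℕ) j then lam p (Pi.single i 1) else 0) := by
            split_ifs
            · exact H.nonneg p hp _
            · exact le_rfl
          linarith
        · rw [if_neg (by simp [Pi.single_eq_of_ne (Ne.symm hi)])]
          have h5 : (0:ℝ) ≤ if (Pi.single i 1 : ι → ℕ) = Pi.single i0 1 then g1 else 0 := by
            split_ifs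
            · rw [hg1]
              exact mul_nonneg (H.nonneg p hp _) (by positivity)
            · exact le_rfl
          have : 0 ≤ (if 2 ≤ ∑ j, (Pi.single i 1 : ι → ℕ) j then lam p (Pi.single i 1) else 0) := by
            split_ifs
            · exact H.nonneg p hp _
            · exact le_rfl
          linarith
      · have h5 : (0:ℝ) ≤ if v = Pi.single i0 1 then g1 else 0 := by
          split_ifs
          · rw [hg1]
            exact mul_nonneg (H.nonneg p hp _) (by positivity)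
          · exact le_rfl
        rw [if_pos h]
        have h6 := gl_le H.nonneg s hs hp v
        have h8 := H.nonneg p hp v
        by_cases h7 : v i0 ≠ 0
        · rw [if_pos h7]; linarith
        · rw [if_neg h7]; linarith
  have hpw : ((p:ℕ):ℝ) ^ (-1 - s i0) = x * ((p:ℕ):ℝ) ^ (-(s i0)) := by
    rw [show (-1 - s i0) = -1 + (-(s i0)) by ring, Real.rpow_add hp0, Real.rpow_neg_one, hx, one_div]
  have hple : ((p:ℕ):ℝ) ^ (-(s i0)) ≤ 1 :=
    Real.rpow_le_one_of_one_le_of_nonpos hp1 (by linarith [hs i0])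
  have hpn : 0 ≤ ((p:ℕ):ℝ) ^ (-(s i0)) := by positivity
  have hg1c : |g1 - m i0 * ((p:ℕ):ℝ) ^ (-1 - s i0)| ≤ |C| * x ^ 2 := by
    rw [hg1, hpw, show lam p (Pi.single i0 1) * ((p:ℕ):ℝ) ^ (-(s i0)) -
      m i0 * (x * ((p:ℕ):ℝ) ^ (-(s i0))) = (lam p (Pi.single i0 1) - m i0 * x) *
        ((p:ℕ):ℝ) ^ (-(s i0)) by ring, abs_mul, abs_of_nonneg hpn]
    have h1 := hC p hp i0
    rw [hdiv, hdiv1] at h1
    have h2 : C * x ^ 2 ≤ |C| * x ^ 2 := by
      gcongr
      exact le_abs_self C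
    calc |lam p (Pi.single i0 1) - m i0 * x| * ((p:ℕ):ℝ) ^ (-(s i0)) ≤ (C * x ^ 2) * 1 := by
          apply mul_le_mul h1 hple hpn
          exact (abs_nonneg _).trans h1
      _ ≤ _ := by linarith
  have hLup : loc lam s p - 1 ≤ K0 * x := by
    have h1 := loc_le H s hs hp
    have h2 := hC' p hp
    rw [hdiv] at h2
    have h3 : ∑ i, lam p (Pi.single i 1) * ((p:ℕ):ℝ) ^ (-(s i)) ≤ ∑ i, (m i * x + |C| * x ^ 2) := by
      refine sum_le_sum fun i _ => ?_
      have h4 := hC p hp i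
      rw [hdiv, hdiv1] at h4
      have h5 := (abs_le.1 h4).2
      have h6 : C * x ^ 2 ≤ |C| * x ^ 2 := by
        gcongr
        exact le_abs_self C
      have h7 : ((p:ℕ):ℝ) ^ (-(s i)) ≤ 1 :=
        Real.rpow_le_one_of_one_le_of_nonpos hp1 (by linarith [hs i])
      have h8 := H.nonneg p hp (Pi.single i 1)
      calc lam p (Pi.single i 1) * ((p:ℕ):ℝ) ^ (-(s i)) ≤ lam p (Pi.single i 1) * 1 :=
            mul_le_mul_of_nonneg_left h7 h8
        _ ≤ _ := by linarith
    rw [sum_add_distrib, ← sum_mul, sum_const, card_univ, nsmul_eq_mul, ← hM, ← hn] at h3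
    have h9 : x ^ 2 ≤ x := by nlinarith
    have h10 : C' * x ^ 2 ≤ |C'| * x := by
      have : C' * x ^ 2 ≤ |C'| * x ^ 2 := by
        gcongr
        exact le_abs_self C'
      have h11 : |C'| * x ^ 2 ≤ |C'| * x := by gcongr
      linarith
    have h12 : n * (|C| * x ^ 2) ≤ n * |C| * x := by
      rw [← mul_assoc]
      gcongr
    rw [hK0]
    linarith
  have hΔ0 : 0 ≤ Δ := by
    rw [← hΔe.tsum_eq]
    exact tsum_nonneg fun v => by
      split_ifs
      · exact gl_nonneg H.nonneg s hp v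
      · exact le_rfl
  have hΔ1 : Δ ≤ K0 * x := by
    rw [hΔ]; linarith
  refine ⟨by linarith, ?_⟩
  set Lc := loc lam s p with hLc
  have hLpos : 0 < Lc := by linarith
  have e1 : 1 - Rl lam i0 s p / Lc = Δ - Δ * (Lc - 1) / Lc := by
    rw [hΔ]; field_simp; ring
  have h13 : 0 ≤ Δ * (Lc - 1) / Lc := by
    have : 0 ≤ Lc - 1 := by linarith
    positivity
  have h14 : Δ * (Lc - 1) / Lc ≤ K0 ^ 2 * x ^ 2 := by
    have h15 : 0 ≤ Lc - 1 := by linarith
    calc Δ * (Lc - 1) / Lc ≤ Δ * (Lc - 1) := div_le_self (by positivity) hL1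
      _ ≤ (K0 * x) * (K0 * x) := by gcongr
      _ = _ := by ring
  rw [e1]
  have h16 := abs_le.1 hg1c
  rw [abs_le]
  constructor
  · nlinarith [h16.1, abs_nonneg C', sq_nonneg x]
  · nlinarith [h16.2, sq_nonneg (K0 * x)]

lemma Sq_summable (H : LW m lam) (i0 : ι) (s : ι → ℝ) (hs : ∀ i, 0 < s i) :
    Summable (fun p : Nat.Primes => Real.log p ^ 2 * (1 - Rl lam i0 s p / loc lam s p)) := by
  obtain ⟨K, hK, h⟩ := frac_close H i0
  refine Summable.of_nonneg_of_le (fun p => ?_) (fun p => ?_)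
    (((Dk_summable 2 (hs i0)).mul_left (m i0)).add (lsq_summable.mul_left K))
  · obtain ⟨h1, h2⟩ := h s hs p
    have h3 : 0 < loc lam s p := lt_of_lt_of_le one_pos (one_le_loc H s hs p.2)
    have : Rl lam i0 s p / loc lam s p ≤ 1 := by rwa [div_le_one h3]
    have : 0 ≤ 1 - Rl lam i0 s p / loc lam s p := by linarith
    positivity
  · obtain ⟨h1, h2⟩ := h s hs p
    have h3 := (abs_le.1 h2).2
    have h4 : 0 ≤ Real.log p ^ 2 := by positivity
    calc _ ≤ Real.log p ^ 2 * (m i0 * ((p:ℕ):ℝ) ^ (-1 - s i0) + K * (1 / ((p:ℕ):ℝ)) ^ 2) := by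
          gcongr
          linarith
      _ = _ := by ring

lemma Sq_close (H : LW m lam) (i0 : ι) : ∃ K : ℝ, 0 ≤ K ∧ ∀ s : ι → ℝ, (∀ i, 0 < s i) →
    |Sq lam i0 s - m i0 * Dk 2 (s i0)| ≤ K := by
  obtain ⟨K, hK, h⟩ := frac_close H i0
  refine ⟨K * ∑' p : Nat.Primes, Real.log p ^ 2 * (1 / ((p:ℕ):ℝ)) ^ 2, ?_, fun s hs => ?_⟩
  · exact mul_nonneg hK (tsum_nonneg fun p => by positivity)
  unfold Sq Dk
  have h1 := Sq_summable H i0 s hs
  have h2 := (Dk_summable 2 (hs i0)).mul_left (m i0)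
  rw [← tsum_mul_left, ← h1.tsum_sub h2, ← tsum_mul_left, ← Real.norm_eq_abs]
  refine tsum_of_norm_bounded (lsq_summable.mul_left K).hasSum fun p => ?_
  obtain ⟨-, h4⟩ := h s hs p
  have h3 : 0 ≤ Real.log p ^ 2 := by positivity
  rw [show Real.log p ^ 2 * (1 - Rl lam i0 s p / loc lam s p) -
    m i0 * (Real.log p ^ 2 * ((p:ℕ):ℝ) ^ (-1 - s i0)) =
    Real.log p ^ 2 * (1 - Rl lam i0 s p / loc lam s p - m i0 * ((p:ℕ):ℝ) ^ (-1 - s i0)) by ring,
    Real.norm_eq_abs, abs_mul, abs_of_nonneg h3]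
  calc _ ≤ Real.log p ^ 2 * (K * (1 / ((p:ℕ):ℝ)) ^ 2) := by gcongr
    _ = _ := by ring

lemma QF_hasSum (H : LW m lam) (i0 : ι) (s : ι → ℝ) (hs : ∀ i, 0 < s i) :
    HasSum (fun b : ι → ℕ => Qf (b i0) * FF lam s b) ((∑' b, FF lam s b) * Sq lam i0 s) := by
  classical
  set S := ∑' b, FF lam s b with hS
  have hFs := FF_summable H s hs
  let G : Nat.Primes × (ι → ℕ) → ℝ := fun x =>
    if (x.1:ℕ) ∣ x.2 i0 then Real.log x.1 ^ 2 * FF lam s x.2 else 0
  have hG0 : 0 ≤ G := by
    intro x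
    show 0 ≤ if (x.1:ℕ) ∣ x.2 i0 then Real.log x.1 ^ 2 * FF lam s x.2 else 0
    have := FF_nonneg H s x.2
    split_ifs
    · positivity
    · exact le_refl _
  have hrow : ∀ p : Nat.Primes, HasSum (fun b => G (p, b))
      (Real.log p ^ 2 * (S * (1 - Rl lam i0 s p / loc lam s p))) := by
    intro p
    have h1 := FF_summable (lamR_LW H i0 p.2) s hs
    have h2 := rem_tsum H i0 s hs p
    have h3 := hFs.hasSum.sub h1.hasSum
    have h4 := h3.mul_left (Real.log p ^ 2)
    have hE : loc lam s p ≠ 0 := by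
      have := one_le_loc H s hs p.2
      linarith
    have e : S * (1 - Rl lam i0 s p / loc lam s p) =
        ∑' b, FF lam s b - ∑' b, FF (lamR lam i0 p) s b := by
      rw [← hS] at h2 ⊢
      rw [mul_sub, mul_one]
      congr 1
      rw [← mul_div_assoc, ← h2, mul_div_cancel_right₀ _ hE]
    rw [e]
    refine h4.congr_fun fun b => ?_
    show (if (p:ℕ) ∣ b i0 then Real.log p ^ 2 * FF lam s b else 0) = _
    have e2 : FF (lamR lam i0 p) s b = if (p:ℕ) ∣ b i0 then 0 else FF lam s b := by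
      unfold FF
      rw [mw_lamR lam i0 p.2]
      split_ifs
      · rw [zero_mul]
      · rfl
    rw [e2]
    split_ifs <;> ring
  have hsG : Summable G := by
    rw [summable_prod_of_nonneg hG0]
    refine ⟨fun p => (hrow p).summable, ?_⟩
    simp only [fun p => (hrow p).tsum_eq]
    refine ((Sq_summable H i0 s hs).mul_left S).congr fun p => ?_
    ring
  have hsG' : Summable (fun x : (ι → ℕ) × Nat.Primes => G (x.2, x.1)) :=
    hsG.comp_injective (Prod.swap_injective)
  have hcol : ∀ b : ι → ℕ, HasSum (fun p : Nat.Primes => G (p, b)) (Qf (b i0) * FF lam s b) := by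
    intro b
    by_cases hb : ∀ i, b i ≠ 0
    · have h1 := (Qf_hasSum (hb i0)).mul_right (FF lam s b)
      refine h1.congr_fun fun p => ?_
      show (if (p:ℕ) ∣ b i0 then Real.log p ^ 2 * FF lam s b else 0) = _
      split_ifs <;> ring
    · rw [FF_zero s hb, mul_zero]
      have : (fun p : Nat.Primes => G (p, b)) = fun _ => 0 := by
        funext p
        show (if (p:ℕ) ∣ b i0 then Real.log p ^ 2 * FF lam s b else 0) = 0
        rw [FF_zero s hb]
        simp
      rw [this]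
      exact hasSum_zero
  have h5 : Summable (fun b : ι → ℕ => Qf (b i0) * FF lam s b) := by
    have h6 := (summable_prod_of_nonneg (f := fun x : (ι → ℕ) × Nat.Primes => G (x.2, x.1))
      (fun x => hG0 _)).mp hsG'
    refine h6.2.congr fun b => ?_
    exact (hcol b).tsum_eq
  have h7 : ∑' b : ι → ℕ, Qf (b i0) * FF lam s b = S * Sq lam i0 s := by
    have h8 := hsG'.tsum_prod
    have h9 := hsG.tsum_prod
    have h10 : ∑' x : (ι → ℕ) × Nat.Primes, G (x.2, x.1) = ∑' x, G x :=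
      (Equiv.prodComm (ι → ℕ) Nat.Primes).tsum_eq G
    rw [h10, h9] at h8
    simp only [fun b => (hcol b).tsum_eq, fun p => (hrow p).tsum_eq] at h8
    rw [← h8]
    unfold Sq
    rw [← tsum_mul_left]
    refine tsum_congr fun p => ?_
    ring
  rw [← h7]
  exact h5.hasSum

/-! ### the limit theorem -/

section Kar

variable {r : ℕ} {m' : Fin r → ℝ} {lam' : ℕ → (Fin r → ℕ) → ℝ}

/-- the weight -/
def mwQ (lam' : ℕ → (Fin r → ℕ) → ℝ) (i0 : Fin r) (b : Fin r → ℕ) : ℝ := mw lam' b * Qf (b i0)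

theorem mwQ_KH (H : LW m' lam') (i0 : Fin r) : KH r (mwQ lam' i0) where
  hw b := mul_nonneg (Pool.Agent.TH535.mw_nonneg' H b) (Qf_nonneg _)
  hw0 b hb := by
    obtain ⟨i, hi⟩ := hb
    unfold mwQ mw
    rw [if_neg (fun h => h i hi), zero_mul]
  hsum s hs := by
    refine (QF_hasSum H i0 s hs).summable.congr fun b => ?_
    unfold mwQ FF
    ring

/-- the exponents -/
def mQ (m' : Fin r → ℝ) (i0 : Fin r) : Fin r → ℝ := fun i => if i = i0 then m' i + 2 else m' i

theorem mwQ_lim (H : LW m' lam') (i0 : Fin r) (s : Fin r → ℝ) (hs : ∀ i, 0 < s i) :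
    Tendsto (fun L : ℝ => (∑' b : Fin r → ℕ, mwQ lam' i0 b * ∏ i, (b i : ℝ) ^ (-(s i / L))) /
        L ^ (∑ i, m' i + 2)) atTop
      (𝓝 (((∏' p : Nat.Primes, ((1 - 1 / (p : ℝ)) ^ (∑ i, m' i) * ∑' v : Fin r → ℕ, lam' p v)) *
        m' i0) * ∏ i, (s i) ^ (-(mQ m' i0 i)))) := by
  have h1 := (Pool.Agent.TH535.MB.mw_prod_lim m' lam' H s hs).2
  obtain ⟨K, hK, hcl⟩ := Sq_close H i0
  have h3 : Tendsto (fun L : ℝ => (Sq lam' i0 (fun i => s i / L) - m' i0 * Dk 2 (s i0 / L)) / L ^ 2)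
      atTop (𝓝 0) := by
    have hK : Tendsto (fun L : ℝ => K / L ^ 2) atTop (𝓝 0) :=
      tendsto_const_nhds.div_atTop (tendsto_pow_atTop two_ne_zero)
    refine squeeze_zero_norm' ?_ hK
    filter_upwards [eventually_gt_atTop 0] with L hL
    rw [norm_div, Real.norm_eq_abs, Real.norm_of_nonneg (by positivity : 0 ≤ L ^ 2)]
    gcongr
    exact hcl (fun i => s i / L) (fun i => div_pos (hs i) hL)
  have h4 := h3.add ((D2_tendsto (hs i0)).const_mul (m' i0))
  have h5 := h1.mul h4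
  set A := ∏' p : Nat.Primes, ((1 - 1 / (p : ℝ)) ^ (∑ i, m' i) * ∑' v : Fin r → ℕ, lam' p v)
  have e : A * (∏ i, (s i) ^ (-(m' i))) * (0 + m' i0 * (1 / s i0 ^ 2)) =
      (A * m' i0) * ∏ i, (s i) ^ (-(mQ m' i0 i)) := by
    have e1 : ∏ i, (s i) ^ (-(mQ m' i0 i)) =
        (∏ i, (s i) ^ (-(m' i))) * (1 / s i0 ^ 2) := by
      rw [← Finset.mul_prod_erase univ _ (mem_univ i0), ← Finset.mul_prod_erase univ
        (fun i => (s i) ^ (-(m' i))) (mem_univ i0)]
      have e2 : ∏ i ∈ univ.erase i0, (s i) ^ (-(mQ m' i0 i)) =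
          ∏ i ∈ univ.erase i0, (s i) ^ (-(m' i)) := by
        refine prod_congr rfl fun i hi => ?_
        unfold mQ
        rw [if_neg (ne_of_mem_erase hi)]
      rw [e2]
      have e3 : (s i0) ^ (-(mQ m' i0 i0)) = (s i0) ^ (-(m' i0)) * (1 / s i0 ^ 2) := by
        unfold mQ
        rw [if_pos rfl, neg_add, Real.rpow_add (hs i0), Real.rpow_neg (hs i0).le 2, one_div]
        congr 2
        exact_mod_cast Real.rpow_natCast (s i0) 2
      rw [e3]
      ring
    rw [e1]
    ring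
  rw [e] at h5
  refine h5.congr' ?_
  filter_upwards [eventually_gt_atTop 0] with L hL
  have hs' : ∀ i, 0 < s i / L := fun i => div_pos (hs i) hL
  have h6 := (QF_hasSum H i0 (fun i => s i / L) hs').tsum_eq
  have h7 : (∑' b : Fin r → ℕ, mwQ lam' i0 b * ∏ i, (b i : ℝ) ^ (-(s i / L))) =
      ∑' b : Fin r → ℕ, Qf (b i0) * FF lam' (fun i => s i / L) b := by
    refine tsum_congr fun b => ?_
    unfold mwQ FF
    ring
  have h8 := (mw_euler m' lam' H (fun i => s i / L) hs').2.tprod_eq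
  rw [h7, h6]
  have h9 : ∑' b, FF lam' (fun i => s i / L) b =
      ∏' p : Nat.Primes, ∑' v : Fin r → ℕ, lam' p v * (p : ℝ) ^ (-(∑ i, s i / L * (v i : ℝ))) :=
    h8.symm
  rw [h9, Real.rpow_add hL, show (L:ℝ) ^ (2:ℝ) = L ^ (2:ℕ) from by exact_mod_cast Real.rpow_natCast L 2]
  have hLp : L ^ (∑ i, m' i) ≠ 0 := by positivity
  field_simp
  ring

theorem karQ (H : LW m' lam') (hm : ∀ i, 0 < m' i) (i0 : Fin r)
    (A : ℝ) (hA : A = ∏' p : Nat.Primes, ((1 - 1 / (p : ℝ)) ^ (∑ x, m' x) *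
      ∑' v : Fin r → ℕ, lam' p v)) (hA0 : 0 ≤ A)
    (φ : (Fin r → ℝ) → ℝ) (hφ : Continuous φ) (M : ℝ)
    (h0 : ∀ u : Fin r → ℝ, (∀ i, 0 ≤ u i) → (∃ i, M ≤ u i) → φ u = 0) (hM : 0 ≤ M) :
    (∀ L : ℝ, 0 < L → Summable (fun b : Fin r → ℕ => mwQ lam' i0 b * φ (posI L b))) ∧
    Tendsto (fun L : ℝ => (∑' b : Fin r → ℕ, mwQ lam' i0 b * φ (posI L b)) / L ^ (∑ x, m' x + 2))
      atTop (𝓝 (A * m' i0 * ∫ u : Fin r → ℝ, GdI (mQ m' i0) u * φ u)) := by
  have hm' : ∀ i, 0 < mQ m' i0 i := by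
    intro i
    unfold mQ
    have := hm i
    split_ifs <;> linarith
  refine ⟨fun L hL => tf_summable (mwQ_KH H i0) φ hφ M h0 hM hL, ?_⟩
  exact karamata (mwQ_KH H i0) (∑ x, m' x + 2) (A * m' i0) (mul_nonneg hA0 (hm i0).le)
    (mQ m' i0) hm' (fun s hs => by rw [hA]; exact mwQ_lim H i0 s hs) φ hφ M h0 hM

end Kar

end

end Pool.Agent.Y756.T
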