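import Pool.Agent.Y756.S.Err4
import Pool.Agent.Y756.S.Loc7
import Pool.Agent.Y756.S.Q7

set_option autoImplicit false

/-! The norm sum and the cross sum of the polynomial with rational frequencies (third moment). -/

namespace Pool.Agent.Y756.T

open Finset Filter Topology MeasureTheory
open Pool.Agent.H306R2 Pool.Agent.H306R2.SM
open Pool.Agent.H223.EM hiding mw
open Pool.Agent.TH535 (posI GdI kar)
open Pool.Agent.TH535.MA (mw LW)
open Pool.Agent.H989R2.EM3 (cF cG cG_cF gcd_eq cF_cG)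

noncomputable section

/-- minorant -/
def q7 (F : ℝ → ℝ → ℝ) (β δ : ℝ) (u : Fin 4 → ℝ) : ℝ :=
  F (u 0 + u 1) (u 2) * sc (β - δ) δ (u 1 + u 3) * (1 - u 0 / 2 - u 2 - u 3) ^ 2

lemma q7_cont {F : ℝ → ℝ → ℝ} {X : ℝ} (hF : FW F X) (β δ : ℝ) : Continuous (q7 F β δ) := by
  have h1 := hF.vals (fun u : Fin 4 → ℝ => u 0 + u 1) (fun u : Fin 4 → ℝ => u 2)
    (by fun_prop) (by fun_prop)
  have h2 : Continuous (fun u : Fin 4 → ℝ => sc (β - δ) δ (u 1 + u 3)) :=
    (sc_cont _ _).comp (by fun_prop)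
  unfold q7
  exact (h1.mul h2).mul (by fun_prop)

/-- the terms of the finite sum -/
def tm7 (a : ℝ) (F : ℝ → ℝ → ℝ) (T : ℝ) (k : ℕ) (p : (ℕ × ℕ) × ℕ) : ℝ :=
  c5 (a + 1) F T p.1 * (dv a p.2 / Real.sqrt p.2 * M3 (Yf k T) p.1.1 p.1.2 p.2)

lemma tm7_eq {a : ℝ} {F : ℝ → ℝ → ℝ} {T : ℝ} {k : ℕ} (hY : 0 < Yf k T) (b : Fin 4 → ℕ)
    (hne : ∀ i, b i ≠ 0) (h03 : Nat.Coprime (b 0) (b 3)) (h012 : Nat.Coprime (b 0 * b 1) (b 2)) :
    tm7 a F T k (cG b) = mw (lamC a) b *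
      (F (posI (Real.log T) b 0 + posI (Real.log T) b 1) (posI (Real.log T) b 2) *
      (((Real.log (Yf k T) - Real.log (b 0) / 2 - Real.log (b 2) - Real.log (b 3)) ^ 2 -
        3 / 4 * Qf (b 0)) / 2)) := by
  have b0 : (0 : ℝ) < b 0 := by exact_mod_cast Nat.pos_of_ne_zero (hne 0)
  have b1 : (0 : ℝ) < b 1 := by exact_mod_cast Nat.pos_of_ne_zero (hne 1)
  have b2 : (0 : ℝ) < b 2 := by exact_mod_cast Nat.pos_of_ne_zero (hne 2)
  have b3 : (0 : ℝ) < b 3 := by exact_mod_cast Nat.pos_of_ne_zero (hne 3)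
  have h1' : 0 < b 1 := Nat.pos_of_ne_zero (hne 1)
  have hhp : hp (b 0 * b 1) (b 1 * b 3) = b 0 := by
    unfold hp
    rw [gcd_eq h03, Nat.mul_div_cancel _ h1']
  have hmp : mp (b 0 * b 1) (b 2) (b 1 * b 3) = b 2 * b 3 := by
    unfold mp
    rw [gcd_eq h03, Nat.mul_div_cancel_left _ h1']
  rw [mw_lamC, if_pos ⟨hne, h03, h012⟩]
  unfold tm7 cG
  simp only
  unfold c5 M3
  simp only
  rw [hhp, hmp, show a + 1 + 1 = a + 2 by ring]
  push_cast
  have hlog : Real.log ((b 0 : ℝ) * Yf k T / ((b 2 : ℝ) * b 3)) - 3 / 2 * Real.log (b 0) =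
      Real.log (Yf k T) - Real.log (b 0) / 2 - Real.log (b 2) - Real.log (b 3) := by
    rw [Real.log_div (by positivity) (by positivity), Real.log_mul b0.ne' hY.ne',
      Real.log_mul b2.ne' b3.ne']
    ring
  have hl1 : Real.log ((b 0 : ℝ) * b 1) / Real.log T =
      Real.log (b 0) / Real.log T + Real.log (b 1) / Real.log T := by
    rw [Real.log_mul b0.ne' b1.ne', add_div]
  rw [hlog, hl1]
  unfold posI
  have hsq : Real.sqrt ((b 0 : ℝ) * b 1 * b 2) * Real.sqrt ((b 1 : ℝ) * b 3) *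
      (Real.sqrt ((b 2 : ℝ) * b 3 / b 0) * b 0) = (b 0 : ℝ) * b 1 * b 2 * b 3 := by
    have e1 : Real.sqrt ((b 2 : ℝ) * b 3 / b 0) * b 0 = Real.sqrt ((b 0 : ℝ) * (b 2 * b 3)) := by
      rw [show (b 0 : ℝ) * (b 2 * b 3) = ((b 2 : ℝ) * b 3 / b 0) * (b 0) ^ 2 by field_simp,
        Real.sqrt_mul (by positivity), Real.sqrt_sq b0.le]
    rw [e1, ← Real.sqrt_mul (by positivity), ← Real.sqrt_mul (by positivity),
      show (b 0 : ℝ) * b 1 * b 2 * (b 1 * b 3) * (b 0 * (b 2 * b 3)) =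
        ((b 0 : ℝ) * b 1 * b 2 * b 3) ^ 2 by ring, Real.sqrt_sq (by positivity)]
  have hs0 : 0 < Real.sqrt ((b 0 : ℝ) * b 1 * b 2) := by positivity
  have hs1 : 0 < Real.sqrt ((b 1 : ℝ) * b 3) := by positivity
  have hs2 : 0 < Real.sqrt ((b 2 : ℝ) * b 3 / b 0) := by positivity
  have hs3 : Real.sqrt ((b 2 : ℝ) * b 3 / b 0) ^ 2 = (b 2 : ℝ) * b 3 / b 0 :=
    Real.sq_sqrt (by positivity)
  set s0 := Real.sqrt ((b 0 : ℝ) * b 1 * b 2)
  set s1 := Real.sqrt ((b 1 : ℝ) * b 3)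
  set s2 := Real.sqrt ((b 2 : ℝ) * b 3 / b 0)
  have e2 : s2 / ((b 2 : ℝ) * b 3) = 1 / (s2 * b 0) := by
    rw [div_eq_div_iff (by positivity) (by positivity), one_mul, ← mul_assoc, ← pow_two, hs3]
    field_simp
  rw [← hsq]
  have e3 : ∀ R D P Z W G : ℝ, R * G / s0 * (D / s1 * (s2 * (P / ((b 2 : ℝ) * b 3) * (Z / 2)))) =
      R * D * P * (s2 / ((b 2 : ℝ) * b 3)) / (s0 * s1) * (G * (Z / 2)) := by
    intro R D P Z W G
    field_simp
  rw [e3 _ _ _ _ 0, e2]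
  field_simp

lemma mwC_nonneg {a : ℝ} (ha : 0 < a) (b : Fin 4 → ℕ) : 0 ≤ mw (lamC a) b :=
  Pool.Agent.TH535.mw_nonneg' (lamC_LW ha).1 b

lemma cross7_ge {a β δ ε T D : ℝ} (ha : 0 < a) {F : ℝ → ℝ → ℝ} (hF : FW3 F β ε)
    (hβ : 0 < β) (hβ1 : β ≤ 1 / 2) (hδ : 0 < δ) (hε : 0 < ε) (hT : 1 < T) {k : ℕ} (hY : 0 < Yf k T)
    (hD : |Real.log (Yf k T) - Real.log T| ≤ D)
    (hs1 : Summable (fun b => mw (lamC a) b * q7 F β δ (posI (Real.log T) b)))
    (hs2 : Summable (fun b => mw (lamC a) b * q2 F β δ (posI (Real.log T) b)))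
    (hs3 : Summable (fun b => mwQ (lamC a) 0 b * q2 F β δ (posI (Real.log T) b))) :
    Real.log T ^ 2 / 2 * (∑' b, mw (lamC a) b * q7 F β δ (posI (Real.log T) b)) -
      Real.log T * D * (∑' b, mw (lamC a) b * q2 F β δ (posI (Real.log T) b)) -
      3 / 8 * (∑' b, mwQ (lamC a) 0 b * q2 F β δ (posI (Real.log T) b)) ≤
    Ms3 (Yf k T) ⌊T ^ β⌋₊ (dv a) (S7 ε β T) (c5 (a + 1) F T) := by
  classical
  have hT0 : 0 < T := by linarith
  have hL : 0 < Real.log T := Real.log_pos hT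
  set L := Real.log T with hLdef
  have h1 : Ms3 (Yf k T) ⌊T ^ β⌋₊ (dv a) (S7 ε β T) (c5 (a + 1) F T) =
      ∑ p ∈ S7 ε β T ×ˢ Icc 1 ⌊T ^ β⌋₊, tm7 a F T k p := by
    unfold Ms3
    rw [sum_product]
    refine sum_congr rfl fun b _ => ?_
    rw [mul_sum]
    rfl
  have hprop : ∀ p ∈ S7 ε β T ×ˢ Icc 1 ⌊T ^ β⌋₊, (∀ i, cF p i ≠ 0) ∧
      Nat.Coprime (cF p 0) (cF p 3) ∧ Nat.Coprime (cF p 0 * cF p 1) (cF p 2) := by
    rintro ⟨⟨h, l⟩, n⟩ hp
    rw [mem_product, mem_Icc] at hp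
    obtain ⟨hb, hn, -⟩ := hp
    obtain ⟨hh, hl, hcop, -⟩ := S7_prop hb
    simp only at hh hl hcop hn
    have hg : 0 < Nat.gcd h n := Nat.gcd_pos_of_pos_left _ hh
    refine ⟨?_, Nat.coprime_div_gcd_div_gcd hg, ?_⟩
    · intro i
      fin_cases i
      · exact (Nat.div_pos (Nat.le_of_dvd hh (Nat.gcd_dvd_left h n)) hg).ne'
      · exact hg.ne'
      · exact (show 0 < l from hl).ne'
      · exact (Nat.div_pos (Nat.le_of_dvd hn (Nat.gcd_dvd_right h n)) hg).ne'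
    · change Nat.Coprime (h / Nat.gcd h n * Nat.gcd h n) l
      rw [Nat.div_mul_cancel (Nat.gcd_dvd_left h n)]
      exact hcop
  set g : (Fin 4 → ℕ) → ℝ := fun b => L ^ 2 / 2 * (mw (lamC a) b * q7 F β δ (posI L b)) -
    L * D * (mw (lamC a) b * q2 F β δ (posI L b)) -
    3 / 8 * (mwQ (lamC a) 0 b * q2 F β δ (posI L b)) with hg
  have hgs : Summable g := ((hs1.mul_left (L ^ 2 / 2)).sub (hs2.mul_left (L * D))).sub
    (hs3.mul_left (3 / 8))
  have hgt : ∑' b, g b = L ^ 2 / 2 * (∑' b, mw (lamC a) b * q7 F β δ (posI L b)) -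
      L * D * (∑' b, mw (lamC a) b * q2 F β δ (posI L b)) -
      3 / 8 * (∑' b, mwQ (lamC a) 0 b * q2 F β δ (posI L b)) := by
    rw [hg, ((hs1.mul_left (L ^ 2 / 2)).sub (hs2.mul_left (L * D))).tsum_sub (hs3.mul_left (3 / 8)),
      (hs1.mul_left (L ^ 2 / 2)).tsum_sub (hs2.mul_left (L * D)), tsum_mul_left, tsum_mul_left,
      tsum_mul_left]
  rw [← hgt, h1]
  have hD0 : 0 ≤ D := (abs_nonneg _).trans hD
  have hgb : ∀ b, g b = mw (lamC a) b * (L ^ 2 / 2 * q7 F β δ (posI L b) -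
      L * D * q2 F β δ (posI L b) - 3 / 8 * (Qf (b 0) * q2 F β δ (posI L b))) := by
    intro b
    rw [hg]; unfold mwQ; ring
  have hpos : ∀ b : Fin 4 → ℕ, (∀ i, b i ≠ 0) → ∀ i, 0 ≤ posI L b i := by
    intro b hb i
    unfold posI
    have : (1 : ℝ) ≤ b i := by exact_mod_cast Nat.pos_of_ne_zero (hb i)
    exact div_nonneg (Real.log_nonneg this) hL.le
  have hlogn : ∀ b : Fin 4 → ℕ, (∀ i, b i ≠ 0) → posI L b 1 + posI L b 3 =
      Real.log ((b 1 * b 3 : ℕ) : ℝ) / L := by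
    intro b hb
    have b1 : (0 : ℝ) < b 1 := by exact_mod_cast Nat.pos_of_ne_zero (hb 1)
    have b3 : (0 : ℝ) < b 3 := by exact_mod_cast Nat.pos_of_ne_zero (hb 3)
    unfold posI
    rw [← add_div, ← Real.log_mul b1.ne' b3.ne', Nat.cast_mul]
  have hlogh : ∀ b : Fin 4 → ℕ, (∀ i, b i ≠ 0) → posI L b 0 + posI L b 1 =
      Real.log ((b 0 * b 1 : ℕ) : ℝ) / L := by
    intro b hb
    have b1 : (0 : ℝ) < b 1 := by exact_mod_cast Nat.pos_of_ne_zero (hb 1)
    have b0 : (0 : ℝ) < b 0 := by exact_mod_cast Nat.pos_of_ne_zero (hb 0)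
    unfold posI
    rw [← add_div, ← Real.log_mul b0.ne' b1.ne', Nat.cast_mul]
  -- comparison on the finite set
  have h2 : ∑ b ∈ (S7 ε β T ×ˢ Icc 1 ⌊T ^ β⌋₊).image cF, g b ≤
      ∑ p ∈ S7 ε β T ×ˢ Icc 1 ⌊T ^ β⌋₊, tm7 a F T k p := by
    rw [sum_image (fun p _ q _ hpq => by
      have := congrArg cG hpq
      rwa [cG_cF, cG_cF] at this)]
    refine sum_le_sum fun p hp => ?_
    obtain ⟨a1, a2, a3⟩ := hprop p hp
    have htm := tm7_eq (a := a) (F := F) hY (cF p) a1 a2 a3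
    rw [cG_cF, ← hLdef] at htm
    rw [htm]
    set b := cF p with hb
    have hpb : p = cG b := by rw [hb, cG_cF]
    have hw := mwC_nonneg ha b
    have hu := hpos b a1
    have hx13 : posI L b 1 + posI L b 3 ≤ β := by
      rw [hlogn b a1]
      have hp2 : p.2 = b 1 * b 3 := by rw [hpb]; rfl
      rw [mem_product, mem_Icc] at hp
      obtain ⟨-, hn1, hn2⟩ := hp
      rw [← hp2, div_le_iff₀ hL, ← Real.log_rpow hT0]
      have hn0 : (0 : ℝ) < p.2 := by exact_mod_cast hn1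
      exact Real.log_le_log hn0 ((Nat.le_floor_iff (by positivity)).mp hn2)
    have hF0 : 0 ≤ F (posI L b 0 + posI L b 1) (posI L b 2) := hF.nn _ _
    have e1 : Real.log (Yf k T) - Real.log (b 0) / 2 - Real.log (b 2) - Real.log (b 3) =
        L * (1 - posI L b 0 / 2 - posI L b 2 - posI L b 3) + (Real.log (Yf k T) - L) := by
      unfold posI
      field_simp
      ring
    have hsc : sc β δ (posI L b 1 + posI L b 3) = 1 := sc_eq_one hδ hx13
    rw [hgb]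
    refine mul_le_mul_of_nonneg_left ?_ hw
    rw [e1]
    unfold q7 q2
    rw [hsc]
    have h0 := hu 0
    have h1 := hu 1
    have h2 := hu 2
    have h3 := hu 3
    have hQ := Qf_nonneg (b 0)
    set x0 := posI L b 0
    set x1 := posI L b 1
    set x2 := posI L b 2
    set x3 := posI L b 3
    set FF := F (x0 + x1) x2 with hFF
    by_cases hz : FF = 0
    · rw [hz]; simp
    · have z1 : x0 + x1 + x2 < 1 := by
        by_contra hh
        exact hz (hF.z1 _ _ (not_lt.1 hh))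
      have z3 : 3 / 2 * (x0 + x1) + x2 < 1 - ε - β := by
        by_contra hh
        exact hz (hF.z3 _ _ (not_lt.1 hh))
      set v := 1 - x0 / 2 - x2 - x3 with hv
      have v0 : 0 ≤ v := by rw [hv]; linarith
      have v1 : v ≤ 1 := by rw [hv]; linarith
      set dd := Real.log (Yf k T) - L with hdd
      have k1 : L ^ 2 * v ^ 2 - 2 * (L * D) ≤ (L * v + dd) ^ 2 := by
        have k2 : -(L * D) ≤ L * v * dd := by
          have k3 : |L * v * dd| ≤ L * 1 * D := by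
            rw [abs_mul, abs_mul, abs_of_pos hL, abs_of_nonneg v0]
            gcongr
          have := (abs_le.1 k3).1
          linarith
        have k4 : (L * v + dd) ^ 2 = L ^ 2 * v ^ 2 + 2 * (L * v * dd) + dd ^ 2 := by ring
        have := sq_nonneg dd
        linarith
      have s1 := sc_le_one (β - δ) δ (x1 + x3)
      have s2 : L ^ 2 / 2 * (FF * sc (β - δ) δ (x1 + x3) * v ^ 2) ≤ FF * (L ^ 2 * v ^ 2 / 2) := by
        have : sc (β - δ) δ (x1 + x3) * (FF * (L ^ 2 * v ^ 2 / 2)) ≤ 1 * (FF * (L ^ 2 * v ^ 2 / 2)) :=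
          mul_le_mul_of_nonneg_right s1 (by positivity)
        calc _ = sc (β - δ) δ (x1 + x3) * (FF * (L ^ 2 * v ^ 2 / 2)) := by ring
          _ ≤ _ := this
          _ = _ := one_mul _
      have k5 := mul_le_mul_of_nonneg_left k1 hF0
      linarith
  refine le_trans ?_ h2
  have h3 := (hgs.neg).sum_le_tsum ((S7 ε β T ×ˢ Icc 1 ⌊T ^ β⌋₊).image cF) ?_
  · rw [tsum_neg, sum_neg_distrib] at h3
    linarith
  · intro b hb
    by_cases hv : (∀ i, b i ≠ 0) ∧ Nat.Coprime (b 0) (b 3) ∧ Nat.Coprime (b 0 * b 1) (b 2)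
    · obtain ⟨hne, h03, h012⟩ := hv
      have hw := mwC_nonneg ha b
      have hu := hpos b hne
      have hnm : cG b ∉ S7 ε β T ×ˢ Icc 1 ⌊T ^ β⌋₊ := by
        intro hh
        apply hb
        rw [mem_image]
        exact ⟨cG b, hh, cF_cG h03 (hne 1)⟩
      have n01 : 1 ≤ b 0 * b 1 := Nat.mul_pos (Nat.pos_of_ne_zero (hne 0))
        (Nat.pos_of_ne_zero (hne 1))
      have n2 : 1 ≤ b 2 := Nat.pos_of_ne_zero (hne 2)
      have n13 : 1 ≤ b 1 * b 3 := Nat.mul_pos (Nat.pos_of_ne_zero (hne 1))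
        (Nat.pos_of_ne_zero (hne 3))
      have hF0 : 0 ≤ F (posI L b 0 + posI L b 1) (posI L b 2) := hF.nn _ _
      have hQ := Qf_nonneg (b 0)
      by_cases m1 : (b 0 * b 1, b 2) ∈ S7 ε β T
      · have m3 : b 1 * b 3 ∉ Icc 1 ⌊T ^ β⌋₊ := by
          intro m3
          apply hnm
          rw [mem_product]
          exact ⟨m1, m3⟩
        have h5 : ¬ b 1 * b 3 ≤ ⌊T ^ β⌋₊ := fun hh => m3 (mem_Icc.mpr ⟨n13, hh⟩)
        rw [Nat.le_floor_iff (by positivity), not_le] at h5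
        have h6 : β ≤ posI L b 1 + posI L b 3 := by
          rw [hlogn b hne, le_div_iff₀ hL, ← Real.log_rpow hT0]
          exact Real.log_le_log (by positivity) h5.le
        have h7 : q7 F β δ (posI L b) = 0 := by
          unfold q7
          rw [sc_eq_zero hδ (by linarith)]; ring
        have h8 : 0 ≤ q2 F β δ (posI L b) := by
          unfold q2
          exact mul_nonneg hF0 (sc_nonneg _ _ _)
        rw [hgb, h7]
        have h9 : 0 ≤ mw (lamC a) b * (L * D * q2 F β δ (posI L b) +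
            3 / 8 * (Qf (b 0) * q2 F β δ (posI L b))) := by positivity
        linarith
      · have hz : F (posI L b 0 + posI L b 1) (posI L b 2) = 0 := by
          rw [hlogh b hne]
          exact F_zero hT hF n01 n2 h012 m1
        rw [hgb]
        simp only [q7, q2, hz]
        simp
    · have hw : mw (lamC a) b = 0 := by rw [mw_lamC, if_neg hv]
      rw [hgb, hw]
      simp

/-- the limit of the cross sum -/
def IC7 (a : ℝ) (F : ℝ → ℝ → ℝ) (β δ : ℝ) : ℝ :=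
  1 / 2 * (∫ u : Fin 4 → ℝ, GdI (mC a) u * q7 F β δ u) -
    3 / 8 * (mC a 0 * ∫ u : Fin 4 → ℝ, GdI (mQ (mC a) 0) u * q2 F β δ u)

/-- logarithm of the length -/
lemma logY_close (η : ℝ) (hη : 0 < η) : ∀ᶠ T : ℝ in atTop, ∀ k : ℕ, kr' T k →
    0 < Yf k T ∧ |Real.log (Yf k T) - Real.log T| ≤ η * Real.log T := by
  have h1 : Tendsto (fun L : ℝ => Real.log (8 * Real.pi * L ^ 2) / L) atTop (𝓝 0) := by
    have h2 : Tendsto (fun L : ℝ => Real.log (8 * Real.pi) / L + 2 * (Real.log L / L)) atTop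
        (𝓝 (0 + 2 * 0)) := by
      refine Tendsto.add ?_ (Tendsto.const_mul 2 ?_)
      · exact tendsto_const_nhds.div_atTop tendsto_id
      · have := Real.isLittleO_log_id_atTop.tendsto_div_nhds_zero
        simpa using this
    rw [mul_zero, add_zero] at h2
    refine h2.congr' ?_
    filter_upwards [eventually_gt_atTop 0] with L hL
    have hpi := Real.pi_pos
    rw [Real.log_mul (show (8 * Real.pi) ≠ 0 by positivity) (show L ^ 2 ≠ 0 by positivity),
      Real.log_pow]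
    push_cast
    ring
  have h3 := (Real.tendsto_log_atTop).eventually (h1.eventually_lt_const hη)
  filter_upwards [h3, eventually_gt_atTop (Real.exp 1)] with T h3 hTe k hk
  have hT : 1 < T := lt_trans (by
    have := Real.add_one_lt_exp (show (1 : ℝ) ≠ 0 by norm_num)
    linarith) hTe
  have hT0 : 0 < T := by linarith
  have hL1 : 1 < Real.log T := by
    rw [Real.lt_log_iff_exp_lt hT0]; exact hTe
  have hL0 : 0 < Real.log T := by linarith
  have hk1 : 1 ≤ k := by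
    have : (1 : ℝ) ≤ k := by
      refine le_trans ?_ hk.1
      have := mul_le_mul hL1.le hL1.le zero_le_one hL0.le
      rw [pow_two]; linarith
    exact_mod_cast this
  have hk0 : (0 : ℝ) < k := by exact_mod_cast hk1
  have hk1' : (1 : ℝ) ≤ k := by exact_mod_cast hk1
  have hpi := Real.pi_pos
  have hY : 0 < Yf k T := by unfold Yf; positivity
  refine ⟨hY, ?_⟩
  have h2pk : 1 ≤ 2 * Real.pi * k := by
    have h9 := Real.pi_gt_three
    have : 1 * 1 ≤ (2 * Real.pi) * k := mul_le_mul (by linarith) hk1' zero_le_one (by linarith)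
    linarith
  have e1 : Real.log (Yf k T) - Real.log T = - Real.log (2 * Real.pi * k) := by
    unfold Yf
    rw [Real.log_div hT0.ne' (by positivity)]
    ring
  rw [e1, abs_neg, abs_of_nonneg (Real.log_nonneg h2pk)]
  rw [div_lt_iff₀ hL0] at h3
  refine le_trans ?_ h3.le
  apply Real.log_le_log (by positivity)
  calc 2 * Real.pi * k ≤ 2 * Real.pi * (4 * Real.log T ^ 2) := by
        have := hk.2
        gcongr
    _ = _ := by ring

theorem cross7_lower {a β δ ε : ℝ} (ha : 0 < a) {F : ℝ → ℝ → ℝ} (hF : FW3 F β ε)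
    (hβ : 0 < β) (hβ1 : β ≤ 1 / 2) (hδ : 0 < δ) (hβδ : β + δ ≤ 1) (hε : 0 < ε)
    (c : ℝ) (hc : c < aF (a + 3) * IC7 a F β δ) : ∀ᶠ T : ℝ in atTop, ∀ k : ℕ, kr' T k →
    c * Real.log T ^ (∑ i, mC a i + 2) ≤
      Ms3 (Yf k T) ⌊T ^ β⌋₊ (dv a) (S7 ε β T) (c5 (a + 1) F T) := by
  have hFW := hF.toFW
  have v1 : ∀ u : Fin 4 → ℝ, (∀ i, 0 ≤ u i) → (∃ i, 1 ≤ u i) → q7 F β δ u = 0 := by
    intro u hu hi
    unfold q7
    rw [q_zero hFW le_rfl hδ (by linarith) u hu hi, zero_mul]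
  have v2 : ∀ u : Fin 4 → ℝ, (∀ i, 0 ≤ u i) → (∃ i, 1 ≤ u i) → q2 F β δ u = 0 :=
    fun u hu hi => q_zero hFW le_rfl hδ hβδ u hu hi
  have hA := (aF_pos (κ := a + 3) (by linarith)).le
  obtain ⟨s1, k1⟩ := kar (mC_pos ha) (lamC_LW ha).1 (aF (a + 3)) (lamC_const ha) hA
    (q7 F β δ) (q7_cont hFW β δ) 1 v1 (by norm_num)
  obtain ⟨s2, k2⟩ := kar (mC_pos ha) (lamC_LW ha).1 (aF (a + 3)) (lamC_const ha) hA
    (q2 F β δ) (q2_cont hFW β δ) 1 v2 (by norm_num)
  obtain ⟨s3, k3⟩ := karQ (lamC_LW ha).1 (mC_pos ha) 0 (aF (a + 3)) (lamC_const ha) hA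
    (q2 F β δ) (q2_cont hFW β δ) 1 v2 (by norm_num)
  set X1 := aF (a + 3) * ∫ u : Fin 4 → ℝ, GdI (mC a) u * q7 F β δ u with hX1
  set X2 := aF (a + 3) * ∫ u : Fin 4 → ℝ, GdI (mC a) u * q2 F β δ u with hX2
  set X3 := aF (a + 3) * mC a 0 * ∫ u : Fin 4 → ℝ, GdI (mQ (mC a) 0) u * q2 F β δ u with hX3
  have hXX : aF (a + 3) * IC7 a F β δ = X1 / 2 - 3 / 8 * X3 := by
    rw [hX1, hX3]; unfold IC7; ring
  rw [hXX] at hc
  set d := (X1 / 2 - 3 / 8 * X3 - c) / 3 with hd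
  have hd0 : 0 < d := by rw [hd]; linarith
  have e1 := (Real.tendsto_log_atTop).eventually (k1.eventually_const_lt
    (show X1 - 2 * d < X1 by linarith))
  have e2 := (Real.tendsto_log_atTop).eventually (k2.eventually_lt_const
    (show X2 < |X2| + 1 by linarith [le_abs_self X2]))
  have e3 := (Real.tendsto_log_atTop).eventually (k3.eventually_lt_const
    (show X3 < X3 + 8 / 3 * d by linarith))
  have hX20 : 0 < |X2| + 1 := by positivity
  have e4 := logY_close (d / (|X2| + 1)) (by positivity)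
  filter_upwards [e1, e2, e3, e4, eventually_gt_atTop (Real.exp 1)] with T h1 h2 h3 h4 hTe k hk
  have hT : 1 < T := lt_trans (by
    have := Real.add_one_lt_exp (show (1 : ℝ) ≠ 0 by norm_num)
    linarith) hTe
  have hT0 : 0 < T := by linarith
  have hL1 : 1 < Real.log T := by
    rw [Real.lt_log_iff_exp_lt hT0]; exact hTe
  have hL0 : 0 < Real.log T := by linarith
  obtain ⟨hY, hD⟩ := h4 k hk
  have hmain := cross7_ge (ε := ε) ha hF hβ hβ1 hδ hε hT hY hD (s1 _ hL0) (s2 _ hL0) (s3 _ hL0)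
  refine le_trans ?_ hmain
  set L := Real.log T with hLd
  have hLm : 0 < L ^ (∑ i, mC a i) := by positivity
  have hLm2 : L ^ (∑ i, mC a i + 2) = L ^ (∑ i, mC a i) * L ^ 2 := by
    rw [Real.rpow_add hL0]
    congr 1
    exact_mod_cast Real.rpow_natCast L 2
  rw [hLm2] at h3 ⊢
  rw [lt_div_iff₀ hLm] at h1
  rw [div_lt_iff₀ hLm] at h2
  rw [div_lt_iff₀ (by positivity)] at h3
  set P := L ^ (∑ i, mC a i) with hP
  set S1 := ∑' b, mw (lamC a) b * q7 F β δ (posI L b) with hS1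
  set S2 := ∑' b, mw (lamC a) b * q2 F β δ (posI L b) with hS2
  set S3 := ∑' b, mwQ (lamC a) 0 b * q2 F β δ (posI L b) with hS3
  have a1 : L ^ 2 / 2 * ((X1 - 2 * d) * P) ≤ L ^ 2 / 2 * S1 :=
    mul_le_mul_of_nonneg_left h1.le (by positivity)
  have a2 : L * (d / (|X2| + 1) * L) * S2 ≤ d * P * L ^ 2 := by
    calc L * (d / (|X2| + 1) * L) * S2 ≤ L * (d / (|X2| + 1) * L) * ((|X2| + 1) * P) :=
          mul_le_mul_of_nonneg_left h2.le (by positivity)
      _ = d * P * L ^ 2 := by field_simp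
  have a3 : c = X1 / 2 - 3 / 8 * X3 - 3 * d := by rw [hd]; ring
  rw [a3]
  have e9 : (X1 / 2 - 3 / 8 * X3 - 3 * d) * (P * L ^ 2) = L ^ 2 / 2 * ((X1 - 2 * d) * P) -
      d * P * L ^ 2 - 3 / 8 * ((X3 + 8 / 3 * d) * (P * L ^ 2)) := by ring
  rw [e9]
  linarith

end

end Pool.Agent.Y756.T
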