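import Pool.Agent.Y756.T.IntC
import Pool.Agent.Y756.S.Sum7

set_option autoImplicit false

/-! Polynomial integrals over a triangle. -/

namespace Pool.Agent.Y756.T

open Finset Filter Topology MeasureTheory Pool.Agent.H306R2
open Pool.Agent.TH535 (posI GdI GdI_nonneg int_able)
open scoped ENNReal

noncomputable section

/-- integral of a polynomial over an interval -/
lemma lint_poly {n : ℕ} (c : Fin n → ℝ) {S : ℝ} (hS : 0 ≤ S)
    (h0 : ∀ x, 0 ≤ x → x ≤ S → 0 ≤ ∑ j, c j * x ^ (j : ℕ)) :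
    ∫⁻ x in Set.Icc 0 S, ENNReal.ofReal (∑ j, c j * x ^ (j : ℕ)) =
      ENNReal.ofReal (∑ j, c j * (S ^ ((j : ℕ) + 1) / ((j : ℕ) + 1))) := by
  have hc : Continuous (fun x : ℝ => ∑ j, c j * x ^ (j : ℕ)) := by fun_prop
  have hi : IntegrableOn (fun x : ℝ => ∑ j, c j * x ^ (j : ℕ)) (Set.Icc 0 S) :=
    hc.continuousOn.integrableOn_compact isCompact_Icc
  have hnn : 0 ≤ᵐ[volume.restrict (Set.Icc 0 S)] (fun x : ℝ => ∑ j, c j * x ^ (j : ℕ)) := by
    rw [EventuallyLE, ae_restrict_iff' measurableSet_Icc]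
    exact Eventually.of_forall fun x hx => h0 x hx.1 hx.2
  rw [← ofReal_integral_eq_lintegral_ofReal hi hnn, integral_Icc_eq_integral_Ioc,
    ← intervalIntegral.integral_of_le hS, intervalIntegral.integral_finsetSum
    (fun i _ => (Continuous.intervalIntegrable (by fun_prop) _ _))]
  congr 1
  refine Finset.sum_congr rfl fun j _ => ?_
  rw [intervalIntegral.integral_const_mul, integral_pow]
  simp

/-- integral of a polynomial over a triangle -/
lemma tri_int {n m : ℕ} (c : Fin n → ℝ → ℝ) (d : Fin m → ℝ) {tm : ℝ} (htm : 0 ≤ tm)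
    (hs : ∀ t, ∑ j, c j t * ((5 / 3 * t) ^ ((j : ℕ) + 1) / ((j : ℕ) + 1)) = ∑ i, d i * t ^ (i : ℕ))
    (h0 : ∀ s t, 0 ≤ ∑ j, c j t * s ^ (j : ℕ)) :
    ∫⁻ t in Set.Icc 0 tm, ∫⁻ s in Set.Icc 0 (5 / 3 * t), ENNReal.ofReal (∑ j, c j t * s ^ (j : ℕ)) =
      ENNReal.ofReal (∑ i, d i * (tm ^ ((i : ℕ) + 1) / ((i : ℕ) + 1))) := by
  have h1 : ∀ t ∈ Set.Icc 0 tm, ∫⁻ s in Set.Icc 0 (5 / 3 * t),
      ENNReal.ofReal (∑ j, c j t * s ^ (j : ℕ)) = ENNReal.ofReal (∑ i, d i * t ^ (i : ℕ)) := by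
    intro t ht
    rw [lint_poly (fun j => c j t) (by linarith [ht.1] : (0 : ℝ) ≤ 5 / 3 * t)
      (fun x _ _ => h0 x t), hs]
  rw [setLIntegral_congr_fun measurableSet_Icc h1]
  refine lint_poly d htm fun t ht _ => ?_
  rw [← hs]
  have h2 := lint_poly (fun j => c j t) (S := 5 / 3 * t) (by linarith) (fun x _ _ => h0 x t)
  have hS : (0 : ℝ) ≤ 5 / 3 * t := by linarith
  have hc : Continuous (fun x : ℝ => ∑ j, c j t * x ^ (j : ℕ)) := by fun_prop
  have h3 : ∫ x in (0 : ℝ)..(5 / 3 * t), ∑ j, c j t * x ^ (j : ℕ) =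
      ∑ j, c j t * ((5 / 3 * t) ^ ((j : ℕ) + 1) / ((j : ℕ) + 1)) := by
    rw [intervalIntegral.integral_finsetSum
      (fun i _ => (Continuous.intervalIntegrable (by fun_prop) _ _))]
    refine Finset.sum_congr rfl fun j _ => ?_
    rw [intervalIntegral.integral_const_mul, integral_pow]
    simp
  rw [← h3]
  exact intervalIntegral.integral_nonneg hS fun x _ => h0 x t

/-- change of variables, lower bound -/
lemma tri_low {K c y0 tm : ℝ} (hK : 0 ≤ K) (H : ℝ → ℝ → ℝ≥0∞) (f : ℝ → ℝ → ℝ)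
    (hH : ∀ t s, 0 ≤ t → t < tm → 0 ≤ s → s ≤ 5 / 3 * t →
      ENNReal.ofReal (K * f t s) ≤ H (y0 - t) (c - t + s)) :
    ENNReal.ofReal K * (∫⁻ t in Set.Icc 0 tm, ∫⁻ s in Set.Icc 0 (5 / 3 * t),
      ENNReal.ofReal (f t s)) ≤ ∫⁻ y, ∫⁻ u, H y u := by
  rw [← lintegral_sub_left_eq_self (fun y => ∫⁻ u, H y u) y0,
    ← lintegral_const_mul' _ _ ENNReal.ofReal_ne_top]
  rw [← setLIntegral_congr (Ico_ae_eq_Icc : Set.Ico 0 tm =ᵐ[volume] Set.Icc 0 tm)]
  refine le_trans ?_ (setLIntegral_le_lintegral (Set.Ico 0 tm) _)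
  refine setLIntegral_mono' measurableSet_Ico fun t ht => ?_
  rw [← lintegral_add_left_eq_self (fun u => H (y0 - t) u) (c - t),
    ← lintegral_const_mul' _ _ ENNReal.ofReal_ne_top]
  refine le_trans ?_ (setLIntegral_le_lintegral (Set.Icc 0 (5 / 3 * t)) _)
  refine setLIntegral_mono' measurableSet_Icc fun s hs => ?_
  rw [← ENNReal.ofReal_mul hK]
  exact hH t s ht.1 ht.2 hs.1 hs.2

/-- change of variables, upper bound -/
lemma tri_up {K c y0 tm : ℝ} (hK : 0 ≤ K) (H : ℝ → ℝ → ℝ≥0∞) (f : ℝ → ℝ → ℝ)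
    (hH : ∀ t s, 0 ≤ t → t ≤ tm → 0 ≤ s → s ≤ 5 / 3 * t →
      H (y0 - t) (c - t + s) ≤ ENNReal.ofReal (K * f t s))
    (hz : ∀ t s, ¬ (0 ≤ t ∧ t ≤ tm ∧ 0 ≤ s ∧ s ≤ 5 / 3 * t) → H (y0 - t) (c - t + s) = 0) :
    ∫⁻ y, ∫⁻ u, H y u ≤
    ENNReal.ofReal K * (∫⁻ t in Set.Icc 0 tm, ∫⁻ s in Set.Icc 0 (5 / 3 * t),
      ENNReal.ofReal (f t s)) := by
  rw [← lintegral_sub_left_eq_self (fun y => ∫⁻ u, H y u) y0,
    ← lintegral_const_mul' _ _ ENNReal.ofReal_ne_top, ← lintegral_indicator measurableSet_Icc]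
  refine lintegral_mono fun t => ?_
  by_cases ht : t ∈ Set.Icc 0 tm
  · rw [Set.indicator_of_mem ht, ← lintegral_add_left_eq_self (fun u => H (y0 - t) u) (c - t),
      ← lintegral_const_mul' _ _ ENNReal.ofReal_ne_top, ← lintegral_indicator measurableSet_Icc]
    refine lintegral_mono fun s => ?_
    by_cases hs : s ∈ Set.Icc 0 (5 / 3 * t)
    · rw [Set.indicator_of_mem hs, ← ENNReal.ofReal_mul hK]
      exact hH t s ht.1 ht.2 hs.1 hs.2
    · rw [Set.indicator_of_notMem hs, hz t s (fun h => hs ⟨h.2.2.1, h.2.2.2⟩)]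
  · rw [Set.indicator_of_notMem ht]
    have h1 : ∀ u, H (y0 - t) u = 0 := by
      intro u
      have h2 := hz t (u - (c - t)) (fun h => ht ⟨h.1, h.2.1⟩)
      rwa [show c - t + (u - (c - t)) = u by ring] at h2
    simp only [h1, lintegral_zero, le_refl]

/-- coefficients in `s` -/
def c71 (r : ℝ) (j : Fin 7) (t : ℝ) : ℝ :=
  (![(2575 / 10000 + r - t) ^ 4 * (61425 / 100000 - 5 / 6 * r + 3 / 2 * t) ^ 2 / 24,
    (4 * (2575 / 10000 + r - t) ^ 3 * (61425 / 100000 - 5 / 6 * r + 3 / 2 * t) ^ 2 -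
      (2575 / 10000 + r - t) ^ 4 * (61425 / 100000 - 5 / 6 * r + 3 / 2 * t)) / 24,
    (6 * (2575 / 10000 + r - t) ^ 2 * (61425 / 100000 - 5 / 6 * r + 3 / 2 * t) ^ 2 -
      4 * (2575 / 10000 + r - t) ^ 3 * (61425 / 100000 - 5 / 6 * r + 3 / 2 * t) +
      (2575 / 10000 + r - t) ^ 4 / 4) / 24,
    (4 * (2575 / 10000 + r - t) * (61425 / 100000 - 5 / 6 * r + 3 / 2 * t) ^ 2 -
      6 * (2575 / 10000 + r - t) ^ 2 * (61425 / 100000 - 5 / 6 * r + 3 / 2 * t) +
      (2575 / 10000 + r - t) ^ 3) / 24,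
    ((61425 / 100000 - 5 / 6 * r + 3 / 2 * t) ^ 2 -
      4 * (2575 / 10000 + r - t) * (61425 / 100000 - 5 / 6 * r + 3 / 2 * t) +
      3 / 2 * (2575 / 10000 + r - t) ^ 2) / 24,
    ((2575 / 10000 + r - t) - (61425 / 100000 - 5 / 6 * r + 3 / 2 * t)) / 24,
    1 / 96] : Fin 7 → ℝ) j

lemma c71_sum (r t s : ℝ) : ∑ j, c71 r j t * s ^ (j : ℕ) =
    (2575 / 10000 + r - t + s) ^ 4 * (61425 / 100000 - 5 / 6 * r + 3 / 2 * t - s / 2) ^ 2 / 24 := by
  unfold c71
  simp only [Fin.sum_univ_succ, Fin.sum_univ_zero, Matrix.cons_val_zero, Matrix.cons_val_succ,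
    Fin.val_zero, Fin.val_succ]
  ring

/-- coefficients in `t` -/
def d71 (r : ℝ) : Fin 8 → ℝ := ![0,
  (75494741490441/655360000000000000) + (1209864056219/819200000000000) * r + (1917872433439/331776000000000) * r ^ 2 + (414192973/207360000000) * r ^ 3 + (-19242403/691200000) * r ^ 4 + (-2221/103680) * r ^ 5 + (125/2592) * r ^ 6,
  (177099357617/1638400000000000) + (1026946669957/331776000000000) * r + (29350700471/1244160000000) * r ^ 2 + (60198293/1036800000) * r ^ 3 + (-14687/1036800) * r ^ 4 + (-1225/7776) * r ^ 5,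
  (1345827430087/995328000000000) + (3223667941/1866240000000) * r + (-261467393/9331200000) * r ^ 2 + (48953/2332800) * r ^ 3 + (2315/7776) * r ^ 4,
  (13513612669/2488320000000) + (9331829/230400000) * r + (-569189/27993600) * r ^ 2 + (-26015/69984) * r ^ 3,
  (-9700127/6220800000) + (521933/13996800) * r + (55855/209952) * r ^ 2,
  (-376057/83980800) + (-62035/629856) * r,
  (8495/489888)]

lemma c71_d71 (r t : ℝ) : ∑ j, c71 r j t * ((5 / 3 * t) ^ ((j : ℕ) + 1) / ((j : ℕ) + 1)) =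
    ∑ i, d71 r i * t ^ (i : ℕ) := by
  unfold c71 d71
  simp only [Fin.sum_univ_succ, Fin.sum_univ_zero, Matrix.cons_val_zero, Matrix.cons_val_succ,
    Fin.val_zero, Fin.val_succ]
  push_cast
  ring

lemma J71 (r : ℝ) : ∫⁻ t in Set.Icc (0 : ℝ) (257 / 1000), ∫⁻ s in Set.Icc (0 : ℝ) (5 / 3 * t),
      ENNReal.ofReal ((2575 / 10000 + r - t + s) ^ 4 *
        (61425 / 100000 - 5 / 6 * r + 3 / 2 * t - s / 2) ^ 2 / 24) =
      ENNReal.ofReal (∑ i, d71 r i * ((257 / 1000) ^ ((i : ℕ) + 1) / ((i : ℕ) + 1))) := by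
  have h := tri_int (c71 r) (d71 r) (tm := 257 / 1000) (by norm_num) (c71_d71 r)
    (fun s t => by rw [c71_sum]; positivity)
  simp only [c71_sum] at h
  exact h

lemma J71_low {r : ℝ} (h0 : 0 ≤ r) (h1 : r ≤ 1425 / 10000) :
    702 / 10 ^ 8 + 7645 / 10 ^ 8 * r + 342 / 10 ^ 6 * r ^ 2 ≤
    ∑ i, d71 r i * ((257 / 1000) ^ ((i : ℕ) + 1) / ((i : ℕ) + 1)) := by
  obtain ⟨s, hs⟩ : ∃ s : ℝ, s = 1425 / 10000 - r := ⟨_, rfl⟩
  have hs0 : 0 ≤ s := by rw [hs]; linarith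
  have e : (∑ i, d71 r i * ((257 / 1000) ^ ((i : ℕ) + 1) / ((i : ℕ) + 1))) -
      (702 / 10 ^ 8 + 7645 / 10 ^ 8 * r + 342 / 10 ^ 6 * r ^ 2) =
      (39370177359555469960303 / 45003798080137800000000000) * (r ^ 0 * s ^ 6) + (2493452352403560962750671 / 78756646640241150000000000) * (r ^ 1 * s ^ 5) + (1520625154693834536393737 / 31502658656096460000000000) * (r ^ 2 * s ^ 4) + (2057849285733351112519 / 218768462889558750000000) * (r ^ 3 * s ^ 3) + (34841995314884392359497 / 3937832332012057500000000) * (r ^ 4 * s ^ 2) + (179993955548599292296093 / 9844580830030143750000000) * (r ^ 5 * s ^ 1) + (58089571833335426832509 / 19689161660060287500000000) * (r ^ 6 * s ^ 0) := by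
    rw [hs]
    unfold d71
    simp only [Fin.sum_univ_succ, Fin.sum_univ_zero, Matrix.cons_val_zero, Matrix.cons_val_succ,
      Fin.val_zero, Fin.val_succ]
    push_cast
    ring
  have h2 : 0 ≤ (∑ i, d71 r i * ((257 / 1000) ^ ((i : ℕ) + 1) / ((i : ℕ) + 1))) -
      (702 / 10 ^ 8 + 7645 / 10 ^ 8 * r + 342 / 10 ^ 6 * r ^ 2) := by
    rw [e]; positivity
  linarith

/-- coefficients in `s` -/
def c72 (w : ℝ) (j : Fin 7) (t : ℝ) : ℝ :=
  (![(w - t) ^ 6 / 720, 6 * (w - t) ^ 5 / 720, 15 * (w - t) ^ 4 / 720, 20 * (w - t) ^ 3 / 720,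
    15 * (w - t) ^ 2 / 720, 6 * (w - t) / 720, 1 / 720] : Fin 7 → ℝ) j

lemma c72_sum (w t s : ℝ) : ∑ j, c72 w j t * s ^ (j : ℕ) = (w - t + s) ^ 6 / 720 := by
  unfold c72
  simp only [Fin.sum_univ_succ, Fin.sum_univ_zero, Matrix.cons_val_zero, Matrix.cons_val_succ,
    Fin.val_zero, Fin.val_succ]
  ring

/-- coefficients in `t` -/
def d72 (w : ℝ) : Fin 8 → ℝ := ![0, (1/432) * w ^ 6, (-1/432) * w ^ 5, (35/3888) * w ^ 4, (-65/11664) * w ^ 3, (55/11664) * w ^ 2, (-133/104976) * w, (463/2204496)]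

lemma c72_d72 (w t : ℝ) : ∑ j, c72 w j t * ((5 / 3 * t) ^ ((j : ℕ) + 1) / ((j : ℕ) + 1)) =
    ∑ i, d72 w i * t ^ (i : ℕ) := by
  unfold c72 d72
  simp only [Fin.sum_univ_succ, Fin.sum_univ_zero, Matrix.cons_val_zero, Matrix.cons_val_succ,
    Fin.val_zero, Fin.val_succ]
  push_cast
  ring

lemma J72 (w : ℝ) : ∫⁻ t in Set.Icc (0 : ℝ) (25726 / 100000), ∫⁻ s in Set.Icc (0 : ℝ) (5 / 3 * t),
      ENNReal.ofReal ((w - t + s) ^ 6 / 720) =
      ENNReal.ofReal (∑ i, d72 w i * ((25726 / 100000) ^ ((i : ℕ) + 1) / ((i : ℕ) + 1))) := by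
  have h := tri_int (c72 w) (d72 w) (tm := 25726 / 100000) (by norm_num) (c72_d72 w)
    (fun s t => by rw [c72_sum]; positivity)
  simp only [c72_sum] at h
  exact h

lemma J72_up {r : ℝ} (h0 : 0 ≤ r) (h1 : r ≤ 1429 / 10000) :
    ∑ i, d72 (25706 / 100000 + r) i * ((25726 / 100000) ^ ((i : ℕ) + 1) / ((i : ℕ) + 1)) ≤
    62 / 10 ^ 9 + 1600 / 10 ^ 8 * r ^ 2 := by
  obtain ⟨s, hs⟩ : ∃ s : ℝ, s = 1429 / 10000 - r := ⟨_, rfl⟩
  have hs0 : 0 ≤ s := by rw [hs]; linarith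
  have e : (62 / 10 ^ 9 + 1600 / 10 ^ 8 * r ^ 2) -
      (∑ i, d72 (25706 / 100000 + r) i * ((25726 / 100000) ^ ((i : ℕ) + 1) / ((i : ℕ) + 1))) =
      (14360520916163459625227341790269936991 / 119789062811121331490064537217050000000) * (r ^ 0 * s ^ 8) + (5088233082907890837509099421755518181 / 14973632851390166436258067152131250000) * (r ^ 1 * s ^ 7) + (431819504129781984085964375314847923 / 2139090407341452348036866736018750000) * (r ^ 2 * s ^ 6) + (186354229732644510087084657756603809 / 534772601835363087009216684004687500) * (r ^ 3 * s ^ 5) + (438687303299870631727356795098451997 / 213909040734145234803686673601875000) * (r ^ 4 * s ^ 4) + (946511590350984450800996878124715727 / 267386300917681543504608342002343750) * (r ^ 5 * s ^ 3) + (2724165652176923723128453123584534689 / 1069545203670726174018433368009375000) * (r ^ 6 * s ^ 2) + (5442426176320544539385706039130838773 / 7486816425695083218129033576065625000)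 * (r ^ 7 * s ^ 1) + (4251367382570982056849754832987040561 / 119789062811121331490064537217050000000) * (r ^ 8 * s ^ 0) := by
    rw [hs]
    unfold d72
    simp only [Fin.sum_univ_succ, Fin.sum_univ_zero, Matrix.cons_val_zero, Matrix.cons_val_succ,
      Fin.val_zero, Fin.val_succ]
    push_cast
    ring
  have h2 : 0 ≤ (62 / 10 ^ 9 + 1600 / 10 ^ 8 * r ^ 2) -
      (∑ i, d72 (25706 / 100000 + r) i * ((25726 / 100000) ^ ((i : ℕ) + 1) / ((i : ℕ) + 1))) := by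
    rw [e]; positivity
  linarith

end
end Pool.Agent.Y756.T
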