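import Pool.Agent.Y756.S.Int7A

set_option autoImplicit false

/-! The main part of the cross term in the case `k = 7`. -/

namespace Pool.Agent.Y756.T

open Finset Filter Topology MeasureTheory Pool.Agent.H306R2
open Pool.Agent.TH535 (posI GdI GdI_nonneg int_able)
open scoped ENNReal

noncomputable section

/-- the weight for `k = 7` -/
def F7 (x y : ℝ) : ℝ := sc (5999 / 7000) (1 / 7000) (3 / 2 * x + y) *
  sc (-(1 / 7)) (1 / 7000) (y - x) * sc (9 / 10) (1 / 10) (x + y)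

lemma F7_FW : FW3 F7 (999 / 7000) (1 / 7000) where
  cont := by
    have h1 := sc_cont (5999 / 7000) (1 / 7000)
    have h2 := sc_cont (-(1 / 7)) (1 / 7000)
    have h3 := sc_cont (9 / 10) (1 / 10)
    unfold F7
    fun_prop
  nn x y := by
    unfold F7
    exact mul_nonneg (mul_nonneg (sc_nonneg _ _ _) (sc_nonneg _ _ _)) (sc_nonneg _ _ _)
  le1 x y := by
    unfold F7
    have h1 := sc_le_one (5999 / 7000) (1 / 7000) (3 / 2 * x + y)
    have h2 := sc_le_one (-(1 / 7)) (1 / 7000) (y - x)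
    have h3 := sc_le_one (9 / 10) (1 / 10) (x + y)
    have g1 := sc_nonneg (5999 / 7000) (1 / 7000) (3 / 2 * x + y)
    have g2 := sc_nonneg (-(1 / 7)) (1 / 7000) (y - x)
    have g3 := sc_nonneg (9 / 10) (1 / 10) (x + y)
    exact mul_le_one₀ (mul_le_one₀ h1 g2 h2) g3 h3
  z1 x y h := by
    unfold F7
    rw [sc_eq_zero (a := 9 / 10) (by norm_num) (by linarith), mul_zero]
  z2 x y h := by
    unfold F7
    rw [sc_eq_zero (a := -(1 / 7)) (by norm_num) (by linarith), mul_zero, zero_mul]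
  z3 x y h := by
    unfold F7
    rw [sc_eq_zero (a := 5999 / 7000) (by norm_num) (by linarith), zero_mul, zero_mul]

lemma F7_one {x y : ℝ} (h1 : 3 / 2 * x + y ≤ 857 / 1000) (h2 : y + 1 / 7 ≤ x)
    (h3 : x + y ≤ 9 / 10) : F7 x y = 1 := by
  unfold F7
  rw [sc_eq_one (by norm_num) (by linarith), sc_eq_one (by norm_num) (by linarith),
    sc_eq_one (by norm_num) h3]
  norm_num

lemma G7_nonneg (m : Fin 4 → ℝ) (hm : ∀ i, 0 < m i) {F : ℝ → ℝ → ℝ} {β ε : ℝ} (hF : FW3 F β ε)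
    (β δ : ℝ) (u : Fin 4 → ℝ) : 0 ≤ GdI m u * q7 F β δ u := by
  refine mul_nonneg (GdI_nonneg hm u) ?_
  unfold q7
  exact mul_nonneg (mul_nonneg (hF.nn _ _) (sc_nonneg _ _ _)) (sq_nonneg _)

lemma GdI7 (u b y z : ℝ) : GdI (mC (1 / 2)) ![u, b, y, z] =
    gd 5 u * gd (5 / 4) b * gd 1 y * gd (1 / 2) z := by
  unfold GdI mC
  rw [Fin.prod_univ_four]
  simp only [Matrix.cons_val_zero, Matrix.cons_val_one, Matrix.cons_val]
  rw [show (2 * (1 / 2 + 2) : ℝ) = 5 by norm_num, show ((1 / 2 + 2) * (1 / 2) : ℝ) = 5 / 4 by norm_num]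

/-- the integrand -/
def GG7 (u b y z : ℝ) : ℝ :=
  GdI (mC (1 / 2)) ![u, b, y, z] * q7 F7 (999 / 7000) (1 / 7000) ![u, b, y, z]

lemma GG7_nonneg (u b y z : ℝ) : 0 ≤ GG7 u b y z :=
  G7_nonneg _ (mC_pos (by norm_num)) F7_FW _ _ _

lemma GG7_eq {u b y z : ℝ} (h1 : 3 / 2 * (u + b) + y ≤ 857 / 1000) (h2 : y + 1 / 7 ≤ u + b)
    (h3 : u + b + y ≤ 9 / 10) (hbz : b + z ≤ 1425 / 10000) :
    GG7 u b y z = gd 5 u * gd (5 / 4) b * gd 1 y * gd (1 / 2) z *
      (1 - u / 2 - y - z) ^ 2 := by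
  unfold GG7
  rw [GdI7]
  unfold q7
  simp only [Matrix.cons_val_zero, Matrix.cons_val_one, Matrix.cons_val]
  rw [F7_one h1 h2 h3, sc_eq_one (by norm_num) (show b + z ≤ 999 / 7000 - 1 / 7000 by linarith)]
  ring

lemma gd5 {u : ℝ} (hu : 0 < u) : gd 5 u = u ^ 4 / 24 := by
  unfold gd
  rw [if_pos hu]
  have h1 : Real.Gamma 5 = 24 := by
    rw [show (5 : ℝ) = (4 : ℕ) + 1 by norm_num, Real.Gamma_nat_eq_factorial]
    simp [Nat.factorial]
  rw [h1, show (5 : ℝ) - 1 = ((4 : ℕ) : ℝ) by norm_num, Real.rpow_natCast]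

lemma zlev7 {u b y : ℝ} (hu : 0 < u) (hb : 0 < b) (hy : 0 < y) (hb1 : b < 1425 / 10000)
    (h1 : 3 / 2 * (u + b) + y ≤ 857 / 1000) (h2 : y + 1 / 7 ≤ u + b)
    (h3 : u + b + y ≤ 9 / 10) :
    ENNReal.ofReal ((gd (5 / 4) b * ((1425 / 10000 - b) ^ (1 / 2 : ℝ) / Real.Gamma (3 / 2))) *
      (u ^ 4 / 24 * (1 - u / 2 - y - (1425 / 10000 - b) / 3) ^ 2)) ≤
    ∫⁻ z, ENNReal.ofReal (GG7 u b y z) := by
  set r : ℝ := 1425 / 10000 - b with hr
  have hr0 : 0 < r := by rw [hr]; linarith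
  have hr1 : r < 1425 / 10000 := by rw [hr]; linarith
  set A0 : ℝ := 1 - u / 2 - y with hA0
  have hA1 : 1 / 2 ≤ A0 := by rw [hA0]; linarith
  set K := u ^ 4 / 24 * gd (5 / 4) b * (2 * (A0 - r / 3)) with hK
  have hg := gd_nonneg (m := 5 / 4) (by norm_num) b
  have hK0 : 0 ≤ K := by
    have h4 : 0 ≤ A0 - r / 3 := by linarith
    positivity
  obtain ⟨hi, hv⟩ := z_int (A0 := (A0 + r / 3) / 2) hr0
  have hnn : ∀ z, 0 ≤ K * (gd (1 / 2) z * ct r z * ((A0 + r / 3) / 2 - z)) := by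
    intro z
    refine mul_nonneg hK0 ?_
    by_cases hz : z ≤ r
    · exact mul_nonneg (mul_nonneg (gd_nonneg (by norm_num) z) (ct_nonneg _ _)) (by linarith)
    · unfold ct; rw [if_neg hz]; simp
  have hle : ∀ z, K * (gd (1 / 2) z * ct r z * ((A0 + r / 3) / 2 - z)) ≤ GG7 u b y z := by
    intro z
    by_cases hz : z ≤ r
    · rw [GG7_eq h1 h2 h3 (by linarith), gd1 hy, gd5 hu]
      unfold ct
      rw [if_pos hz, hK, ← hA0]
      have hgz := gd_nonneg (m := 1 / 2) (by norm_num) z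
      have hsq : 2 * (A0 - r / 3) * ((A0 + r / 3) / 2 - z) ≤ (A0 - z) ^ 2 := by
        have := sq_nonneg (z - r / 3)
        linarith
      calc _ = (u ^ 4 / 24 * gd (5 / 4) b * gd (1 / 2) z) *
            (2 * (A0 - r / 3) * ((A0 + r / 3) / 2 - z)) := by ring
        _ ≤ (u ^ 4 / 24 * gd (5 / 4) b * gd (1 / 2) z) * (A0 - z) ^ 2 :=
            mul_le_mul_of_nonneg_left hsq (by positivity)
        _ = _ := by ring
    · unfold ct
      rw [if_neg hz]
      simp only [mul_zero, zero_mul]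
      exact GG7_nonneg u b y z
  have hI := ofReal_integral_eq_lintegral_ofReal (hi.const_mul K) (Eventually.of_forall hnn)
  rw [integral_const_mul, hv] at hI
  have e : (gd (5 / 4) b * (r ^ (1 / 2 : ℝ) / Real.Gamma (3 / 2))) *
      (u ^ 4 / 24 * (A0 - r / 3) ^ 2) =
      K * (r ^ (1 / 2 : ℝ) / Real.Gamma (3 / 2) * ((A0 + r / 3) / 2 - r / 3)) := by
    rw [hK]; ring
  rw [e, hI]
  exact lintegral_mono fun z => ENNReal.ofReal_le_ofReal (hle z)

/-- rational weight -/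
def Q71 : ℝ := 702 / 10 ^ 8 + 6 / 11 * (7645 / 10 ^ 8) * (1425 / 10000) +
  4 / 11 * (342 / 10 ^ 6) * (1425 / 10000) ^ 2

lemma blev7 (b : ℝ) :
    ENNReal.ofReal ((Real.Gamma (3 / 2))⁻¹ * (702 / 10 ^ 8 * (gd (5 / 4) b *
        (max (1425 / 10000 - b) 0) ^ (1 / 2 : ℝ)) +
      7645 / 10 ^ 8 * (gd (5 / 4) b * (max (1425 / 10000 - b) 0) ^ (3 / 2 : ℝ)) +
      342 / 10 ^ 6 * (gd (5 / 4) b * (max (1425 / 10000 - b) 0) ^ (5 / 2 : ℝ)))) ≤
    ∫⁻ y, ∫⁻ u, ∫⁻ z, ENNReal.ofReal (GG7 u b y z) := by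
  by_cases hb : 0 < b
  · by_cases hb1 : b < 1425 / 10000
    · obtain ⟨r, hr⟩ : ∃ r : ℝ, r = 1425 / 10000 - b := ⟨_, rfl⟩
      have hr0 : 0 < r := by rw [hr]; linarith
      have hr1 : r ≤ 1425 / 10000 := by rw [hr]; linarith
      have hG := Real.Gamma_pos_of_pos (show (0 : ℝ) < 3 / 2 by norm_num)
      have hgd := gd_nonneg (m := 5 / 4) (by norm_num) b
      have hK : 0 ≤ gd (5 / 4) b * (r ^ (1 / 2 : ℝ) / Real.Gamma (3 / 2)) := by positivity
      have hlow := tri_low (c := 2575 / 10000 + r) (y0 := 257 / 1000) (tm := 257 / 1000) hK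
        (fun y u => ∫⁻ z, ENNReal.ofReal (GG7 u b y z))
        (fun t s => (2575 / 10000 + r - t + s) ^ 4 *
          (61425 / 100000 - 5 / 6 * r + 3 / 2 * t - s / 2) ^ 2 / 24) (by
          intro t s ht0 ht1 hs0 hs1
          refine le_trans (ENNReal.ofReal_le_ofReal (le_of_eq ?_))
            (zlev7 (u := 2575 / 10000 + r - t + s) (b := b) (y := 257 / 1000 - t) (by linarith) hb
              (by linarith) hb1 (by rw [hr]; linarith) (by rw [hr]; linarith) (by rw [hr]; linarith))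
          rw [← hr]
          rw [show 1 - (2575 / 10000 + r - t + s) / 2 - (257 / 1000 - t) - r / 3 =
            61425 / 100000 - 5 / 6 * r + 3 / 2 * t - s / 2 by ring]
          ring)
      rw [J71 r, ← ENNReal.ofReal_mul hK] at hlow
      refine le_trans (ENNReal.ofReal_le_ofReal ?_) hlow
      have hJ := J71_low hr0.le hr1
      rw [← hr, max_eq_left hr0.le]
      have e1 : r ^ (3 / 2 : ℝ) = r ^ (1 / 2 : ℝ) * r := by
        rw [show (3 / 2 : ℝ) = 1 / 2 + 1 by norm_num, Real.rpow_add_one hr0.ne']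
      have e2 : r ^ (5 / 2 : ℝ) = r ^ (1 / 2 : ℝ) * r ^ 2 := by
        rw [show (5 / 2 : ℝ) = 1 / 2 + (2 : ℕ) by norm_num, Real.rpow_add hr0, Real.rpow_natCast]
      rw [e1, e2]
      calc _ = gd (5 / 4) b * (r ^ (1 / 2 : ℝ) / Real.Gamma (3 / 2)) *
            (702 / 10 ^ 8 + 7645 / 10 ^ 8 * r + 342 / 10 ^ 6 * r ^ 2) := by
            field_simp
        _ ≤ _ := mul_le_mul_of_nonneg_left hJ hK
    · rw [max_eq_right (by linarith : (1425 / 10000 - b : ℝ) ≤ 0), Real.zero_rpow (by norm_num),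
        Real.zero_rpow (by norm_num), Real.zero_rpow (by norm_num)]
      simp
  · have : gd (5 / 4) b = 0 := by unfold gd; rw [if_neg hb]
    rw [this]
    simp

/-- iterated integral with the second variable outermost -/
lemma fub4' (f : (Fin 4 → ℝ) → ℝ≥0∞) (hf : Measurable f) :
    ∫⁻ y, f y = ∫⁻ b : ℝ, ∫⁻ y : ℝ, ∫⁻ u : ℝ, ∫⁻ z : ℝ, f ![u, b, y, z] := by
  rw [fubS 1 f hf]
  refine lintegral_congr fun b => ?_
  rw [fubS 1 (fun y => f (Fin.insertNth 1 b y)) (hf.comp (ins_meas 1 b))]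
  refine lintegral_congr fun y => ?_
  rw [fub2 (fun w => f (Fin.insertNth 1 b (Fin.insertNth 1 y w)))
    ((hf.comp (ins_meas 1 b)).comp (ins_meas 1 y))]
  refine lintegral_congr fun u => lintegral_congr fun z => ?_
  congr 1
  funext i
  fin_cases i <;> rfl

theorem I71_low : (1425 / 10000 : ℝ) ^ (7 / 4 : ℝ) / Real.Gamma (11 / 4) * Q71 ≤
    ∫ u : Fin 4 → ℝ, GdI (mC (1 / 2)) u * q7 F7 (999 / 7000) (1 / 7000) u := by
  have hm : ∀ i, 0 < mC (1 / 2) i := mC_pos (by norm_num)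
  have hnn : ∀ u : Fin 4 → ℝ, 0 ≤ GdI (mC (1 / 2)) u * q7 F7 (999 / 7000) (1 / 7000) u :=
    fun u => G7_nonneg _ hm F7_FW _ _ u
  have hint : Integrable (fun u : Fin 4 → ℝ =>
      GdI (mC (1 / 2)) u * q7 F7 (999 / 7000) (1 / 7000) u) := by
    refine int_able hm _ (q7_cont F7_FW.toFW _ _) 1 ?_ (by norm_num)
    intro u hu hi
    unfold q7
    rw [q_zero F7_FW.toFW (by norm_num) (by norm_num) (by norm_num) u hu hi, zero_mul]
  have h1 := ofReal_integral_eq_lintegral_ofReal hint (Eventually.of_forall hnn)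
  have hmeas : Measurable (fun u : Fin 4 → ℝ => ENNReal.ofReal
      (GdI (mC (1 / 2)) u * q7 F7 (999 / 7000) (1 / 7000) u)) :=
    ((GdI_meas _).mul (q7_cont F7_FW.toFW _ _).measurable).ennreal_ofReal
  rw [fub4' _ hmeas] at h1
  rw [← ENNReal.ofReal_le_ofReal_iff (integral_nonneg hnn), h1]
  refine le_trans ?_ (lintegral_mono blev7)
  obtain ⟨i1, v1⟩ := beta_int (a := 5 / 4) (b := 1 / 2) (B := 1425 / 10000) (by norm_num)
    (by norm_num) (by norm_num)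
  obtain ⟨i2, v2⟩ := beta_int (a := 5 / 4) (b := 3 / 2) (B := 1425 / 10000) (by norm_num)
    (by norm_num) (by norm_num)
  obtain ⟨i3, v3⟩ := beta_int (a := 5 / 4) (b := 5 / 2) (B := 1425 / 10000) (by norm_num)
    (by norm_num) (by norm_num)
  have k1 : Integrable (fun b => 702 / 10 ^ 8 * (gd (5 / 4) b *
        (max (1425 / 10000 - b) 0) ^ (1 / 2 : ℝ))) := i1.const_mul _
  have k2 : Integrable (fun b => 7645 / 10 ^ 8 * (gd (5 / 4) b *
        (max (1425 / 10000 - b) 0) ^ (3 / 2 : ℝ))) := i2.const_mul _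
  have k3 : Integrable (fun b => 342 / 10 ^ 6 * (gd (5 / 4) b *
        (max (1425 / 10000 - b) 0) ^ (5 / 2 : ℝ))) := i3.const_mul _
  have k12 : Integrable (fun b => 702 / 10 ^ 8 * (gd (5 / 4) b *
        (max (1425 / 10000 - b) 0) ^ (1 / 2 : ℝ)) + 7645 / 10 ^ 8 * (gd (5 / 4) b *
        (max (1425 / 10000 - b) 0) ^ (3 / 2 : ℝ))) := k1.add k2
  have k123 : Integrable (fun b => 702 / 10 ^ 8 * (gd (5 / 4) b *
        (max (1425 / 10000 - b) 0) ^ (1 / 2 : ℝ)) + 7645 / 10 ^ 8 * (gd (5 / 4) b *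
        (max (1425 / 10000 - b) 0) ^ (3 / 2 : ℝ)) + 342 / 10 ^ 6 * (gd (5 / 4) b *
        (max (1425 / 10000 - b) 0) ^ (5 / 2 : ℝ))) := k12.add k3
  have hG := Real.Gamma_pos_of_pos (show (0 : ℝ) < 3 / 2 by norm_num)
  have hG9 := Real.Gamma_pos_of_pos (show (0 : ℝ) < 11 / 4 by norm_num)
  have hI := ofReal_integral_eq_lintegral_ofReal (k123.const_mul (Real.Gamma (3 / 2))⁻¹)
    (Eventually.of_forall fun b => by
      have hgd := gd_nonneg (m := 5 / 4) (by norm_num) b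
      show 0 ≤ (Real.Gamma (3 / 2))⁻¹ * _
      positivity)
  rw [integral_const_mul, integral_add k12 k3, integral_add k1 k2, integral_const_mul,
    integral_const_mul, integral_const_mul, v1, v2, v3] at hI
  rw [← hI]
  refine ENNReal.ofReal_le_ofReal (le_of_eq ?_)
  have g52 : Real.Gamma (3 / 2 + 1) = 3 / 2 * Real.Gamma (3 / 2) := Real.Gamma_add_one (by norm_num)
  have g72 : Real.Gamma (5 / 2 + 1) = 5 / 2 * (3 / 2 * Real.Gamma (3 / 2)) := by
    rw [Real.Gamma_add_one (by norm_num), show (5 / 2 : ℝ) = 3 / 2 + 1 by norm_num, g52]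
  have g94 : (5 / 4 : ℝ) + 1 / 2 + 1 = 11 / 4 := by norm_num
  have g134 : Real.Gamma (5 / 4 + 3 / 2 + 1) = 11 / 4 * Real.Gamma (11 / 4) := by
    rw [Real.Gamma_add_one (by norm_num), show (5 / 4 : ℝ) + 3 / 2 = 11 / 4 by norm_num]
  have g174 : Real.Gamma (5 / 4 + 5 / 2 + 1) = 15 / 4 * (11 / 4 * Real.Gamma (11 / 4)) := by
    rw [Real.Gamma_add_one (by norm_num), show (5 / 4 : ℝ) + 5 / 2 = 11 / 4 + 1 by norm_num,
      Real.Gamma_add_one (by norm_num)]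
    norm_num
  have e1 : (1425 / 10000 : ℝ) ^ (5 / 4 + 1 / 2 : ℝ) = (1425 / 10000 : ℝ) ^ (7 / 4 : ℝ) := by norm_num
  have e2 : (1425 / 10000 : ℝ) ^ (5 / 4 + 3 / 2 : ℝ) =
      (1425 / 10000 : ℝ) ^ (7 / 4 : ℝ) * (1425 / 10000) := by
    rw [show (5 / 4 + 3 / 2 : ℝ) = 7 / 4 + 1 by norm_num, Real.rpow_add_one (by norm_num)]
  have e3 : (1425 / 10000 : ℝ) ^ (5 / 4 + 5 / 2 : ℝ) =
      (1425 / 10000 : ℝ) ^ (7 / 4 : ℝ) * (1425 / 10000) ^ 2 := by
    rw [show (5 / 4 + 5 / 2 : ℝ) = 7 / 4 + (2 : ℕ) by norm_num, Real.rpow_add (by norm_num),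
      Real.rpow_natCast]
  rw [g94, g134, g174, g72, g52, e1, e2, e3, show (1 / 2 : ℝ) + 1 = 3 / 2 by norm_num]
  unfold Q71
  field_simp
  ring

end
end Pool.Agent.Y756.T
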