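import Pool.Agent.Y756.S.Fin7
import Pool.Agent.Y756.S.Num7

set_option autoImplicit false

/-! The lower bound for the seventh moment. -/

namespace Pool.Agent.Y756.T

open Finset Filter Topology MeasureTheory
open Pool.Agent.H306R2 Pool.Agent.H306R2.SM
open Pool.Agent.H223.EM hiding mw

noncomputable section

theorem main7 : ∀ᶠ T : ℝ in atTop,
    32 / Real.Gamma (53 / 4) * aF (7 / 2) * T * Real.log T ^ (49 / 4 : ℝ) ≤
      ∫ t in (0 : ℝ)..T, ‖riemannZeta (cl t)‖ ^ 7 := by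
  obtain ⟨p, q, w, ν, hp, hq, hν, h1, h2, h3, h4⟩ := params7
  have hA := aF_pos (κ := 7 / 2) (by norm_num)
  set A := aF (7 / 2) with hAd
  have hG := Real.Gamma_pos_of_pos (show (0 : ℝ) < 53 / 4 by norm_num)
  have hf := func7 (A * p) (A * q) (A * w) ν (by positivity) (by positivity) hν
    (mul_lt_mul_of_pos_left h1 hA) (mul_lt_mul_of_pos_left h2 hA) (mul_lt_mul_of_pos_left h3 hA)
  have e : 7 / 6 * ν * ((A * p) ^ 2 / (A * q) - ν ^ 6 * (A * w) / 7) =
      A * (7 / 6 * ν * (p ^ 2 / q - ν ^ 6 * w / 7)) := by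
    have e1 : (A * p) ^ 2 / (A * q) = A * (p ^ 2 / q) := by
      field_simp
    rw [e1]; ring
  rw [e] at hf
  set M := 7 / 6 * ν * (p ^ 2 / q - ν ^ 6 * w / 7) with hM
  have hM0 : 0 < M := lt_trans (by positivity) h4
  have hpz := Pool.Agent.H284R2.EM.PG.zeta
  obtain ⟨hcz, Cz, Az, hCz, hz⟩ := hpz.pow 7
  refine window_real (fun t => ‖riemannZeta (cl t)‖ ^ 7) (hpz.1.norm.pow 7)
    (fun t => by positivity) ⟨Cz, Az, fun t ht => by
      have := hz t ht
      rwa [norm_pow] at this⟩ (A * M) (by positivity) (49 / 4) (by norm_num) ?_ _ ?_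
  · filter_upwards [hf] with T hT k hk1 hk2
    exact hT k ⟨hk1, hk2⟩
  · calc 32 / Real.Gamma (53 / 4) * A < M * A := mul_lt_mul_of_pos_right h4 hA
      _ = A * M := mul_comm _ _

end
end Pool.Agent.Y756.T
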